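import Pool.Agent.H361.FU.Run

/-!
# Almost invariant functions for runs of equal letters
-/

set_option autoImplicit false

namespace Pool.Agent.H361.FU

open Pool.Agent.Results.MP_0b0f5a_al.LowerBounds

theorem sum_double (F : ℕ → ℝ) (K : ℕ) :
    ∑ t ∈ Finset.range (2 * K), F t = ∑ k ∈ Finset.range K, (F (2 * k) + F (2 * k + 1)) := by
  induction K with
  | zero => rfl
  | succ K ih =>
    rw [Finset.sum_range_succ, ← ih, show 2 * (K + 1) = 2 * K + 1 + 1 from by ring, Finset.sum_range_succ,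
      Finset.sum_range_succ, add_assoc]

section val

variable (P : ℕ → Finset Pm) (L : ℕ)

open Classical in
/-- the function with the values `z t` on the sets `P t` -/
noncomputable def val (z : ℕ → ℝ) (g : Pm) : ℝ := ∑ t ∈ Finset.range L, if g ∈ P t then z t else 0

variable {P L}

theorem val_of (hd : ∀ s t, s < L → t < L → ∀ g, g ∈ P s → g ∈ P t → s = t) (z : ℕ → ℝ) {t : ℕ}
    (ht : t < L) {g : Pm} (hg : g ∈ P t) : val P L z g = z t := by
  rw [val, Finset.sum_eq_single t]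
  · rw [if_pos hg]
  · intro s hs hst
    rw [if_neg]
    intro h
    exact hst (hd s t (Finset.mem_range.1 hs) ht g h hg)
  · intro h
    exact absurd (Finset.mem_range.2 ht) h

theorem val_ne (hd : ∀ s t, s < L → t < L → ∀ g, g ∈ P s → g ∈ P t → s = t) (z : ℕ → ℝ) {g : Pm}
    (h : val P L z g ≠ 0) : ∃ t, t < L ∧ g ∈ P t ∧ z t ≠ 0 := by
  rw [val] at h
  obtain ⟨t, ht, h1⟩ := Finset.exists_ne_zero_of_sum_ne_zero h
  refine ⟨t, Finset.mem_range.1 ht, ?_, ?_⟩
  · by_contra h2
    exact h1 (if_neg h2)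
  · intro h2
    apply h1
    rw [h2]
    exact ite_self _

theorem val_inv (hd : ∀ s t, s < L → t < L → ∀ g, g ∈ P s → g ∈ P t → s = t) (z : ℕ → ℝ) (s : Pm)
    (hs : s * s = 1) (b : ℕ → ℕ)
    (h : ∀ t, t < L → z t ≠ 0 → b t < L ∧ z (b t) = z t ∧ ∀ g ∈ P t, s * g ∈ P (b t)) (g : Pm) :
    val P L z (s * g) = val P L z g := by
  have key : ∀ g, val P L z g ≠ 0 → val P L z (s * g) = val P L z g := by
    intro g hg
    obtain ⟨t, ht, h1, h2⟩ := val_ne hd z hg
    obtain ⟨h3, h4, h5⟩ := h t ht h2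
    rw [val_of hd z ht h1, val_of hd z h3 (h5 g h1), h4]
  by_cases hg : val P L z g = 0
  · by_contra h1
    have h2 : val P L z (s * g) ≠ 0 := fun h3 => h1 (by rw [h3, hg])
    have h3 := key _ h2
    rw [← mul_assoc, hs, one_mul] at h3
    exact h1 h3.symm
  · exact key g hg

open Classical in
theorem val_sum (hd : ∀ s t, s < L → t < L → ∀ g, g ∈ P s → g ∈ P t → s = t) (z z' : ℕ → ℝ) (p : ℕ)
    (hp : ∀ t, t < L → (P t).card = p) :
    ∑ g ∈ (Finset.range L).biUnion P, val P L z g * val P L z' g =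
      p * ∑ t ∈ Finset.range L, z t * z' t := by
  rw [Finset.sum_biUnion]
  · rw [Finset.mul_sum]
    refine Finset.sum_congr rfl fun t ht => ?_
    have ht' := Finset.mem_range.1 ht
    rw [Finset.sum_congr rfl fun g hg => by rw [val_of hd z ht' hg, val_of hd z' ht' hg],
      Finset.sum_const, hp t ht', nsmul_eq_mul]
  · intro s hs t ht hst
    rw [Function.onFun, Finset.disjoint_left]
    intro g h1 h2
    exact hst (hd s t (Finset.mem_range.1 hs) (Finset.mem_range.1 ht) g h1 h2)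

end val

/-- the tent function -/
noncomputable def Yt (K : ℕ) (k : ℕ) : ℝ := min (k : ℝ) ((K : ℝ) - k)

theorem Yt_diff (K k : ℕ) : (Yt K k - Yt K (k + 1)) ^ 2 ≤ 1 := by
  unfold Yt
  push_cast
  rcases le_total (k : ℝ) ((K : ℝ) - k) with h | h <;>
  rcases le_total ((k : ℝ) + 1) ((K : ℝ) - (k + 1)) with h' | h'
  · rw [min_eq_left h, min_eq_left h']
    nlinarith
  · rw [min_eq_left h, min_eq_right h']
    nlinarith
  · rw [min_eq_right h, min_eq_left h']
    nlinarith
  · rw [min_eq_right h, min_eq_right h']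
    nlinarith

theorem Yt_low (m k : ℕ) (h1 : m ≤ k) (h2 : k ≤ 3 * m) : (m : ℝ) ≤ Yt (4 * m) k := by
  unfold Yt
  refine le_min (by exact_mod_cast h1) ?_
  have : (k : ℝ) ≤ 3 * m := by exact_mod_cast h2
  push_cast
  linarith

theorem Yt_sum (m : ℕ) : 4 * (m : ℝ) ^ 3 ≤
    ∑ k ∈ Finset.range (4 * m), (Yt (4 * m) k ^ 2 + Yt (4 * m) (k + 1) ^ 2) := by
  calc 4 * (m : ℝ) ^ 3 = ∑ k ∈ Finset.Ico m (3 * m), (2 * (m : ℝ) ^ 2) := by
        rw [Finset.sum_const, Nat.card_Ico, nsmul_eq_mul]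
        have : 3 * m - m = 2 * m := by omega
        rw [this]
        push_cast
        ring
    _ ≤ ∑ k ∈ Finset.Ico m (3 * m), (Yt (4 * m) k ^ 2 + Yt (4 * m) (k + 1) ^ 2) := by
        refine Finset.sum_le_sum fun k hk => ?_
        rw [Finset.mem_Ico] at hk
        have h1 := Yt_low m k hk.1 (by omega)
        have h2 := Yt_low m (k + 1) (by omega) (by omega)
        have h0 : (0 : ℝ) ≤ m := Nat.cast_nonneg m
        nlinarith
    _ ≤ _ := by
        refine Finset.sum_le_sum_of_subset_of_nonneg ?_ fun k _ _ => by positivity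
        intro k hk
        rw [Finset.mem_Ico] at hk
        rw [Finset.mem_range]
        omega

open Classical in
theorem Cv.dat {ω : ℕ → Fin 3} {i : Fin 3} {r : ℕ} {P N : ℕ → Finset Pm} {p q : ℕ}
    (C : Cv ω i (r + 3) P N p q) : ∃ (T : Finset Pm) (u w : Pm → ℝ) (R : ℝ),
      Dat ω (1 / (2 * 4 ^ r)) (2 ^ (r + 3)) T u w R := by
  set m : ℕ := 2 ^ r with hm
  have hm1 : 1 ≤ m := Nat.one_le_two_pow
  have hL : 2 ^ (r + 3) = 2 * (4 * m) := by
    rw [pow_add, hm]
    ring
  set Y := Yt (4 * m) with hY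
  let y : ℕ → ℝ := fun t => Y ((t + 1) / 2)
  let x : ℕ → ℝ := fun t => (Y (t / 2) + Y (t / 2 + 1)) / 2
  set B : ℝ := ∑ t ∈ Finset.range (2 * (4 * m)), y t * y t with hB
  set A : ℝ := ∑ t ∈ Finset.range (2 * (4 * m)), x t * x t with hA
  have hB' : B = ∑ k ∈ Finset.range (4 * m), (Y k ^ 2 + Y (k + 1) ^ 2) := by
    rw [hB, sum_double]
    refine Finset.sum_congr rfl fun k _ => ?_
    have h1 : (2 * k + 1) / 2 = k := by omega
    have h2 : (2 * k + 1 + 1) / 2 = k + 1 := by omega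
    show Y ((2 * k + 1) / 2) * Y ((2 * k + 1) / 2) + Y ((2 * k + 1 + 1) / 2) * Y ((2 * k + 1 + 1) / 2) = _
    rw [h1, h2]
    ring
  have hA' : A = ∑ k ∈ Finset.range (4 * m), (Y k + Y (k + 1)) ^ 2 / 2 := by
    rw [hA, sum_double]
    refine Finset.sum_congr rfl fun k _ => ?_
    have h1 : (2 * k + 1) / 2 = k := by omega
    have h2 : 2 * k / 2 = k := by omega
    show (Y (2 * k / 2) + Y (2 * k / 2 + 1)) / 2 * ((Y (2 * k / 2) + Y (2 * k / 2 + 1)) / 2) +
      (Y ((2 * k + 1) / 2) + Y ((2 * k + 1) / 2 + 1)) / 2 *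
        ((Y ((2 * k + 1) / 2) + Y ((2 * k + 1) / 2 + 1)) / 2) = _
    rw [h1, h2]
    ring
  have hyx : ∑ t ∈ Finset.range (2 * (4 * m)), y t * x t = A := by
    rw [hA', sum_double]
    refine Finset.sum_congr rfl fun k _ => ?_
    have h1 : (2 * k + 1) / 2 = k := by omega
    have h2 : 2 * k / 2 = k := by omega
    have h3 : (2 * k + 1 + 1) / 2 = k + 1 := by omega
    show Y ((2 * k + 1) / 2) * ((Y (2 * k / 2) + Y (2 * k / 2 + 1)) / 2) +
      Y ((2 * k + 1 + 1) / 2) * ((Y ((2 * k + 1) / 2) + Y ((2 * k + 1) / 2 + 1)) / 2) = _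
    rw [h1, h2, h3]
    ring
  have hBA : B - A = ∑ k ∈ Finset.range (4 * m), (Y k - Y (k + 1)) ^ 2 / 2 := by
    rw [hB', hA', ← Finset.sum_sub_distrib]
    refine Finset.sum_congr rfl fun k _ => by ring
  have hBA0 : A ≤ B := by
    have h1 : 0 ≤ B - A := by
      rw [hBA]
      exact Finset.sum_nonneg fun k _ => by positivity
    linarith
  have hBA1 : B - A ≤ 2 * m := by
    rw [hBA]
    calc ∑ k ∈ Finset.range (4 * m), (Y k - Y (k + 1)) ^ 2 / 2 ≤ ∑ k ∈ Finset.range (4 * m), (1 / 2 : ℝ) := by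
          refine Finset.sum_le_sum fun k _ => ?_
          have := Yt_diff (4 * m) k
          rw [← hY] at this
          linarith
      _ = 2 * m := by
          rw [Finset.sum_const, Finset.card_range, nsmul_eq_mul]
          push_cast
          ring
  have hBm : 4 * (m : ℝ) ^ 3 ≤ B := by
    rw [hB']
    exact Yt_sum m
  have hmR : (1 : ℝ) ≤ m := by exact_mod_cast hm1
  have hApos : 0 < A := by
    have h1 : (m : ℝ) ≤ (m : ℝ) ^ 3 := by
      nlinarith [mul_nonneg (sub_nonneg.2 hmR) (sub_nonneg.2 hmR), sq_nonneg (m : ℝ)]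
    linarith
  have hBpos : 0 < B := lt_of_lt_of_le hApos hBA0
  set l : ℝ := Real.sqrt (B / A) with hl
  have hl2 : l * l = B / A := Real.mul_self_sqrt (by positivity)
  have hl1 : 1 ≤ l := by
    rw [hl, Real.one_le_sqrt, one_le_div hApos]
    exact hBA0
  have hd : ∀ s t, s < 2 * (4 * m) → t < 2 * (4 * m) → ∀ g, g ∈ P s → g ∈ P t → s = t := by
    intro s t hs ht
    exact C.dis s t (by omega) (by omega)
  have hcp : ∀ t, t < 2 * (4 * m) → (P t).card = p := fun t ht => C.cp t (by omega)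
  have hpR : (0 : ℝ) < p := by exact_mod_cast C.pp
  have ha1 : ∀ j, bz j i = a → bz j i ≠ 1 := by
    intro j h h'
    rw [h] at h'
    have := congrArg (fun e : Pm => e [true]) h'
    simp [a, aMap] at this
  have huw : ∑ g ∈ (Finset.range (2 * (4 * m))).biUnion P, val P (2 * (4 * m)) y g *
      val P (2 * (4 * m)) (fun t => l * x t) g = p * (l * A) := by
    have h0 : ∑ t ∈ Finset.range (2 * (4 * m)), y t * (l * x t) = l * A := by
      rw [← hyx, Finset.mul_sum]
      exact Finset.sum_congr rfl fun t _ => by ring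
    rw [val_sum hd _ _ p hcp, h0]
  refine ⟨(Finset.range (2 * (4 * m))).biUnion P, val P (2 * (4 * m)) y,
    val P (2 * (4 * m)) (fun t => l * x t), p * B, ?_⟩
  constructor
  · positivity
  · intro g hg
    by_contra h
    obtain ⟨t, ht, h1, _⟩ := val_ne hd _ h
    exact hg (Finset.mem_biUnion.2 ⟨t, Finset.mem_range.2 ht, h1⟩)
  · intro g hg
    by_contra h
    obtain ⟨t, ht, h1, _⟩ := val_ne hd _ h
    exact hg (Finset.mem_biUnion.2 ⟨t, Finset.mem_range.2 ht, h1⟩)
  · intro j g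
    have hrange : ∀ t, t < 2 * (4 * m) → y t ≠ 0 → 1 ≤ t ∧ t + 1 < 2 * (4 * m) := by
      intro t ht h0
      constructor
      · by_contra h1
        have h2 : t = 0 := by omega
        apply h0
        subst h2
        show Yt (4 * m) ((0 + 1) / 2) = 0
        unfold Yt
        have h3 : (0 + 1) / 2 = 0 := by norm_num
        rw [h3]
        push_cast
        rw [sub_zero]
        exact min_eq_left (by positivity)
      · by_contra h1
        have h2 : t = 2 * (4 * m) - 1 := by omega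
        apply h0
        show Yt (4 * m) ((t + 1) / 2) = 0
        unfold Yt
        have h3 : (t + 1) / 2 = 4 * m := by omega
        rw [h3, sub_self]
        exact min_eq_right (by positivity)
    rcases bz_cases j i with h | h
    · refine val_inv hd y (gen ω j) (gen_sq ω j) (fun t => if t % 2 = 1 then t + 1 else t - 1) ?_ g
      intro t ht h0
      obtain ⟨h1, h2⟩ := hrange t ht h0
      by_cases hodd : t % 2 = 1
      · simp only [if_pos hodd]
        obtain ⟨k, rfl⟩ : ∃ k, t = 2 * k + 1 := ⟨t / 2, by omega⟩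
        refine ⟨by omega, ?_, ?_⟩
        · show Y ((2 * k + 1 + 1 + 1) / 2) = Y ((2 * k + 1 + 1) / 2)
          congr 1
          omega
        · intro g hg
          rcases C.Pv k (by omega) j with ⟨_, h3⟩ | ⟨h3, _⟩
          · exact (h3 g).2 hg
          · exact absurd h3 (ha1 j h)
      · simp only [if_neg hodd]
        obtain ⟨k, rfl⟩ : ∃ k, t = 2 * k + 2 := ⟨t / 2 - 1, by omega⟩
        refine ⟨by omega, ?_, ?_⟩
        · show Y ((2 * k + 2 - 1 + 1) / 2) = Y ((2 * k + 2 + 1) / 2)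
          congr 1
          omega
        · intro g hg
          rcases C.Pv k (by omega) j with ⟨_, h3⟩ | ⟨h3, _⟩
          · exact (h3.symm (gen_sq ω j) g).2 hg
          · exact absurd h3 (ha1 j h)
    · refine val_inv hd y (gen ω j) (gen_sq ω j) (fun t => t) ?_ g
      intro t ht h0
      obtain ⟨h1, h2⟩ := hrange t ht h0
      refine ⟨ht, rfl, ?_⟩
      intro g hg
      by_cases hodd : t % 2 = 1
      · obtain ⟨k, rfl⟩ : ∃ k, t = 2 * k + 1 := ⟨t / 2, by omega⟩
        rcases C.Pv k (by omega) j with ⟨h3, _⟩ | ⟨_, h3, _⟩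
        · exact absurd h (ha1 j h3)
        · exact (h3 g).2 hg
      · obtain ⟨k, rfl⟩ : ∃ k, t = 2 * k + 2 := ⟨t / 2 - 1, by omega⟩
        rcases C.Pv k (by omega) j with ⟨h3, _⟩ | ⟨_, _, h3⟩
        · exact absurd h (ha1 j h3)
        · exact (h3 g).2 hg
  · intro g
    refine val_inv hd _ a a_sq (fun t => if t % 2 = 1 then t - 1 else t + 1) ?_ g
    intro t ht h0
    by_cases hodd : t % 2 = 1
    · simp only [if_pos hodd]
      obtain ⟨k, rfl⟩ : ∃ k, t = 2 * k + 1 := ⟨t / 2, by omega⟩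
      refine ⟨by omega, ?_, ?_⟩
      · have h1 : (2 * k + 1 - 1) / 2 = k := by omega
        have h2 : (2 * k + 1) / 2 = k := by omega
        show l * ((Y ((2 * k + 1 - 1) / 2) + Y ((2 * k + 1 - 1) / 2 + 1)) / 2) =
          l * ((Y ((2 * k + 1) / 2) + Y ((2 * k + 1) / 2 + 1)) / 2)
        rw [h1, h2]
      · intro g hg
        have h3 := (C.Pa k (by omega)).symm a_sq
        exact (h3 g).2 hg
    · simp only [if_neg hodd]
      obtain ⟨k, rfl⟩ : ∃ k, t = 2 * k := ⟨t / 2, by omega⟩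
      refine ⟨by omega, ?_, ?_⟩
      · have h1 : (2 * k) / 2 = k := by omega
        have h2 : (2 * k + 1) / 2 = k := by omega
        show l * ((Y ((2 * k + 1) / 2) + Y ((2 * k + 1) / 2 + 1)) / 2) =
          l * ((Y (2 * k / 2) + Y (2 * k / 2 + 1)) / 2)
        rw [h1, h2]
      · intro g hg
        exact (C.Pa k (by omega) g).2 hg
  · rw [val_sum hd _ _ p hcp]
  · rw [val_sum hd _ _ p hcp]
    have h1 : ∀ t ∈ Finset.range (2 * (4 * m)), l * x t * (l * x t) = l * l * (x t * x t) :=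
      fun t _ => by ring
    rw [Finset.sum_congr rfl h1, ← Finset.mul_sum, ← hA, hl2]
    field_simp
  · rw [huw]
    positivity
  · rw [huw]
    have h1 : (4 : ℝ) ^ r = (m : ℝ) ^ 2 := by
      rw [hm]
      push_cast
      rw [← pow_mul, mul_comm, pow_mul]
      norm_num
    have h2 : (1 - 1 / (2 * 4 ^ r)) * B ≤ A := by
      rw [h1]
      have h3 : 2 * (m : ℝ) ≤ 1 / (2 * (m : ℝ) ^ 2) * B := by
        rw [div_mul_eq_mul_div, one_mul, le_div_iff₀ (by positivity)]
        nlinarith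
      linarith
    calc (1 - 1 / (2 * 4 ^ r)) * (p * B) = p * ((1 - 1 / (2 * 4 ^ r)) * B) := by ring
      _ ≤ p * (l * A) := by
          refine mul_le_mul_of_nonneg_left ?_ hpR.le
          exact h2.trans (le_mul_of_one_le_left hApos.le hl1)
  · have h1 : ((Finset.range (2 * (4 * m))).biUnion P).card ≤ 2 * (4 * m) * p := by
      have h2 := Finset.card_biUnion_le_card_mul (Finset.range (2 * (4 * m))) P p
        (fun t ht => (hcp t (Finset.mem_range.1 ht)).le)
      rwa [Finset.card_range] at h2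
    have h3 : p ≤ 4 ^ 2 ^ (r + 3) := (Nat.le_mul_of_pos_right p C.qp).trans C.pq
    have h4 : 2 * (2 * (4 * m)) ≤ 2 ^ 2 ^ (r + 3) := by
      rw [← hL]
      calc 2 * 2 ^ (r + 3) = 2 ^ (r + 3 + 1) := (pow_succ' 2 (r + 3)).symm
        _ ≤ 2 ^ 2 ^ (r + 3) := Nat.pow_le_pow_right (by norm_num) (Nat.lt_two_pow_self)
    calc 2 * ((Finset.range (2 * (4 * m))).biUnion P).card ≤ 2 * (2 * (4 * m) * p) :=
          Nat.mul_le_mul_left 2 h1
      _ = 2 * (2 * (4 * m)) * p := by ring
      _ ≤ 2 ^ 2 ^ (r + 3) * 4 ^ 2 ^ (r + 3) := Nat.mul_le_mul h4 h3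
      _ = 8 ^ 2 ^ (r + 3) := by
          rw [← mul_pow]
          norm_num
      _ ≤ 10 ^ 2 ^ (r + 3) := Nat.pow_le_pow_left (by norm_num) _

end Pool.Agent.H361.FU
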