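import Pool.Agent.H361.FU.Amp

/-!
# Upper bounds for the Folner functions of the groups `G_ω`
-/

set_option autoImplicit false

namespace Pool.Agent.H361.FU

open Pool.Agent.Results.MP_0b0f5a_al.LowerBounds

theorem upper_pow (ω : ℕ → Fin 3) (k n : ℕ) (hn : 1 ≤ n) (h : 128 * n ^ 2 < 2 ^ k) :
    ∃ E : Set (G ω), E.Finite ∧ E.Nonempty ∧ IsFolner ω n E ∧ E.ncard ≤ 10 ^ 2 ^ k := by
  obtain ⟨T, u, w, R, D⟩ := exists_dat k ω (base (shk k ω))
  rw [mul_one] at D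
  refine D.folner (by positivity) n hn ?_
  have h1 : (128 : ℝ) * n ^ 2 < 2 ^ k := by exact_mod_cast h
  have h2 : (128 : ℝ) * (1 / 2 ^ k) * n ^ 2 = 128 * n ^ 2 / 2 ^ k := by ring
  rw [h2, div_lt_one (by positivity)]
  exact h1

/-- for all `ω` there are Folner sets with at most `10 ^ (256 n²)` elements -/
theorem upper_all (ω : ℕ → Fin 3) (n : ℕ) (hn : 1 ≤ n) :
    ∃ E : Set (G ω), E.Finite ∧ E.Nonempty ∧ IsFolner ω n E ∧ E.ncard ≤ 10 ^ (256 * n ^ 2) := by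
  obtain ⟨E, h1, h2, h3, h4⟩ := upper_pow ω (Nat.log 2 (128 * n ^ 2) + 1) n hn
    (Nat.lt_pow_succ_log_self (by norm_num) _)
  refine ⟨E, h1, h2, h3, h4.trans (Nat.pow_le_pow_right (by norm_num) ?_)⟩
  have h5 : 128 * n ^ 2 ≠ 0 := by positivity
  have h6 := Nat.pow_log_le_self 2 h5
  rw [pow_succ]
  omega

/-- better bounds from runs of equal letters -/
theorem upper_run (ω : ℕ → Fin 3) (k r n : ℕ) (hn : 1 ≤ n) (hr : ∀ m, m < r → ω (k + m) = ω k)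
    (h : 4096 * n ^ 2 < 2 ^ (k + 2 * r)) :
    ∃ E : Set (G ω), E.Finite ∧ E.Nonempty ∧ IsFolner ω n E ∧ E.ncard ≤ 10 ^ 2 ^ (k + r) := by
  by_cases h3 : 3 ≤ r
  · obtain ⟨r', rfl⟩ : ∃ r', r = r' + 3 := ⟨r - 3, by omega⟩
    obtain ⟨P, N, p, q, C⟩ := exists_cv (ω k) (r' + 3) (shk k ω) hr
    obtain ⟨T, u, w, R, D⟩ := exists_dat k ω C.dat
    rw [← pow_add] at D
    refine D.folner (by positivity) n hn ?_
    have h1 : 64 * n ^ 2 < 4 ^ r' * 2 ^ k := by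
      have h2 : 2 ^ (k + 2 * (r' + 3)) = 64 * (4 ^ r' * 2 ^ k) := by
        rw [pow_add, pow_mul, pow_add]
        norm_num
        ring
      omega
    have h1' : (64 : ℝ) * n ^ 2 < 4 ^ r' * 2 ^ k := by exact_mod_cast h1
    have h2 : (128 : ℝ) * (1 / (2 * 4 ^ r') / 2 ^ k) * n ^ 2 = 64 * n ^ 2 / (4 ^ r' * 2 ^ k) := by
      field_simp
      ring
    rw [h2, div_lt_one (by positivity)]
    exact h1'
  · refine upper_pow ω (k + r) n hn ?_
    have h1 : 2 ^ (k + 2 * r) ≤ 2 ^ (k + r) * 4 := by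
      calc 2 ^ (k + 2 * r) ≤ 2 ^ (k + r + 2) := Nat.pow_le_pow_right (by norm_num) (by omega)
        _ = 2 ^ (k + r) * 4 := by
          rw [pow_add _ (k + r) 2]
          norm_num
    omega

end Pool.Agent.H361.FU
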