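import Pool.Agent.H361.FU.Seq

/-!
# Comparison of the Folner functions of the groups `G_ω`
-/

set_option autoImplicit false

namespace Pool.Agent.H361.FU

open Pool.Agent.Results.MP_0b0f5a_al.LowerBounds

/-- the Folner function -/
noncomputable def fol (ω : ℕ → Fin 3) (n : ℕ) : ℕ :=
  sInf {m | ∃ E : Set (G ω), E.Finite ∧ E.Nonempty ∧ IsFolner ω n E ∧ E.ncard = m}

theorem fol_le {ω : ℕ → Fin 3} {n M : ℕ} (h : ∃ E : Set (G ω), E.Finite ∧ E.Nonempty ∧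
    IsFolner ω n E ∧ E.ncard ≤ M) : fol ω n ≤ M := by
  obtain ⟨E, h1, h2, h3, h4⟩ := h
  refine le_trans (Nat.sInf_le ?_) h4
  exact ⟨E, h1, h2, h3, rfl⟩

theorem fol_spec (ω : ℕ → Fin 3) (n : ℕ) (hn : 1 ≤ n) : ∃ E : Set (G ω), E.Finite ∧ E.Nonempty ∧
    IsFolner ω n E ∧ E.ncard = fol ω n := by
  obtain ⟨E, h1, h2, h3, _⟩ := upper_all ω n hn
  have h : ({m | ∃ E : Set (G ω), E.Finite ∧ E.Nonempty ∧ IsFolner ω n E ∧ E.ncard = m} :
      Set ℕ).Nonempty := ⟨E.ncard, E, h1, h2, h3, rfl⟩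
  exact Nat.sInf_mem h

/-- `f(n) ≤ c f'(c n)` for a constant `c` and all `n ≥ 1` -/
def Le (f f' : ℕ → ℕ) : Prop := ∃ c : ℕ, ∀ n, 1 ≤ n → f n ≤ c * f' (c * n)

theorem compare (g : ℕ → ℕ → ℕ) (hg : ∀ j p, 2 ^ (p + j + 14) ≤ g j p) (A A' : Set ℕ)
    (h : Le (fol (sq g A')) (fol (sq g A))) : (A \ A').Finite := by
  by_contra hinf
  obtain ⟨c, hc⟩ := h
  obtain ⟨q, t, hlow⟩ := lower_loc
  obtain ⟨s, hs⟩ : ∃ s : ℕ, c ≤ 2 ^ s := ⟨c, Nat.lt_two_pow_self.le⟩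
  obtain ⟨j, ⟨hjA, hjA'⟩, hj⟩ := (show (A \ A').Infinite from hinf).exists_gt (s + t + q)
  obtain ⟨κ, hκ⟩ := pl_even g j
  have hsucc := pl_succ g j
  rw [hκ] at hsucc
  have hgj := hg j (2 * κ)
  obtain ⟨r, hr⟩ : ∃ r, r = 2 * (g j (2 * κ) + 1) := ⟨_, rfl⟩
  rw [← hr] at hsucc
  -- `r` is large
  have hr1 : 2 ^ (κ + s + t + 13) + 2 ^ (κ + s + t + q + 13) ≤ r := by
    have h1 : 2 ^ (κ + s + t + 13) ≤ 2 ^ (κ + s + t + q + 13) :=
      Nat.pow_le_pow_right (by norm_num) (by omega)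
    have h2 : 2 ^ (κ + s + t + q + 13) + 2 ^ (κ + s + t + q + 13) = 2 ^ (κ + s + t + q + 14) := by
      rw [← two_mul, ← pow_succ']
    have h3 : 2 ^ (κ + s + t + q + 14) ≤ 2 ^ (2 * κ + j + 14) :=
      Nat.pow_le_pow_right (by norm_num) (by omega)
    omega
  have hr2 : 2 * q + κ + s + t + 20 ≤ 2 ^ (κ + s + t + q + 13) := by
    have h1 : κ + s + t + q < 2 ^ (κ + s + t + q) := Nat.lt_two_pow_self
    rw [pow_add]
    norm_num
    omega
  have hr3 : 0 < 2 ^ (κ + s + t + 13) := by positivity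
  obtain ⟨x, hx⟩ : ∃ x, r = x + (κ + 7 + s + t) := ⟨r - (κ + 7 + s + t), by omega⟩
  have hx1 : 2 * (2 * 2 ^ (κ + 11 + s + t) + q) + 2 ≤ x := by
    have h1 : 2 * (2 * 2 ^ (κ + 11 + s + t)) = 2 ^ (κ + s + t + 13) := by
      rw [← mul_assoc, show κ + s + t + 13 = 2 + (κ + 11 + s + t) from by ring, pow_add 2 2]
      norm_num
    omega
  -- the place `k = 2 κ + x`
  set k := 2 * κ + x with hk
  have hm1 : 1 ≤ 2 ^ (k + t) := Nat.one_le_two_pow
  have hlet : ∀ m, 2 * κ ≤ m → m < 2 * κ + r → sq g A' m = if Even m then 0 else 1 := by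
    intro m h1 h2
    exact sq_out hjA' (by rw [hκ]; exact h1) (by rw [hsucc]; exact h2)
  have hlow1 : 2 ^ (2 ^ (κ + 11 + s + t) * 2 ^ (k - 1)) ≤ fol (sq g A') (2 ^ (k + t)) := by
    obtain ⟨E, h1, h2, h3, h4⟩ := fol_spec (sq g A') (2 ^ (k + t)) hm1
    rw [← h4]
    refine hlow (sq g A') k (2 ^ (κ + 11 + s + t)) (2 ^ (k + t)) (by omega) ?_ ?_ le_rfl E h1 h2 h3
    · rw [hlet k (by omega) (by omega), hlet (k + 1) (by omega) (by omega)]
      by_cases h5 : Even k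
      · have h6 : ¬ Even (k + 1) := by
          rw [Nat.not_even_iff_odd]
          exact h5.add_one
        rw [if_pos h5, if_neg h6]
        decide
      · have h6 : Even (k + 1) := (Nat.not_even_iff_odd.1 h5).add_one
        rw [if_neg h5, if_pos h6]
        decide
    · have h5 : sq g A' (k + 1) = 0 ∨ sq g A' (k + 1) = 1 := by
        rw [hlet (k + 1) (by omega) (by omega)]
        by_cases h6 : Even (k + 1)
        · exact Or.inl (if_pos h6)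
        · exact Or.inr (if_neg h6)
      have h6 := count_alt (b := 2 * κ + r) hlet _ h5 (x / 2) (by omega)
      have h7 := Nat.count_monotone (fun i => sq g A' i = sq g A' (k + 1))
        (show 2 * κ + 2 * (x / 2) ≤ k by omega)
      omega
  have hup := hc (2 ^ (k + t)) hm1
  have hc0 : 0 < c := by
    rcases Nat.eq_zero_or_pos c with h0 | h0
    · rw [h0, zero_mul] at hup
      have : 0 < 2 ^ (2 ^ (κ + 11 + s + t) * 2 ^ (k - 1)) := by positivity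
      omega
    · exact h0
  have hcm : c * 2 ^ (k + t) ≤ 2 ^ (κ + r - 7) := by
    calc c * 2 ^ (k + t) ≤ 2 ^ s * 2 ^ (k + t) := Nat.mul_le_mul_right _ hs
      _ = 2 ^ (κ + r - 7) := by
          rw [← pow_add]
          congr 1
          omega
  have hup1 : fol (sq g A) (c * 2 ^ (k + t)) ≤ 10 ^ 2 ^ (2 * κ + r) := by
    refine fol_le (upper_run (sq g A) (2 * κ) r _ (Nat.mul_pos hc0 hm1) ?_ ?_)
    · intro m hm
      rw [sq_in hjA (by rw [hκ]; omega) (by rw [hsucc]; omega),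
        sq_in hjA (by rw [hκ]) (by rw [hsucc]; omega)]
    · calc 4096 * (c * 2 ^ (k + t)) ^ 2 ≤ 4096 * (2 ^ (κ + r - 7)) ^ 2 := by gcongr
        _ = 2 ^ (12 + 2 * (κ + r - 7)) := by
            rw [← pow_mul, pow_add, mul_comm 2]
            norm_num
        _ < 2 ^ (2 * κ + 2 * r) := Nat.pow_lt_pow_right (by norm_num) (by omega)
  have hfin : 2 ^ (2 ^ (κ + 11 + s + t) * 2 ^ (k - 1)) ≤ 2 ^ (s + 2 ^ (2 * κ + r + 2)) := by
    calc 2 ^ (2 ^ (κ + 11 + s + t) * 2 ^ (k - 1)) ≤ c * fol (sq g A) (c * 2 ^ (k + t)) :=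
          hlow1.trans hup
      _ ≤ 2 ^ s * 10 ^ 2 ^ (2 * κ + r) := Nat.mul_le_mul hs hup1
      _ ≤ 2 ^ s * (2 ^ 4) ^ 2 ^ (2 * κ + r) :=
          Nat.mul_le_mul_left _ (Nat.pow_le_pow_left (by norm_num) _)
      _ = 2 ^ (s + 2 ^ (2 * κ + r + 2)) := by
          rw [← pow_mul, ← pow_add, pow_add 2 (2 * κ + r) 2, mul_comm 4]
          norm_num
  have hexp := (Nat.pow_le_pow_iff_right (by norm_num : 1 < 2)).1 hfin
  have h1 : 2 ^ (κ + 11 + s + t) * 2 ^ (k - 1) = 2 * 2 ^ (2 * κ + r + 2) := by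
    rw [← pow_add, ← pow_succ']
    congr 1
    omega
  have h2 : s < 2 ^ (2 * κ + r + 2) :=
    lt_of_lt_of_le Nat.lt_two_pow_self (Nat.pow_le_pow_right (by norm_num) (by omega))
  omega

end Pool.Agent.H361.FU
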