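import Pool.Agent.H361.FU.Tr

/-!
# Generic ergodicity of the relation `f_ω ∼ f_ω'`
-/

set_option autoImplicit false

namespace Pool.Agent.H361.FU

open Pool.Agent.Results.MP_0b0f5a_al.LowerBounds Filter Topology

theorem Xi_nc {ω : ℕ → Fin 3} (h : Xi ω) : Nc ω := by
  obtain ⟨i, j, hij, hi, hj⟩ := h
  intro e N
  by_cases he : i = e
  · obtain ⟨n, hn, h1⟩ := hj N
    exact ⟨n, hn, fun h2 => hij (by rw [he, ← h2, h1])⟩
  · obtain ⟨n, hn, h1⟩ := hi N
    exact ⟨n, hn, fun h2 => he (by rw [← h2, h1])⟩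

theorem Xi_tail {ω ω' : ℕ → Fin 3} (h : Xi ω) (K : ℕ) (hK : ∀ n, K ≤ n → ω n = ω' n) : Xi ω' := by
  obtain ⟨i, j, hij, hi, hj⟩ := h
  refine ⟨i, j, hij, fun N => ?_, fun N => ?_⟩
  · obtain ⟨n, hn, h1⟩ := hi (max N K)
    exact ⟨n, (le_max_left _ _).trans hn, by rw [← hK n ((le_max_right _ _).trans hn), h1]⟩
  · obtain ⟨n, hn, h1⟩ := hj (max N K)
    exact ⟨n, (le_max_left _ _).trans hn, by rw [← hK n ((le_max_right _ _).trans hn), h1]⟩

theorem eqv_tail {ω ω' : ℕ → Fin 3} (h : Xi ω) (K : ℕ) (hK : ∀ n, K ≤ n → ω n = ω' n) :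
    Le (fol ω) (fol ω') ∧ Le (fol ω') (fol ω) :=
  ⟨fol_tail K ω' ω (Xi_nc (Xi_tail h K hK)) fun n hn => (hK n hn).symm, fol_tail K ω ω' (Xi_nc h) hK⟩

/-- overwriting the beginning -/
def ow (y : ℕ → Fin 3) (n : ℕ) (z : ℕ → Fin 3) : ℕ → Fin 3 := fun i => if i < n then y i else z i

theorem ow_cont (y : ℕ → Fin 3) (n : ℕ) : Continuous (ow y n) := by
  refine continuous_pi fun i => ?_
  by_cases h : i < n
  · have h1 : (fun z => ow y n z i) = fun _ => y i := funext fun z => if_pos h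
    rw [h1]
    exact continuous_const
  · have h1 : (fun z => ow y n z i) = fun z => z i := funext fun z => if_neg h
    rw [h1]
    exact continuous_apply i

theorem ow_open (y : ℕ → Fin 3) (n : ℕ) : IsOpenMap (ow y n) := by
  rw [(PiNat.isTopologicalBasis_cylinders (fun _ : ℕ => Fin 3)).isOpenMap_iff]
  rintro _ ⟨x, m, rfl⟩
  have h1 : ow y n '' PiNat.cylinder x m =
      PiNat.cylinder (fun i => if i < n then y i else x i) (max n m) := by
    ext w
    constructor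
    · rintro ⟨z, hz, rfl⟩ i hi
      show (if i < n then y i else z i) = if i < n then y i else x i
      by_cases h : i < n
      · rw [if_pos h, if_pos h]
      · rw [if_neg h, if_neg h]
        refine hz i ?_
        rcases lt_max_iff.1 hi with h2 | h2
        · exact absurd h2 h
        · exact h2
    · intro hw
      refine ⟨fun i => if i < m then x i else w i, fun i hi => if_pos hi, ?_⟩
      funext i
      show (if i < n then y i else if i < m then x i else w i) = w i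
      by_cases h : i < n
      · have h2 := hw i (lt_max_of_lt_left h)
        rw [if_pos h, h2]
        exact (if_pos h).symm
      · rw [if_neg h]
        by_cases h3 : i < m
        · have h2 := hw i (lt_max_of_lt_right h3)
          rw [if_pos h3, h2]
          exact (if_neg h).symm
        · rw [if_neg h3]
  rw [h1]
  exact PiNat.isOpen_cylinder _ _ _

theorem ow_tail (y : ℕ → Fin 3) (n : ℕ) (z : ℕ → Fin 3) (i : ℕ) (hi : n ≤ i) : z i = ow y n z i :=
  (if_neg (not_lt.2 hi)).symm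

theorem gen_Xi : ∀ᶠ ω in residual (ℕ → Fin 3), Xi ω := by
  obtain ⟨c, _, h⟩ := gen_osc
  filter_upwards [h (fun n => (n : ℝ)) tendsto_natCast_atTop_atTop] with ω hω
  exact hω.1

/-- the topological zero-one law -/
theorem zero_one (A : Set (ℕ → Fin 3)) (hA : BaireMeasurableSet A)
    (hinv : ∀ ω ω' : ℕ → Fin 3, Xi ω → (∃ K, ∀ n, K ≤ n → ω n = ω' n) → (ω ∈ A ↔ ω' ∈ A)) :
    (∀ᶠ ω in residual (ℕ → Fin 3), ω ∈ A) ∨ ∀ᶠ ω in residual (ℕ → Fin 3), ω ∉ A := by
  obtain ⟨u, hu, hAu⟩ := hA.residualEq_isOpen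
  by_cases hne : u.Nonempty
  · left
    obtain ⟨y, n, hy⟩ := exists_cyl u hu hne
    have h1 : ∀ᶠ z in residual (ℕ → Fin 3), z ∈ u → z ∈ A := by
      filter_upwards [hAu] with z hz hzu
      have h2 : A z = u z := hz
      show A z
      rw [h2]
      exact hzu
    have h2 := (tendsto_residual_of_isOpenMap (ow_cont y n) (ow_open y n)).eventually h1
    filter_upwards [h2, gen_Xi] with z hz hXi
    have h3 : ow y n z ∈ u := hy _ fun i hi => if_pos hi
    exact (hinv z (ow y n z) hXi ⟨n, fun i hi => ow_tail y n z i hi⟩).2 (hz h3)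
  · right
    rw [Set.not_nonempty_iff_eq_empty] at hne
    filter_upwards [hAu] with z hz hzA
    have h2 : A z = u z := hz
    have h3 : u z := by
      rw [← h2]
      exact hzA
    rw [hne] at h3
    exact h3

/-- generic ergodicity -/
theorem gen_erg {Y : Type*} [TopologicalSpace Y] [SecondCountableTopology Y] [T0Space Y]
    (Θ : (ℕ → Fin 3) → Y) (hΘ : ∀ U : Set Y, IsOpen U → BaireMeasurableSet (Θ ⁻¹' U))
    (hinv : ∀ ω ω' : ℕ → Fin 3, Xi ω → Xi ω' → Le (fol ω) (fol ω') ∧ Le (fol ω') (fol ω) →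
      Θ ω = Θ ω') : ∃ y, ∀ᶠ ω in residual (ℕ → Fin 3), Θ ω = y := by
  have h1 : ∀ U : TopologicalSpace.countableBasis Y,
      (∀ᶠ ω in residual (ℕ → Fin 3), ω ∈ Θ ⁻¹' (U : Set Y)) ∨
        ∀ᶠ ω in residual (ℕ → Fin 3), ω ∉ Θ ⁻¹' (U : Set Y) := by
    intro U
    refine zero_one _ (hΘ _ ((TopologicalSpace.isBasis_countableBasis Y).isOpen U.2)) ?_
    rintro ω ω' hω ⟨K, hK⟩
    have h2 := hinv ω ω' hω (Xi_tail hω K hK) (eqv_tail hω K hK)
    show Θ ω ∈ (U : Set Y) ↔ Θ ω' ∈ (U : Set Y)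
    rw [h2]
  have h2 : ∀ᶠ ω in residual (ℕ → Fin 3), ∀ U : TopologicalSpace.countableBasis Y,
      (Θ ω ∈ (U : Set Y) ↔ ∀ᶠ ω' in residual (ℕ → Fin 3), Θ ω' ∈ (U : Set Y)) := by
    rw [eventually_countable_forall]
    intro U
    rcases h1 U with h3 | h3
    · filter_upwards [h3] with ω hω
      exact ⟨fun _ => h3, fun _ => hω⟩
    · filter_upwards [h3] with ω hω
      refine ⟨fun h4 => absurd h4 hω, fun h4 => ?_⟩
      have h5 : ∀ᶠ ω in residual (ℕ → Fin 3), False := by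
        filter_upwards [h3, h4] with z hz1 hz2
        exact hz1 hz2
      have h6 : Dense {z : ℕ → Fin 3 | False} := dense_of_mem_residual h5
      obtain ⟨z, hz⟩ := h6.nonempty
      exact hz.elim
  have h6 : Dense {ω : ℕ → Fin 3 | ∀ U : TopologicalSpace.countableBasis Y,
      (Θ ω ∈ (U : Set Y) ↔ ∀ᶠ ω' in residual (ℕ → Fin 3), Θ ω' ∈ (U : Set Y))} :=
    dense_of_mem_residual h2
  obtain ⟨ω0, h0⟩ := h6.nonempty
  refine ⟨Θ ω0, ?_⟩
  filter_upwards [h2] with ω hω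
  apply Inseparable.eq
  rw [inseparable_iff_forall_isOpen]
  have key : ∀ x y : Y, (∀ U : TopologicalSpace.countableBasis Y, x ∈ (U : Set Y) ↔ y ∈ (U : Set Y)) →
      ∀ s : Set Y, IsOpen s → x ∈ s → y ∈ s := by
    intro x y hxy s hs hx
    obtain ⟨v, hv, hxv, hvs⟩ :=
      (TopologicalSpace.isBasis_countableBasis Y).exists_subset_of_mem_open hx hs
    exact hvs ((hxy ⟨v, hv⟩).1 hxv)
  intro s hs
  exact ⟨key _ _ (fun U => (hω U).trans (h0 U).symm) s hs,
    key _ _ (fun U => (h0 U).trans (hω U).symm) s hs⟩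

/-- no complete invariants -/
theorem no_class {Y : Type*} [TopologicalSpace Y] [SecondCountableTopology Y] [T0Space Y]
    (Θ : (ℕ → Fin 3) → Y) (hΘ : ∀ U : Set Y, IsOpen U → BaireMeasurableSet (Θ ⁻¹' U))
    (hinv : ∀ ω ω' : ℕ → Fin 3, Xi ω → Xi ω' → Le (fol ω) (fol ω') ∧ Le (fol ω') (fol ω) →
      Θ ω = Θ ω') : ∀ᶠ p in residual ((ℕ → Fin 3) × (ℕ → Fin 3)),
      Xi p.1 ∧ Xi p.2 ∧ Θ p.1 = Θ p.2 ∧ ¬ Le (fol p.1) (fol p.2) ∧ ¬ Le (fol p.2) (fol p.1) := by
  obtain ⟨y, hy⟩ := gen_erg Θ hΘ hinv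
  have h1 := (tendsto_residual_of_isOpenMap (α := (ℕ → Fin 3) × (ℕ → Fin 3))
    continuous_fst isOpenMap_fst).eventually (hy.and gen_Xi)
  have h2 := (tendsto_residual_of_isOpenMap (α := (ℕ → Fin 3) × (ℕ → Fin 3))
    continuous_snd isOpenMap_snd).eventually (hy.and gen_Xi)
  filter_upwards [h1, h2, gen_pair] with p hp1 hp2 hp3
  exact ⟨hp1.2, hp2.2, hp1.1.trans hp2.1.symm, hp3.1, hp3.2⟩

end Pool.Agent.H361.FU
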