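import Pool.Agent.H361.FU.Cmp

/-!
# A family of sequences with incomparable Folner functions
-/

set_option autoImplicit false

namespace Pool.Agent.H361.FU

open Pool.Agent.Results.MP_0b0f5a_al.LowerBounds

/-- the codes of the finite beginnings of `x` -/
def Ax (x : ℕ → Bool) : Set ℕ := {a | ∃ n, a = Encodable.encode ((List.range n).map x)}

theorem Ax_diff {x y : ℕ → Bool} (h : x ≠ y) : (Ax x \ Ax y).Infinite := by
  obtain ⟨i, hi⟩ : ∃ i, x i ≠ y i := by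
    by_contra hc
    push Not at hc
    exact h (funext hc)
  refine Set.infinite_of_injective_forall_mem
    (f := fun n : ℕ => Encodable.encode ((List.range (i + 1 + n)).map x)) ?_ ?_
  · intro n m hnm
    have h1 := congrArg List.length (Encodable.encode_injective hnm)
    rw [List.length_map, List.length_map, List.length_range, List.length_range] at h1
    omega
  · intro n
    refine ⟨⟨_, rfl⟩, ?_⟩
    rintro ⟨m, hm⟩
    have h0 := Encodable.encode_injective hm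
    have h1 := congrArg List.length h0
    rw [List.length_map, List.length_map, List.length_range, List.length_range] at h1
    subst h1
    exact hi (List.map_inj_left.1 h0 i (List.mem_range.2 (by omega)))

theorem Ax_infinite (x : ℕ → Bool) : (Ax x).Infinite := by
  have h : x ≠ fun n => !x n := by
    intro h
    have := congrFun h 0
    cases h1 : x 0 <;> simp [h1] at this
  exact (Ax_diff h).mono Set.sdiff_subset

theorem Ax_compl (x : ℕ → Bool) : (Ax x)ᶜ.Infinite := by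
  have h : (fun n => !x n) ≠ x := by
    intro h
    have := congrFun h 0
    cases h1 : x 0 <;> simp [h1] at this
  exact (Ax_diff h).mono fun a ha => ha.2

theorem small (g : ℕ → ℕ → ℕ) (φ : ℕ → ℝ) (hg : ∀ j p, 2 ^ (p + j + 14) ≤ g j p)
    (hφ : ∀ j p n, g j p ≤ n → (2 : ℝ) ^ (p + 9) ≤ φ n) (A : Set ℕ) (hA : A.Infinite) (N : ℕ) :
    ∃ n, N ≤ n ∧ (fol (sq g A) n : ℝ) ≤ Real.exp (n * φ n) := by
  obtain ⟨j, hjA, hj⟩ := hA.exists_gt N
  obtain ⟨κ, hκ⟩ := pl_even g j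
  have hsucc := pl_succ g j
  rw [hκ] at hsucc
  have hgj := hg j (2 * κ)
  have hgφ := hφ j (2 * κ)
  obtain ⟨G0, hG0⟩ : ∃ G0, G0 = g j (2 * κ) := ⟨_, rfl⟩
  rw [← hG0] at hsucc hgj hgφ
  obtain ⟨r, hr⟩ : ∃ r, r = 2 * (G0 + 1) := ⟨_, rfl⟩
  rw [← hr] at hsucc
  have h14 : j + 14 ≤ G0 := by
    have h1 : 2 * κ + j + 14 < 2 ^ (2 * κ + j + 14) := Nat.lt_two_pow_self
    omega
  have hn : κ + r - 7 < 2 ^ (κ + r - 7) := Nat.lt_two_pow_self
  refine ⟨2 ^ (κ + r - 7), by omega, ?_⟩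
  have hup1 : fol (sq g A) (2 ^ (κ + r - 7)) ≤ 10 ^ 2 ^ (2 * κ + r) := by
    refine fol_le (upper_run (sq g A) (2 * κ) r _ Nat.one_le_two_pow ?_ ?_)
    · intro m hm
      rw [sq_in hjA (by rw [hκ]; omega) (by rw [hsucc]; omega),
        sq_in hjA (by rw [hκ]) (by rw [hsucc]; omega)]
    · calc 4096 * (2 ^ (κ + r - 7)) ^ 2 = 2 ^ (12 + 2 * (κ + r - 7)) := by
            rw [← pow_mul, pow_add, mul_comm 2]
            norm_num
        _ < 2 ^ (2 * κ + 2 * r) := Nat.pow_lt_pow_right (by norm_num) (by omega)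
  have h2 := hgφ (2 ^ (κ + r - 7)) (by omega)
  have h3 : (10 : ℝ) ≤ Real.exp 4 := by
    have h4 : Real.exp 4 = Real.exp 1 ^ 4 := by
      rw [← Real.exp_nat_mul]
      norm_num
    have h5 : (2 : ℝ) ≤ Real.exp 1 := by
      have := Real.add_one_le_exp (1 : ℝ)
      linarith
    rw [h4]
    calc (10 : ℝ) ≤ 2 ^ 4 := by norm_num
      _ ≤ Real.exp 1 ^ 4 := by gcongr
  calc (fol (sq g A) (2 ^ (κ + r - 7)) : ℝ) ≤ 10 ^ 2 ^ (2 * κ + r) := by exact_mod_cast hup1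
    _ ≤ Real.exp 4 ^ 2 ^ (2 * κ + r) := by gcongr
    _ = Real.exp (2 ^ (2 * κ + r) * 4) := by
        rw [← Real.exp_nat_mul]
        push_cast
        rfl
    _ ≤ _ := by
        apply Real.exp_le_exp.2
        push_cast
        calc (2 : ℝ) ^ (2 * κ + r) * 4 = 2 ^ (2 * κ + r + 2) := by
              rw [pow_add 2 (2 * κ + r) 2]
              norm_num
          _ ≤ 2 ^ (κ + r - 7 + (2 * κ + 9)) := pow_le_pow_right₀ (by norm_num) (by omega)
          _ = 2 ^ (κ + r - 7) * 2 ^ (2 * κ + 9) := pow_add _ _ _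
          _ ≤ 2 ^ (κ + r - 7) * φ (2 ^ (κ + r - 7)) := by gcongr

theorem large : ∃ c : ℝ, 0 < c ∧ ∀ (g : ℕ → ℕ → ℕ), (∀ j p, 2 ^ (p + j + 14) ≤ g j p) →
    ∀ A : Set ℕ, Aᶜ.Infinite → ∀ N : ℕ,
    ∃ n, N ≤ n ∧ Real.exp (c * (n * Real.log n)) ≤ fol (sq g A) n := by
  obtain ⟨q, t, hlow⟩ := lower_loc
  refine ⟨1 / (12 * 2 ^ (t + 1)), by positivity, fun g hg A hA N => ?_⟩
  obtain ⟨j, hjA, hj⟩ := hA.exists_gt (N + q + t)
  obtain ⟨κ, hκ⟩ := pl_even g j
  have hsucc := pl_succ g j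
  rw [hκ] at hsucc
  have hgj := hg j (2 * κ)
  obtain ⟨G0, hG0⟩ : ∃ G0, G0 = g j (2 * κ) := ⟨_, rfl⟩
  rw [← hG0] at hsucc hgj
  have h14 : 2 * (2 * κ + j + 13) ≤ G0 := by
    have h1 : 2 * κ + j + 13 < 2 ^ (2 * κ + j + 13) := Nat.lt_two_pow_self
    have h2 : 2 ^ (2 * κ + j + 14) = 2 * 2 ^ (2 * κ + j + 13) := pow_succ' _ _
    omega
  set k := 2 * κ + 2 * G0 with hk
  have hm1 : 1 ≤ 2 ^ (k + t) := Nat.one_le_two_pow
  have hmk : k + t < 2 ^ (k + t) := Nat.lt_two_pow_self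
  have hlet : ∀ m, 2 * κ ≤ m → m < 2 * κ + 2 * (G0 + 1) → sq g A m = if Even m then 0 else 1 := by
    intro m h1 h2
    exact sq_out hjA (by rw [hκ]; exact h1) (by rw [hsucc]; exact h2)
  have hlow1 : 2 ^ ((G0 - q) / 2 * 2 ^ (k - 1)) ≤ fol (sq g A) (2 ^ (k + t)) := by
    obtain ⟨E, h1, h2, h3, h4⟩ := fol_spec (sq g A) (2 ^ (k + t)) hm1
    rw [← h4]
    refine hlow (sq g A) k ((G0 - q) / 2) (2 ^ (k + t)) (by omega) ?_ ?_ le_rfl E h1 h2 h3
    · rw [hlet k (by omega) (by omega), hlet (k + 1) (by omega) (by omega)]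
      by_cases h5 : Even k
      · have h6 : ¬ Even (k + 1) := by
          rw [Nat.not_even_iff_odd]
          exact h5.add_one
        rw [if_pos h5, if_neg h6]
        decide
      · have h6 : Even (k + 1) := (Nat.not_even_iff_odd.1 h5).add_one
        rw [if_neg h5, if_pos h6]
        decide
    · have h5 : sq g A (k + 1) = 0 ∨ sq g A (k + 1) = 1 := by
        rw [hlet (k + 1) (by omega) (by omega)]
        by_cases h6 : Even (k + 1)
        · exact Or.inl (if_pos h6)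
        · exact Or.inr (if_neg h6)
      have h6 := count_alt (b := 2 * κ + 2 * (G0 + 1)) hlet _ h5 G0 (by omega)
      rw [← hk] at h6
      omega
  refine ⟨2 ^ (k + t), by omega, ?_⟩
  have h1 : ((2 ^ ((G0 - q) / 2 * 2 ^ (k - 1)) : ℕ) : ℝ) ≤ fol (sq g A) (2 ^ (k + t)) := by
    exact_mod_cast hlow1
  refine le_trans ?_ h1
  have hlog : Real.log ((2 ^ (k + t) : ℕ) : ℝ) = ((k + t : ℕ) : ℝ) * Real.log 2 := by
    push_cast
    rw [Real.log_pow]
    push_cast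
    ring
  have hk2 : (2 : ℝ) ^ k = 2 * 2 ^ (k - 1) := by
    rw [← pow_succ', Nat.sub_add_cancel (by omega)]
  have hexp : ((2 ^ ((G0 - q) / 2 * 2 ^ (k - 1)) : ℕ) : ℝ) =
      Real.exp (((G0 - q) / 2 * 2 ^ (k - 1) : ℕ) * Real.log 2) := by
    rw [Real.exp_nat_mul, Real.exp_log (by norm_num)]
    push_cast
    rfl
  rw [hexp, hlog]
  apply Real.exp_le_exp.2
  have h2 : k + t ≤ 12 * ((G0 - q) / 2) := by omega
  have h2' : ((k + t : ℕ) : ℝ) ≤ 12 * (((G0 - q) / 2 : ℕ) : ℝ) := by exact_mod_cast h2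
  have hl2 : 0 ≤ Real.log 2 := by positivity
  have h3 : 1 / (12 * 2 ^ (t + 1)) * (((2 ^ (k + t) : ℕ) : ℝ) * (((k + t : ℕ) : ℝ) * Real.log 2)) =
      ((k + t : ℕ) : ℝ) / 12 * 2 ^ (k - 1) * Real.log 2 := by
    rw [Nat.cast_pow, Nat.cast_ofNat, pow_add 2 k t, hk2, pow_succ]
    field_simp
  rw [h3, Nat.cast_mul, Nat.cast_pow, Nat.cast_ofNat]
  apply mul_le_mul_of_nonneg_right _ hl2
  apply mul_le_mul_of_nonneg_right _ (by positivity)
  linarith

theorem exists_g (φ : ℕ → ℝ) (hφ : Filter.Tendsto φ Filter.atTop Filter.atTop) :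
    ∃ g : ℕ → ℕ → ℕ, (∀ j p, 2 ^ (p + j + 14) ≤ g j p) ∧
      ∀ j p n, g j p ≤ n → (2 : ℝ) ^ (p + 9) ≤ φ n := by
  have h : ∀ p : ℕ, ∃ N : ℕ, ∀ n ≥ N, (2 : ℝ) ^ (p + 9) ≤ φ n := fun p =>
    Filter.eventually_atTop.1 (hφ.eventually_ge_atTop _)
  choose N hN using h
  refine ⟨fun j p => max (2 ^ (p + j + 14)) (N p), fun j p => le_max_left _ _, fun j p n hn => ?_⟩
  exact hN p n ((le_max_right _ _).trans hn)

end Pool.Agent.H361.FU
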