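import Pool.Agent.H361.FU.Rec

/-!
# From almost invariant functions to Folner sets
-/

set_option autoImplicit false

namespace Pool.Agent.H361.FU

open Pool.Agent.Results.MP_0b0f5a_al.LowerBounds

theorem gen01 (ω : ℕ → Fin 3) : gen ω 0 * gen ω 1 = gen ω 2 := by
  ext1 v
  change bcd 0 (bcd 1 v ω) ω = bcd 2 v ω
  induction v generalizing ω with
  | nil => rfl
  | cons x v ih =>
    cases x
    · change false :: bzd 0 (ω 0) (bzd 1 (ω 0) v) = false :: bzd 2 (ω 0) v
      generalize ω 0 = i
      congr 1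
      fin_cases i
      · exact aMap_invol v
      · rfl
      · rfl
    · change true :: bcd 0 (bcd 1 v _) _ = true :: bcd 2 v _
      rw [ih]

theorem gen10 (ω : ℕ → Fin 3) : gen ω 1 * gen ω 0 = gen ω 2 := by
  have h := congrArg (fun x => x⁻¹) (gen01 ω)
  simp only [mul_inv_rev] at h
  have h0 := inv_eq_of_mul_eq_one_right (gen_sq ω 0)
  have h1 := inv_eq_of_mul_eq_one_right (gen_sq ω 1)
  have h2 := inv_eq_of_mul_eq_one_right (gen_sq ω 2)
  rwa [h0, h1, h2] at h

open Classical in
/-- the group of order at most four -/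
noncomputable def Vs (ω : ℕ → Fin 3) : Finset Pm := {1, gen ω 0, gen ω 1, gen ω 2}

theorem mem_Vs (ω : ℕ → Fin 3) (g : Pm) :
    g ∈ Vs ω ↔ g = 1 ∨ g = gen ω 0 ∨ g = gen ω 1 ∨ g = gen ω 2 := by
  simp [Vs]

theorem Vs_mul (ω : ℕ → Fin 3) (j : Fin 3) (g : Pm) (hg : g ∈ Vs ω) : gen ω j * g ∈ Vs ω := by
  have h01 := gen01 ω
  have h10 := gen10 ω
  have h0 := gen_sq ω 0
  have h1 := gen_sq ω 1
  have h2 := gen_sq ω 2
  have h02 : gen ω 0 * gen ω 2 = gen ω 1 := by rw [← h01, ← mul_assoc, h0, one_mul]
  have h12 : gen ω 1 * gen ω 2 = gen ω 0 := by rw [← h10, ← mul_assoc, h1, one_mul]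
  have h20 : gen ω 2 * gen ω 0 = gen ω 1 := by rw [← h10, mul_assoc, h0, mul_one]
  have h21 : gen ω 2 * gen ω 1 = gen ω 0 := by rw [← h01, mul_assoc, h1, mul_one]
  rw [mem_Vs] at hg ⊢
  fin_cases j
  · show gen ω 0 * g = 1 ∨ gen ω 0 * g = gen ω 0 ∨ gen ω 0 * g = gen ω 1 ∨ gen ω 0 * g = gen ω 2
    rcases hg with rfl | rfl | rfl | rfl
    · exact Or.inr (Or.inl (mul_one _))
    · exact Or.inl h0
    · exact Or.inr (Or.inr (Or.inr h01))
    · exact Or.inr (Or.inr (Or.inl h02))
  · show gen ω 1 * g = 1 ∨ gen ω 1 * g = gen ω 0 ∨ gen ω 1 * g = gen ω 1 ∨ gen ω 1 * g = gen ω 2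
    rcases hg with rfl | rfl | rfl | rfl
    · exact Or.inr (Or.inr (Or.inl (mul_one _)))
    · exact Or.inr (Or.inr (Or.inr h10))
    · exact Or.inl h1
    · exact Or.inr (Or.inl h12)
  · show gen ω 2 * g = 1 ∨ gen ω 2 * g = gen ω 0 ∨ gen ω 2 * g = gen ω 1 ∨ gen ω 2 * g = gen ω 2
    rcases hg with rfl | rfl | rfl | rfl
    · exact Or.inr (Or.inr (Or.inr (mul_one _)))
    · exact Or.inr (Or.inr (Or.inl h20))
    · exact Or.inr (Or.inl h21)
    · exact Or.inl h2

open Classical in
theorem base (ω : ℕ → Fin 3) : ∃ (T : Finset Pm) (u w : Pm → ℝ) (R : ℝ), Dat ω 1 1 T u w R := by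
  set T : Finset Pm := {a, 1, gen ω 0, gen ω 1, gen ω 2} with hT
  set Aa : Finset Pm := {1, a} with hA
  have hVT : Vs ω ⊆ T := by
    intro g hg
    rw [mem_Vs] at hg
    rw [hT]
    simp only [Finset.mem_insert, Finset.mem_singleton]
    tauto
  have hAT : Aa ⊆ T := by
    intro g hg
    rw [hA] at hg
    rw [hT]
    simp only [Finset.mem_insert, Finset.mem_singleton] at hg ⊢
    tauto
  have hr : 0 < ((Vs ω).card : ℝ) := by
    have : 0 < (Vs ω).card := Finset.card_pos.2 ⟨1, (mem_Vs ω 1).2 (Or.inl rfl)⟩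
    exact_mod_cast this
  have hm : 0 < (Aa.card : ℝ) := by
    have : 0 < Aa.card := Finset.card_pos.2 ⟨1, by rw [hA]; exact Finset.mem_insert_self _ _⟩
    exact_mod_cast this
  have h1A : ∀ g : Pm, a * g ∈ Aa ↔ g ∈ Aa := by
    have h1 : ∀ g : Pm, g ∈ Aa → a * g ∈ Aa := by
      intro g hg
      rw [hA, Finset.mem_insert, Finset.mem_singleton] at hg ⊢
      rcases hg with rfl | rfl
      · exact Or.inr (mul_one _)
      · exact Or.inl a_sq
    intro g
    refine ⟨fun h => ?_, h1 g⟩
    have h2 := h1 _ h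
    rwa [← mul_assoc, a_sq, one_mul] at h2
  have h1V : ∀ j (g : Pm), gen ω j * g ∈ Vs ω ↔ g ∈ Vs ω := by
    intro j g
    refine ⟨fun h => ?_, Vs_mul ω j g⟩
    have h2 := Vs_mul ω j _ h
    rwa [← mul_assoc, gen_sq, one_mul] at h2
  set l : ℝ := Real.sqrt ((Vs ω).card / Aa.card) with hl
  have hl2 : l * l = (Vs ω).card / Aa.card := Real.mul_self_sqrt (by positivity)
  refine ⟨T, fun g => if g ∈ Vs ω then 1 else 0, fun g => if g ∈ Aa then l else 0, (Vs ω).card, ?_⟩
  have hc : 0 ≤ ∑ g ∈ T, (if g ∈ Vs ω then (1 : ℝ) else 0) * (if g ∈ Aa then l else 0) := by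
    refine Finset.sum_nonneg fun g _ => ?_
    have : 0 ≤ l := Real.sqrt_nonneg _
    split_ifs <;> simp [this]
  constructor
  · exact hr
  · intro g hg
    exact if_neg fun h => hg (hVT h)
  · intro g hg
    exact if_neg fun h => hg (hAT h)
  · intro j g
    simp only [h1V]
  · intro g
    simp only [h1A]
  · have h1 : ∀ g ∈ T, (if g ∈ Vs ω then (1 : ℝ) else 0) * (if g ∈ Vs ω then (1 : ℝ) else 0) =
        if g ∈ Vs ω then 1 else 0 := by
      intro g _
      split_ifs <;> norm_num
    rw [Finset.sum_congr rfl h1, Finset.sum_ite_mem, Finset.inter_eq_right.2 hVT]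
    simp
  · have h1 : ∀ g ∈ T, (if g ∈ Aa then l else 0) * (if g ∈ Aa then l else 0) =
        if g ∈ Aa then l * l else 0 := by
      intro g _
      split_ifs <;> norm_num
    rw [Finset.sum_congr rfl h1, Finset.sum_ite_mem, Finset.inter_eq_right.2 hAT, Finset.sum_const, hl2,
      nsmul_eq_mul]
    field_simp
  · exact hc
  · simpa using hc
  · have h1 : T.card ≤ 5 := by
      rw [hT]
      exact Finset.card_le_five
    omega

/-- the sequence without the first `k` places -/
def shk (k : ℕ) (ω : ℕ → Fin 3) : ℕ → Fin 3 := fun n => ω (k + n)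

theorem exists_dat {η : ℝ} {M : ℕ} (k : ℕ) : ∀ ω : ℕ → Fin 3,
    (∃ (T : Finset Pm) (u w : Pm → ℝ) (R : ℝ), Dat (shk k ω) η M T u w R) →
    ∃ (T : Finset Pm) (u w : Pm → ℝ) (R : ℝ), Dat ω (η / 2 ^ k) (2 ^ k * M) T u w R := by
  induction k with
  | zero =>
    intro ω h
    have h1 : shk 0 ω = ω := by
      funext n
      exact congrArg ω (zero_add n)
    rw [h1] at h
    simpa using h
  | succ k ih =>
    intro ω h
    have h1 : shk (k + 1) ω = shk k (sh ω) := by
      funext n
      exact congrArg ω (by omega)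
    rw [h1] at h
    obtain ⟨T, u, w, R, D⟩ := ih (sh ω) h
    obtain ⟨T', u', w', R', D'⟩ := D.step
    refine ⟨T', u', w', R', ?_⟩
    have h2 : η / 2 ^ (k + 1) = η / 2 ^ k / 2 := by
      rw [pow_succ]
      field_simp
    have h3 : 2 ^ (k + 1) * M = 2 * (2 ^ k * M) := by
      rw [pow_succ]
      ring
    rw [h2, h3]
    exact D'

/-- The level sets of a function. -/
theorem layer {X : Type} [DecidableEq X] (s : X → X) (T : Finset X) (δ : ℝ) : ∀ (n : ℕ) (F : X → ℝ),
    (∀ g, 0 ≤ F g) → (∀ g, g ∉ T → F g = 0) → (T.filter fun g => 0 < F g).card ≤ n →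
    0 < ∑ g ∈ T, F g → ∑ g ∈ T, max (F g - F (s g)) 0 ≤ δ * ∑ g ∈ T, F g →
    ∃ t : ℝ, 0 < t ∧ (T.filter fun g => t ≤ F g).Nonempty ∧
      (((T.filter fun g => t ≤ F g).filter fun g => ¬ t ≤ F (s g)).card : ℝ) ≤
        δ * (T.filter fun g => t ≤ F g).card := by
  intro n
  induction n with
  | zero =>
    intro F h0 hT hn hs _
    exfalso
    have h1 : (T.filter fun g => 0 < F g) = ∅ := Finset.card_eq_zero.1 (Nat.le_zero.1 hn)
    have h2 : ∑ g ∈ T, F g = 0 := by
      refine Finset.sum_eq_zero fun g hg => ?_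
      by_contra h3
      have h4 : g ∈ T.filter fun g => 0 < F g := Finset.mem_filter.2 ⟨hg, lt_of_le_of_ne (h0 g) (Ne.symm h3)⟩
      rw [h1] at h4
      exact absurd h4 (Finset.notMem_empty g)
    rw [h2] at hs
    exact lt_irrefl 0 hs
  | succ n ih =>
    intro F h0 hT hn hs hδ
    have hne : (T.filter fun g => 0 < F g).Nonempty := by
      by_contra h1
      rw [Finset.not_nonempty_iff_eq_empty] at h1
      have h2 : ∑ g ∈ T, F g = 0 := by
        refine Finset.sum_eq_zero fun g hg => ?_
        by_contra h3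
        have h4 : g ∈ T.filter fun g => 0 < F g := Finset.mem_filter.2 ⟨hg, lt_of_le_of_ne (h0 g) (Ne.symm h3)⟩
        rw [h1] at h4
        exact absurd h4 (Finset.notMem_empty g)
      rw [h2] at hs
      exact lt_irrefl 0 hs
    obtain ⟨g0, hg0, hmin⟩ := Finset.exists_min_image _ F hne
    set m : ℝ := F g0 with hm
    have hm0 : 0 < m := (Finset.mem_filter.1 hg0).2
    have hE : (T.filter fun g => m ≤ F g) = T.filter fun g => 0 < F g := by
      ext g
      simp only [Finset.mem_filter]
      refine and_congr_right fun hg => ⟨fun h => lt_of_lt_of_le hm0 h, fun h => ?_⟩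
      exact hmin g (Finset.mem_filter.2 ⟨hg, h⟩)
    have hdich : ∀ g, F g = 0 ∨ m ≤ F g := by
      intro g
      by_cases hg : g ∈ T
      · rcases (h0 g).eq_or_lt with h | h
        · exact Or.inl h.symm
        · exact Or.inr (hmin g (Finset.mem_filter.2 ⟨hg, h⟩))
      · exact Or.inl (hT g hg)
    by_cases hgood : (((T.filter fun g => m ≤ F g).filter fun g => ¬ m ≤ F (s g)).card : ℝ) ≤
        δ * (T.filter fun g => m ≤ F g).card
    · refine ⟨m, hm0, ?_, hgood⟩
      rw [hE]
      exact hne
    · rw [not_le] at hgood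
      let F' : X → ℝ := fun g => max (F g - m) 0
      have hF'1 : ∀ g, m ≤ F g → F' g = F g - m := fun g hg => max_eq_left (by linarith)
      have hF'0 : ∀ g, F g = 0 → F' g = 0 := fun g hg => max_eq_right (by rw [hg]; linarith)
      have hsum : ∑ g ∈ T, F g = m * (T.filter fun g => m ≤ F g).card + ∑ g ∈ T, F' g := by
        rw [mul_comm, ← nsmul_eq_mul, ← Finset.sum_const, Finset.sum_filter, ← Finset.sum_add_distrib]
        refine Finset.sum_congr rfl fun g _ => ?_
        rcases hdich g with h | h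
        · rw [hF'0 g h, if_neg (by rw [h]; linarith), h, add_zero]
        · rw [hF'1 g h, if_pos h]
          ring
      have hsum2 : ∑ g ∈ T, max (F g - F (s g)) 0 =
          m * ((T.filter fun g => m ≤ F g).filter fun g => ¬ m ≤ F (s g)).card +
            ∑ g ∈ T, max (F' g - F' (s g)) 0 := by
        rw [mul_comm, ← nsmul_eq_mul, ← Finset.sum_const, Finset.sum_filter, Finset.sum_filter,
          ← Finset.sum_add_distrib]
        refine Finset.sum_congr rfl fun g _ => ?_
        rcases hdich g with h | h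
        · rw [hF'0 g h, if_neg (by rw [h]; linarith), h]
          rw [max_eq_right (by have := h0 (s g); linarith),
            max_eq_right (by have : 0 ≤ F' (s g) := le_max_right _ _; linarith), add_zero]
        · rw [if_pos h, hF'1 g h]
          rcases hdich (s g) with h' | h'
          · rw [hF'0 _ h', h', if_pos (by rw [not_le]; exact hm0), max_eq_left (by linarith),
              max_eq_left (by linarith)]
            ring
          · rw [hF'1 _ h', if_neg (not_not.2 h'), zero_add]
            congr 1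
            ring
      have h1 : ∑ g ∈ T, max (F' g - F' (s g)) 0 < δ * ∑ g ∈ T, F' g := by
        have h2 := mul_lt_mul_of_pos_left hgood hm0
        rw [hsum, hsum2] at hδ
        nlinarith
      have hpos : 0 < ∑ g ∈ T, F' g := by
        rcases (Finset.sum_nonneg fun g (_ : g ∈ T) => (le_max_right (F g - m) 0 : 0 ≤ F' g)).eq_or_lt with h | h
        · exfalso
          rw [← h, mul_zero] at h1
          exact absurd h1 (not_lt.2 (Finset.sum_nonneg fun g _ => le_max_right _ _))
        · exact h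
      have hcard : (T.filter fun g => 0 < F' g).card ≤ n := by
        have h2 : (T.filter fun g => 0 < F' g) ⊂ T.filter fun g => 0 < F g := by
          rw [Finset.ssubset_iff_of_subset]
          · refine ⟨g0, hg0, fun h => ?_⟩
            have h3 := (Finset.mem_filter.1 h).2
            rw [hF'1 g0 le_rfl] at h3
            linarith
          · intro g hg
            obtain ⟨h3, h4⟩ := Finset.mem_filter.1 hg
            refine Finset.mem_filter.2 ⟨h3, ?_⟩
            rcases hdich g with h | h
            · rw [hF'0 g h] at h4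
              exact absurd h4 (lt_irrefl 0)
            · linarith
        have h3 := Finset.card_lt_card h2
        omega
      obtain ⟨t, ht, h2, h3⟩ := ih F' (fun g => le_max_right _ _) (fun g hg => hF'0 g (hT g hg)) hcard hpos
        h1.le
      have hlev : ∀ g, t ≤ F' g ↔ t + m ≤ F g := by
        intro g
        rcases hdich g with h | h
        · rw [hF'0 g h, h]
          constructor <;> intro h' <;> linarith
        · rw [hF'1 g h]
          constructor <;> intro h' <;> linarith
      simp only [hlev] at h2 h3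
      exact ⟨t + m, by linarith, h2, h3⟩

end Pool.Agent.H361.FU
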