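import Pool.Agent.H361.FU.Fam

/-!
# The Folner function of `G_ω` for generic `ω`
-/

set_option autoImplicit false

namespace Pool.Agent.H361.FU

open Pool.Agent.Results.MP_0b0f5a_al.LowerBounds

/-- a run of equal letters at the places `k`, …, `k + r - 1` -/
def Run (ω : ℕ → Fin 3) (k r : ℕ) : Prop := ∀ m, m < r → ω (k + m) = ω k

/-- alternating letters `0`, `1` at the places `k`, …, `k + r - 1` -/
def Alt (ω : ℕ → Fin 3) (k r : ℕ) : Prop := ∀ m, k ≤ m → m < k + r → ω m = if Even m then 0 else 1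

theorem fol_mono (ω : ℕ → Fin 3) {n m : ℕ} (hn : 1 ≤ n) (h : n ≤ m) : fol ω n ≤ fol ω m := by
  obtain ⟨E, h1, h2, h3, h4⟩ := fol_spec ω m (hn.trans h)
  refine fol_le ⟨E, h1, h2, fun s hs => (h3 s hs).trans_le ?_, h4.le⟩
  have h5 : (0 : ℝ) < n := by exact_mod_cast hn
  exact one_div_le_one_div_of_le h5 (by exact_mod_cast h)

theorem Le.pow {f : ℕ → ℕ} {ω : ℕ → Fin 3} (h : Le f (fol ω)) :
    ∃ s : ℕ, ∀ n, 1 ≤ n → f n ≤ 2 ^ s * fol ω (2 ^ s * n) := by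
  obtain ⟨c, hc⟩ := h
  obtain ⟨s, hs⟩ : ∃ s : ℕ, c ≤ 2 ^ s := ⟨c, Nat.lt_two_pow_self.le⟩
  refine ⟨s, fun n hn => (hc n hn).trans ?_⟩
  rcases Nat.eq_zero_or_pos c with h0 | h0
  · rw [h0, zero_mul]
    exact Nat.zero_le _
  · exact Nat.mul_le_mul hs (fol_mono ω (Nat.mul_pos h0 hn) (Nat.mul_le_mul_right n hs))

/-- the lower bound at a switch in an alternating part -/
theorem low_alt : ∃ q t : ℕ, ∀ (ω : ℕ → Fin 3) (κ x v : ℕ), Alt ω (2 * κ) (x + 2) →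
    1 ≤ 2 * κ + x → 2 * v + q ≤ x / 2 →
      2 ^ (v * 2 ^ (2 * κ + x - 1)) ≤ fol ω (2 ^ (2 * κ + x + t)) := by
  obtain ⟨q, t, hlow⟩ := lower_loc
  refine ⟨q, t, fun ω κ x v halt hk hv => ?_⟩
  obtain ⟨E, h1, h2, h3, h4⟩ := fol_spec ω (2 ^ (2 * κ + x + t)) Nat.one_le_two_pow
  rw [← h4]
  refine hlow ω (2 * κ + x) v (2 ^ (2 * κ + x + t)) hk ?_ ?_ le_rfl E h1 h2 h3
  · rw [halt (2 * κ + x) (by omega) (by omega), halt (2 * κ + x + 1) (by omega) (by omega)]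
    by_cases h5 : Even (2 * κ + x)
    · have h6 : ¬ Even (2 * κ + x + 1) := by
        rw [Nat.not_even_iff_odd]
        exact h5.add_one
      rw [if_pos h5, if_neg h6]
      decide
    · have h6 : Even (2 * κ + x + 1) := (Nat.not_even_iff_odd.1 h5).add_one
      rw [if_neg h5, if_pos h6]
      decide
  · have h5 : ω (2 * κ + x + 1) = 0 ∨ ω (2 * κ + x + 1) = 1 := by
      rw [halt (2 * κ + x + 1) (by omega) (by omega)]
      by_cases h6 : Even (2 * κ + x + 1)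
      · exact Or.inl (if_pos h6)
      · exact Or.inr (if_neg h6)
    have h6 := count_alt (b := 2 * κ + (x + 2)) halt _ h5 (x / 2) (by omega)
    have h7 := Nat.count_monotone (fun i => ω i = ω (2 * κ + x + 1))
      (show 2 * κ + 2 * (x / 2) ≤ 2 * κ + x by omega)
    omega

/-- the upper bound for a run -/
theorem up_run {ω : ℕ → Fin 3} {κ r : ℕ} (h : Run ω (2 * κ) r) (hr : 7 ≤ κ + r) :
    fol ω (2 ^ (κ + r - 7)) ≤ 2 ^ 2 ^ (2 * κ + r + 2) := by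
  have h1 : fol ω (2 ^ (κ + r - 7)) ≤ 10 ^ 2 ^ (2 * κ + r) := by
    refine fol_le (upper_run ω (2 * κ) r _ Nat.one_le_two_pow h ?_)
    calc 4096 * (2 ^ (κ + r - 7)) ^ 2 = 2 ^ (12 + 2 * (κ + r - 7)) := by
          rw [← pow_mul, pow_add, mul_comm 2]
          norm_num
      _ < 2 ^ (2 * κ + 2 * r) := Nat.pow_lt_pow_right (by norm_num) (by omega)
  calc fol ω (2 ^ (κ + r - 7)) ≤ 10 ^ 2 ^ (2 * κ + r) := h1
    _ ≤ (2 ^ 4) ^ 2 ^ (2 * κ + r) := Nat.pow_le_pow_left (by norm_num) _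
    _ = 2 ^ 2 ^ (2 * κ + r + 2) := by
        rw [← pow_mul, pow_add 2 (2 * κ + r) 2, mul_comm 4]
        norm_num

/-- incomparability from prefixes -/
theorem gap (κ s : ℕ) : ∃ r : ℕ, ∀ ω ω' : ℕ → Fin 3, Alt ω (2 * κ) r → Run ω' (2 * κ) r →
    ∃ n, 1 ≤ n ∧ 2 ^ s * fol ω' (2 ^ s * n) < fol ω n := by
  obtain ⟨q, t, hlow⟩ := low_alt
  obtain ⟨x, hx⟩ : ∃ x, x = 2 * (2 * 2 ^ (κ + 11 + s + t) + q) + 2 := ⟨_, rfl⟩
  refine ⟨x + (κ + 7 + s + t), fun ω ω' halt hrun => ⟨2 ^ (2 * κ + x + t), Nat.one_le_two_pow, ?_⟩⟩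
  have h1 : 2 ^ (2 ^ (κ + 11 + s + t) * 2 ^ (2 * κ + x - 1)) ≤ fol ω (2 ^ (2 * κ + x + t)) := by
    refine hlow ω κ x _ (fun m hm1 hm2 => halt m hm1 (by omega)) (by omega) (by omega)
  have h2 := up_run hrun (by omega)
  have h3 : 2 ^ s * 2 ^ (2 * κ + x + t) = 2 ^ (κ + (x + (κ + 7 + s + t)) - 7) := by
    rw [← pow_add]
    congr 1
    omega
  rw [h3]
  calc 2 ^ s * fol ω' (2 ^ (κ + (x + (κ + 7 + s + t)) - 7))
      ≤ 2 ^ s * 2 ^ 2 ^ (2 * κ + (x + (κ + 7 + s + t)) + 2) := Nat.mul_le_mul_left _ h2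
    _ = 2 ^ (s + 2 ^ (2 * κ + (x + (κ + 7 + s + t)) + 2)) := (pow_add _ _ _).symm
    _ < 2 ^ (2 ^ (κ + 11 + s + t) * 2 ^ (2 * κ + x - 1)) := by
        apply Nat.pow_lt_pow_right (by norm_num)
        have h4 : 2 ^ (κ + 11 + s + t) * 2 ^ (2 * κ + x - 1) =
            2 * 2 ^ (2 * κ + (x + (κ + 7 + s + t)) + 2) := by
          rw [← pow_add, ← pow_succ']
          congr 1
          omega
        have h5 : s < 2 ^ (2 * κ + (x + (κ + 7 + s + t)) + 2) :=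
          lt_of_lt_of_le Nat.lt_two_pow_self (Nat.pow_le_pow_right (by norm_num) (by omega))
        omega
    _ ≤ _ := h1

/-- comparison with a function which is at most exponential at infinitely many places -/
theorem gapA (ω' : ℕ → Fin 3) (B : ℕ) (hB : ∀ N, ∃ n, N ≤ n ∧ fol ω' n ≤ 2 ^ (B * n)) (κ s : ℕ) :
    ∃ r : ℕ, ∀ ω : ℕ → Fin 3, Alt ω (2 * κ) r →
      ∃ n, 1 ≤ n ∧ 2 ^ s * fol ω' (2 ^ s * n) < fol ω n := by
  obtain ⟨q, t, hlow⟩ := low_alt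
  obtain ⟨y, hy⟩ : ∃ y, y = 2 * (2 * (B * 2 ^ (t + s + 2) + 1) + q) + 2 + s := ⟨_, rfl⟩
  obtain ⟨n0, hn0, hn0B⟩ := hB (2 ^ (2 * κ + y + t + s))
  have hn01 : n0 ≠ 0 := by
    have : 0 < 2 ^ (2 * κ + y + t + s) := by positivity
    omega
  have hl1 := Nat.pow_log_le_self 2 hn01
  have hl2 := Nat.lt_pow_succ_log_self (show 1 < 2 by norm_num) n0
  have hl3 : 2 * κ + y + t + s ≤ Nat.log 2 n0 := Nat.le_log_of_pow_le (by norm_num) hn0
  obtain ⟨x, hx⟩ : ∃ x, Nat.log 2 n0 = 2 * κ + x + t + s := ⟨Nat.log 2 n0 - (2 * κ + t + s), by omega⟩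
  rw [hx] at hl1 hl2 hl3
  refine ⟨x + 2, fun ω halt => ⟨2 ^ (2 * κ + x + t), Nat.one_le_two_pow, ?_⟩⟩
  have h1 := hlow ω κ x (B * 2 ^ (t + s + 2) + 1) halt (by omega) (by omega)
  have h2 : 2 ^ s * 2 ^ (2 * κ + x + t) ≤ n0 := by
    rw [← pow_add]
    refine le_trans (le_of_eq ?_) hl1
    congr 1
    omega
  have h3 : fol ω' (2 ^ s * 2 ^ (2 * κ + x + t)) ≤ 2 ^ (B * n0) :=
    (fol_mono ω' (Nat.mul_pos (by positivity) (by positivity)) h2).trans hn0B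
  calc 2 ^ s * fol ω' (2 ^ s * 2 ^ (2 * κ + x + t)) ≤ 2 ^ s * 2 ^ (B * n0) :=
        Nat.mul_le_mul_left _ h3
    _ = 2 ^ (s + B * n0) := (pow_add _ _ _).symm
    _ < 2 ^ ((B * 2 ^ (t + s + 2) + 1) * 2 ^ (2 * κ + x - 1)) := by
        apply Nat.pow_lt_pow_right (by norm_num)
        have h4 : B * n0 ≤ B * 2 ^ (t + s + 2) * 2 ^ (2 * κ + x - 1) := by
          rw [mul_assoc, ← pow_add]
          refine Nat.mul_le_mul_left B (hl2.le.trans (le_of_eq ?_))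
          congr 1
          omega
        have h5 : s < 2 ^ (2 * κ + x - 1) :=
          lt_of_lt_of_le Nat.lt_two_pow_self (Nat.pow_le_pow_right (by norm_num) (by omega))
        rw [add_mul, one_mul]
        omega
    _ ≤ _ := h1

/-- comparison with a function which is more than exponential -/
theorem gapB (ω' : ℕ → Fin 3) (hB : ∀ B, ∃ N, ∀ n, N ≤ n → 2 ^ (B * n) < fol ω' n) (κ s : ℕ) :
    ∃ r : ℕ, ∀ ω : ℕ → Fin 3, Run ω (2 * κ) r →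
      ∃ n, 1 ≤ n ∧ 2 ^ s * fol ω (2 ^ s * n) < fol ω' n := by
  obtain ⟨N, hN⟩ := hB (2 ^ (κ + s + 10))
  refine ⟨N + 7 + s, fun ω hrun => ⟨2 ^ (κ + N), Nat.one_le_two_pow, ?_⟩⟩
  have h1 := up_run hrun (by omega)
  have h2 : 2 ^ s * 2 ^ (κ + N) = 2 ^ (κ + (N + 7 + s) - 7) := by
    rw [← pow_add]
    congr 1
    omega
  have h3 : N ≤ 2 ^ (κ + N) := by
    have : κ + N < 2 ^ (κ + N) := Nat.lt_two_pow_self
    omega
  rw [h2]
  calc 2 ^ s * fol ω (2 ^ (κ + (N + 7 + s) - 7)) ≤ 2 ^ s * 2 ^ 2 ^ (2 * κ + (N + 7 + s) + 2) :=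
        Nat.mul_le_mul_left _ h1
    _ = 2 ^ (s + 2 ^ (2 * κ + (N + 7 + s) + 2)) := (pow_add _ _ _).symm
    _ ≤ 2 ^ (2 ^ (κ + s + 10) * 2 ^ (κ + N)) := by
        apply Nat.pow_le_pow_right (by norm_num)
        have h4 : 2 ^ (κ + s + 10) * 2 ^ (κ + N) = 2 * 2 ^ (2 * κ + (N + 7 + s) + 2) := by
          rw [← pow_add, ← pow_succ']
          congr 1
          omega
        have h5 : s < 2 ^ (2 * κ + (N + 7 + s) + 2) :=
          lt_of_lt_of_le Nat.lt_two_pow_self (Nat.pow_le_pow_right (by norm_num) (by omega))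
        omega
    _ < fol ω' (2 ^ (κ + N)) := hN _ h3

end Pool.Agent.H361.FU
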