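import Pool.Agent.H361.FU.Gen

/-!
# The Folner function of `G_ω` for generic `ω`: Baire category
-/

set_option autoImplicit false

namespace Pool.Agent.H361.FU

open Pool.Agent.Results.MP_0b0f5a_al.LowerBounds Filter

theorem run_small (φ : ℕ → ℝ) (hφ : Tendsto φ atTop atTop) (κ N : ℕ) : ∃ r : ℕ,
    ∀ ω : ℕ → Fin 3, Run ω (2 * κ) r → ∃ n : ℕ, N ≤ n ∧ (fol ω n : ℝ) ≤ Real.exp (n * φ n) := by
  obtain ⟨N1, hN1⟩ := eventually_atTop.1 (hφ.eventually_ge_atTop ((2 : ℝ) ^ (κ + 9)))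
  refine ⟨N + N1 + 7, fun ω hrun => ⟨2 ^ (κ + (N + N1 + 7) - 7), ?_, ?_⟩⟩
  · have : κ + (N + N1 + 7) - 7 < 2 ^ (κ + (N + N1 + 7) - 7) := Nat.lt_two_pow_self
    omega
  · have h0 : κ + (N + N1 + 7) - 7 < 2 ^ (κ + (N + N1 + 7) - 7) := Nat.lt_two_pow_self
    have h1 := up_run hrun (by omega)
    have h2 := hN1 (2 ^ (κ + (N + N1 + 7) - 7)) (by omega)
    have h3 : (2 : ℝ) ≤ Real.exp 1 := by
      have := Real.add_one_le_exp (1 : ℝ)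
      linarith
    calc (fol ω (2 ^ (κ + (N + N1 + 7) - 7)) : ℝ) ≤ 2 ^ 2 ^ (2 * κ + (N + N1 + 7) + 2) := by
          exact_mod_cast h1
      _ ≤ Real.exp 1 ^ 2 ^ (2 * κ + (N + N1 + 7) + 2) := by gcongr
      _ = Real.exp (2 ^ (2 * κ + (N + N1 + 7) + 2)) := by
          rw [← Real.exp_nat_mul, mul_one]
          push_cast
          rfl
      _ ≤ _ := by
          apply Real.exp_le_exp.2
          push_cast
          calc (2 : ℝ) ^ (2 * κ + (N + N1 + 7) + 2) = 2 ^ (κ + (N + N1 + 7) - 7 + (κ + 9)) := by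
                congr 1
                omega
            _ = 2 ^ (κ + (N + N1 + 7) - 7) * 2 ^ (κ + 9) := pow_add _ _ _
            _ ≤ _ := by gcongr

theorem alt_large : ∃ c : ℝ, 0 < c ∧ ∀ κ N : ℕ, ∃ r : ℕ, ∀ ω : ℕ → Fin 3, Alt ω (2 * κ) r →
    ∃ n : ℕ, N ≤ n ∧ Real.exp (c * (n * Real.log n)) ≤ (fol ω n : ℝ) := by
  obtain ⟨q, t, hlow⟩ := low_alt
  refine ⟨1 / (12 * 2 ^ (t + 1)), by positivity, fun κ N => ?_⟩
  obtain ⟨y, hy⟩ : ∃ y, y = 2 * κ + t + 2 * q + 2 + N := ⟨_, rfl⟩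
  refine ⟨2 * y + 2, fun ω halt => ?_⟩
  have hlow1 := hlow ω κ (2 * y) ((y - q) / 2) halt (by omega) (by omega)
  obtain ⟨k, hk⟩ : ∃ k, k = 2 * κ + 2 * y := ⟨_, rfl⟩
  rw [← hk] at hlow1
  have hmk : k + t < 2 ^ (k + t) := Nat.lt_two_pow_self
  refine ⟨2 ^ (k + t), by omega, ?_⟩
  have h1 : ((2 ^ ((y - q) / 2 * 2 ^ (k - 1)) : ℕ) : ℝ) ≤ fol ω (2 ^ (k + t)) := by
    exact_mod_cast hlow1
  refine le_trans ?_ h1
  have hlog : Real.log ((2 ^ (k + t) : ℕ) : ℝ) = ((k + t : ℕ) : ℝ) * Real.log 2 := by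
    push_cast
    rw [Real.log_pow]
    push_cast
    ring
  have hk2 : (2 : ℝ) ^ k = 2 * 2 ^ (k - 1) := by
    rw [← pow_succ', Nat.sub_add_cancel (by omega)]
  have hexp : ((2 ^ ((y - q) / 2 * 2 ^ (k - 1)) : ℕ) : ℝ) =
      Real.exp (((y - q) / 2 * 2 ^ (k - 1) : ℕ) * Real.log 2) := by
    rw [Real.exp_nat_mul, Real.exp_log (by norm_num)]
    push_cast
    rfl
  rw [hexp, hlog]
  apply Real.exp_le_exp.2
  have h2 : k + t ≤ 12 * ((y - q) / 2) := by omega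
  have h2' : ((k + t : ℕ) : ℝ) ≤ 12 * (((y - q) / 2 : ℕ) : ℝ) := by exact_mod_cast h2
  have hl2 : 0 ≤ Real.log 2 := by positivity
  have h3 : 1 / (12 * 2 ^ (t + 1)) * (((2 ^ (k + t) : ℕ) : ℝ) * (((k + t : ℕ) : ℝ) * Real.log 2)) =
      ((k + t : ℕ) : ℝ) / 12 * 2 ^ (k - 1) * Real.log 2 := by
    rw [Nat.cast_pow, Nat.cast_ofNat, pow_add 2 k t, hk2, pow_succ]
    field_simp
  rw [h3, Nat.cast_mul, Nat.cast_pow, Nat.cast_ofNat]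
  apply mul_le_mul_of_nonneg_right _ hl2
  apply mul_le_mul_of_nonneg_right _ (by positivity)
  linarith

theorem resid {X : Type*} [TopologicalSpace X] (Q : X → Prop)
    (h : ∀ U : Set X, IsOpen U → U.Nonempty → ∃ V ⊆ U, IsOpen V ∧ V.Nonempty ∧ ∀ x ∈ V, Q x) :
    ∀ᶠ x in residual X, Q x := by
  have h1 : IsOpen (⋃₀ {V : Set X | IsOpen V ∧ ∀ x ∈ V, Q x}) := isOpen_sUnion fun V hV => hV.1
  have h2 : Dense (⋃₀ {V : Set X | IsOpen V ∧ ∀ x ∈ V, Q x}) := by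
    rw [dense_iff_inter_open]
    intro U hU hne
    obtain ⟨V, hVU, hV, ⟨x, hx⟩, hQ⟩ := h U hU hne
    exact ⟨x, hVU hx, V, ⟨hV, hQ⟩, hx⟩
  refine Filter.mem_of_superset (residual_of_dense_open h1 h2) ?_
  rintro x ⟨V, hV, hx⟩
  exact hV.2 x hx

theorem exists_cyl (U : Set (ℕ → Fin 3)) (hU : IsOpen U) (hne : U.Nonempty) :
    ∃ (y : ℕ → Fin 3) (n : ℕ), ∀ z : ℕ → Fin 3, (∀ i, i < n → z i = y i) → z ∈ U := by
  obtain ⟨x, hx⟩ := hne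
  obtain ⟨v, ⟨y, n, rfl⟩, hxv, hvU⟩ :=
    (PiNat.isTopologicalBasis_cylinders (fun _ : ℕ => Fin 3)).exists_subset_of_mem_open hx hU
  exact ⟨y, n, fun z hz => hvU hz⟩

theorem cyl_ext (U : Set (ℕ → Fin 3)) (hU : IsOpen U) (hne : U.Nonempty) (e : ℕ → Fin 3) :
    ∃ κ0 : ℕ, ∀ κ, κ0 ≤ κ → ∀ r : ℕ, ∃ V ⊆ U, IsOpen V ∧ V.Nonempty ∧
      ∀ ω ∈ V, ∀ m, 2 * κ ≤ m → m < 2 * κ + r → ω m = e m := by
  obtain ⟨y, n, hy⟩ := exists_cyl U hU hne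
  refine ⟨n, fun κ hκ r => ?_⟩
  refine ⟨PiNat.cylinder (fun m => if m < 2 * κ then y m else e m) (2 * κ + r), ?_,
    PiNat.isOpen_cylinder _ _ _, ⟨_, PiNat.self_mem_cylinder _ _⟩, ?_⟩
  · intro z hz
    refine hy z fun i hi => ?_
    have h1 := hz i (by omega)
    rw [h1]
    exact if_pos (by omega)
  · intro ω hω m h1 h2
    have h3 := hω m h2
    rw [h3]
    exact if_neg (by omega)

theorem cyl_run (U : Set (ℕ → Fin 3)) (hU : IsOpen U) (hne : U.Nonempty) :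
    ∃ κ0 : ℕ, ∀ κ, κ0 ≤ κ → ∀ r : ℕ, ∃ V ⊆ U, IsOpen V ∧ V.Nonempty ∧ ∀ ω ∈ V, Run ω (2 * κ) r := by
  obtain ⟨κ0, h⟩ := cyl_ext U hU hne fun _ => 0
  refine ⟨κ0, fun κ hκ r => ?_⟩
  obtain ⟨V, hV1, hV2, hV3, hV4⟩ := h κ hκ r
  refine ⟨V, hV1, hV2, hV3, fun ω hω m hm => ?_⟩
  rw [hV4 ω hω (2 * κ + m) (by omega) (by omega), hV4 ω hω (2 * κ) (by omega) (by omega)]

theorem cyl_alt (U : Set (ℕ → Fin 3)) (hU : IsOpen U) (hne : U.Nonempty) :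
    ∃ κ0 : ℕ, ∀ κ, κ0 ≤ κ → ∀ r : ℕ, ∃ V ⊆ U, IsOpen V ∧ V.Nonempty ∧ ∀ ω ∈ V, Alt ω (2 * κ) r :=
  cyl_ext U hU hne fun m => if Even m then 0 else 1

theorem not_Le {f : ℕ → ℕ} {ω : ℕ → Fin 3}
    (h : ∀ s : ℕ, ∃ n, 1 ≤ n ∧ 2 ^ s * fol ω (2 ^ s * n) < f n) : ¬ Le f (fol ω) := by
  intro hle
  obtain ⟨s, hs⟩ := hle.pow
  obtain ⟨n, hn, hlt⟩ := h s
  exact absurd (hs n hn) (not_le.2 hlt)

theorem gen_osc : ∃ c : ℝ, 0 < c ∧ ∀ φ : ℕ → ℝ, Tendsto φ atTop atTop →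
    ∀ᶠ ω in residual (ℕ → Fin 3), Xi ω ∧
      (∀ N : ℕ, ∃ n : ℕ, N ≤ n ∧ (fol ω n : ℝ) ≤ Real.exp (n * φ n)) ∧
      ∀ N : ℕ, ∃ n : ℕ, N ≤ n ∧ Real.exp (c * (n * Real.log n)) ≤ (fol ω n : ℝ) := by
  obtain ⟨c, hc, hlarge⟩ := alt_large
  refine ⟨c, hc, fun φ hφ => ?_⟩
  have h1 : ∀ᶠ ω in residual (ℕ → Fin 3), ∀ N : ℕ, (∃ n ≥ N, ω n = 0) ∧ ∃ n ≥ N, ω n = 1 := by
    rw [eventually_countable_forall]
    refine fun N => resid _ fun U hU hne => ?_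
    obtain ⟨κ0, h⟩ := cyl_alt U hU hne
    obtain ⟨V, hV1, hV2, hV3, hV4⟩ := h (max κ0 N) (le_max_left _ _) 2
    have hN : N ≤ max κ0 N := le_max_right _ _
    refine ⟨V, hV1, hV2, hV3, fun ω hω => ⟨⟨2 * max κ0 N, by omega, ?_⟩,
      ⟨2 * max κ0 N + 1, by omega, ?_⟩⟩⟩
    · rw [hV4 ω hω _ (by omega) (by omega), if_pos (even_two_mul _)]
    · rw [hV4 ω hω _ (by omega) (by omega), if_neg]
      rw [Nat.not_even_iff_odd]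
      exact odd_two_mul_add_one _
  have h2 : ∀ᶠ ω in residual (ℕ → Fin 3), ∀ N : ℕ, ∃ n : ℕ, N ≤ n ∧
      (fol ω n : ℝ) ≤ Real.exp (n * φ n) := by
    rw [eventually_countable_forall]
    refine fun N => resid _ fun U hU hne => ?_
    obtain ⟨κ, h⟩ := cyl_run U hU hne
    obtain ⟨r, hr⟩ := run_small φ hφ κ N
    obtain ⟨V, hV1, hV2, hV3, hV4⟩ := h κ le_rfl r
    exact ⟨V, hV1, hV2, hV3, fun ω hω => hr ω (hV4 ω hω)⟩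
  have h3 : ∀ᶠ ω in residual (ℕ → Fin 3), ∀ N : ℕ, ∃ n : ℕ, N ≤ n ∧
      Real.exp (c * (n * Real.log n)) ≤ (fol ω n : ℝ) := by
    rw [eventually_countable_forall]
    refine fun N => resid _ fun U hU hne => ?_
    obtain ⟨κ, h⟩ := cyl_alt U hU hne
    obtain ⟨r, hr⟩ := hlarge κ N
    obtain ⟨V, hV1, hV2, hV3, hV4⟩ := h κ le_rfl r
    exact ⟨V, hV1, hV2, hV3, fun ω hω => hr ω (hV4 ω hω)⟩
  filter_upwards [h1, h2, h3] with ω ha hb hd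
  exact ⟨⟨0, 1, by decide, fun N => (ha N).1, fun N => (ha N).2⟩, hb, hd⟩

theorem gen_pair : ∀ᶠ p in residual ((ℕ → Fin 3) × (ℕ → Fin 3)),
    ¬ Le (fol p.1) (fol p.2) ∧ ¬ Le (fol p.2) (fol p.1) := by
  have h1 : ∀ᶠ p in residual ((ℕ → Fin 3) × (ℕ → Fin 3)), ∀ s : ℕ, ∃ n, 1 ≤ n ∧
      2 ^ s * fol p.2 (2 ^ s * n) < fol p.1 n := by
    rw [eventually_countable_forall]
    refine fun s => resid _ fun U hU ⟨⟨x, y⟩, hxy⟩ => ?_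
    obtain ⟨u, v, hu, hv, hxu, hyv, huv⟩ := isOpen_prod_iff.1 hU x y hxy
    obtain ⟨κ1, h1⟩ := cyl_alt u hu ⟨x, hxu⟩
    obtain ⟨κ2, h2⟩ := cyl_run v hv ⟨y, hyv⟩
    obtain ⟨r, hr⟩ := gap (max κ1 κ2) s
    obtain ⟨V, hV1, hV2, hV3, hV4⟩ := h1 (max κ1 κ2) (le_max_left _ _) r
    obtain ⟨W, hW1, hW2, hW3, hW4⟩ := h2 (max κ1 κ2) (le_max_right _ _) r
    refine ⟨V ×ˢ W, (Set.prod_mono hV1 hW1).trans huv, hV2.prod hW2, hV3.prod hW3, ?_⟩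
    rintro ⟨ω, ω'⟩ ⟨hω, hω'⟩
    exact hr ω ω' (hV4 ω hω) (hW4 ω' hω')
  have h2 : ∀ᶠ p in residual ((ℕ → Fin 3) × (ℕ → Fin 3)), ∀ s : ℕ, ∃ n, 1 ≤ n ∧
      2 ^ s * fol p.1 (2 ^ s * n) < fol p.2 n := by
    rw [eventually_countable_forall]
    refine fun s => resid _ fun U hU ⟨⟨x, y⟩, hxy⟩ => ?_
    obtain ⟨u, v, hu, hv, hxu, hyv, huv⟩ := isOpen_prod_iff.1 hU x y hxy
    obtain ⟨κ1, h1⟩ := cyl_run u hu ⟨x, hxu⟩
    obtain ⟨κ2, h2⟩ := cyl_alt v hv ⟨y, hyv⟩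
    obtain ⟨r, hr⟩ := gap (max κ1 κ2) s
    obtain ⟨V, hV1, hV2, hV3, hV4⟩ := h1 (max κ1 κ2) (le_max_left _ _) r
    obtain ⟨W, hW1, hW2, hW3, hW4⟩ := h2 (max κ1 κ2) (le_max_right _ _) r
    refine ⟨V ×ˢ W, (Set.prod_mono hV1 hW1).trans huv, hV2.prod hW2, hV3.prod hW3, ?_⟩
    rintro ⟨ω, ω'⟩ ⟨hω, hω'⟩
    exact hr ω' ω (hW4 ω' hω') (hV4 ω hω)
  filter_upwards [h1, h2] with p ha hb
  exact ⟨not_Le ha, not_Le hb⟩

theorem gen_one (ω' : ℕ → Fin 3) : ∀ᶠ ω in residual (ℕ → Fin 3),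
    ¬ (Le (fol ω) (fol ω') ∧ Le (fol ω') (fol ω)) := by
  by_cases hB : ∃ B : ℕ, ∀ N, ∃ n, N ≤ n ∧ fol ω' n ≤ 2 ^ (B * n)
  · obtain ⟨B, hB⟩ := hB
    have h1 : ∀ᶠ ω in residual (ℕ → Fin 3), ∀ s : ℕ, ∃ n, 1 ≤ n ∧
        2 ^ s * fol ω' (2 ^ s * n) < fol ω n := by
      rw [eventually_countable_forall]
      refine fun s => resid _ fun U hU hne => ?_
      obtain ⟨κ, h⟩ := cyl_alt U hU hne
      obtain ⟨r, hr⟩ := gapA ω' B hB κ s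
      obtain ⟨V, hV1, hV2, hV3, hV4⟩ := h κ le_rfl r
      exact ⟨V, hV1, hV2, hV3, fun ω hω => hr ω (hV4 ω hω)⟩
    filter_upwards [h1] with ω ha
    exact fun hle => not_Le ha hle.1
  · push Not at hB
    have h1 : ∀ᶠ ω in residual (ℕ → Fin 3), ∀ s : ℕ, ∃ n, 1 ≤ n ∧
        2 ^ s * fol ω (2 ^ s * n) < fol ω' n := by
      rw [eventually_countable_forall]
      refine fun s => resid _ fun U hU hne => ?_
      obtain ⟨κ, h⟩ := cyl_run U hU hne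
      obtain ⟨r, hr⟩ := gapB ω' hB κ s
      obtain ⟨V, hV1, hV2, hV3, hV4⟩ := h κ le_rfl r
      exact ⟨V, hV1, hV2, hV3, fun ω hω => hr ω (hV4 ω hω)⟩
    filter_upwards [h1] with ω ha
    exact fun hle => not_Le ha hle.2

end Pool.Agent.H361.FU
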