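import Pool.Agent.H361.FU.Er

/-!
# Balls in the groups `G_ω`
-/

set_option autoImplicit false

namespace Pool.Agent.H361.FU

open Pool.Agent.Results.MP_0b0f5a_al.LowerBounds

/-- the ball of radius `n` -/
def Bn (ω : ℕ → Fin 3) (n : ℕ) : Set Pm :=
  {g | ∃ l : List Pm, l.length ≤ n ∧ (∀ s ∈ l, s ∈ gens ω) ∧ l.prod = g}

theorem gens_fin (ω : ℕ → Fin 3) : (gens ω).Finite := by
  unfold gens
  exact Set.toFinite _

theorem Bn_fin (ω : ℕ → Fin 3) (n : ℕ) : (Bn ω n).Finite := by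
  induction n with
  | zero =>
    refine (Set.finite_singleton (1 : Pm)).subset ?_
    rintro _ ⟨l, hl, _, rfl⟩
    have h1 : l = [] := List.length_eq_zero_iff.1 (Nat.le_zero.1 hl)
    rw [h1]
    rfl
  | succ n ih =>
    refine (((gens_fin ω).image2 (fun x y => x * y) ih).union ih).subset ?_
    rintro _ ⟨l, hl, hs, rfl⟩
    rcases l with _ | ⟨x, l⟩
    · exact Or.inr ⟨[], Nat.zero_le _, by simp, rfl⟩
    · refine Or.inl ⟨x, hs x (by simp), l.prod, ⟨l, ?_, fun s h => hs s (by simp [h]), rfl⟩, ?_⟩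
      · simp only [List.length_cons] at hl
        omega
      · simp

theorem Bn_mono (ω : ℕ → Fin 3) {n m : ℕ} (h : n ≤ m) : Bn ω n ⊆ Bn ω m := by
  rintro _ ⟨l, hl, hs, rfl⟩
  exact ⟨l, hl.trans h, hs, rfl⟩

theorem Bn_one (ω : ℕ → Fin 3) (n : ℕ) : 1 ∈ Bn ω n := ⟨[], Nat.zero_le _, by simp, rfl⟩

theorem Bn_mul {ω : ℕ → Fin 3} {n m : ℕ} {x y : Pm} (hx : x ∈ Bn ω n) (hy : y ∈ Bn ω m) :
    x * y ∈ Bn ω (n + m) := by
  obtain ⟨l, hl, hs, rfl⟩ := hx
  obtain ⟨l', hl', hs', rfl⟩ := hy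
  refine ⟨l ++ l', ?_, ?_, List.prod_append⟩
  · rw [List.length_append]
    omega
  · intro s h
    rcases List.mem_append.1 h with h | h
    · exact hs s h
    · exact hs' s h

theorem Bn_gen {ω : ℕ → Fin 3} {s : Pm} (h : s ∈ gens ω) : s ∈ Bn ω 1 :=
  ⟨[s], by simp, by simpa using h, by simp⟩

theorem gens_inv {ω : ℕ → Fin 3} {s : Pm} (h : s ∈ gens ω) : s⁻¹ = s := by
  rcases gens_cases h with rfl | ⟨j, rfl⟩
  · exact inv_a
  · exact inv_gen _ _

theorem Bn_inv {ω : ℕ → Fin 3} {n : ℕ} {x : Pm} (hx : x ∈ Bn ω n) : x⁻¹ ∈ Bn ω n := by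
  obtain ⟨l, hl, hs, rfl⟩ := hx
  induction l generalizing n with
  | nil => exact ⟨[], Nat.zero_le _, by simp, by simp⟩
  | cons y l ih =>
    rw [List.prod_cons, mul_inv_rev, gens_inv (hs y (by simp))]
    simp only [List.length_cons] at hl
    have h1 := ih (n := n - 1) (by omega) fun s h => hs s (by simp [h])
    have h2 := Bn_mul h1 (Bn_gen (hs y (by simp)))
    rwa [Nat.sub_add_cancel (by omega)] at h2

theorem Bn_sub (ω : ℕ → Fin 3) (n : ℕ) {x : Pm} (hx : x ∈ Bn ω n) : x ∈ G ω := by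
  obtain ⟨l, hl, hs, rfl⟩ := hx
  exact (G ω).list_prod_mem fun s h => Subgroup.subset_closure (hs s h)

theorem exists_Bn (ω : ℕ → Fin 3) (g : Pm) (hg : g ∈ G ω) : ∃ n, g ∈ Bn ω n := by
  induction hg using Subgroup.closure_induction with
  | mem x hx => exact ⟨1, Bn_gen hx⟩
  | one => exact ⟨0, Bn_one ω 0⟩
  | mul x y _ _ hx hy =>
    obtain ⟨n, hx⟩ := hx
    obtain ⟨m, hy⟩ := hy
    exact ⟨n + m, Bn_mul hx hy⟩
  | inv x _ hx =>
    obtain ⟨n, hx⟩ := hx
    exact ⟨n, Bn_inv hx⟩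

/-- the growth function -/
noncomputable def gr (ω : ℕ → Fin 3) (n : ℕ) : ℕ := (Bn ω n).ncard

theorem gr_mono (ω : ℕ → Fin 3) {n m : ℕ} (h : n ≤ m) : gr ω n ≤ gr ω m :=
  Set.ncard_le_ncard (Bn_mono ω h) (Bn_fin ω m)

/-! ### Runs -/

/-- one step -/
def stp (ω : ℕ → Fin 3) (j0 j1 : Fin 3) (s : Bool) : Pm :=
  a * gen ω j1 * (if s then gen ω j0 else 1)

theorem stp_io {ω : ℕ → Fin 3} {j0 j1 : Fin 3} (h0 : bz j0 (ω 0) = 1) (h1 : bz j1 (ω 0) = a)
    (s : Bool) : stp ω j0 j1 s = io (a, gen (sh ω) j1 * (if s then gen (sh ω) j0 else 1), true) := by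
  unfold stp
  rw [gen_eq_io ω j1, a_io, h1]
  cases s
  · simp
  · rw [if_pos rfl, if_pos rfl, gen_eq_io ω j0, h0, io_mul_false, mul_one]
    rfl

theorem stp_two {ω : ℕ → Fin 3} {j0 j1 : Fin 3} (h0 : bz j0 (ω 0) = 1) (h1 : bz j1 (ω 0) = a)
    (s s' : Bool) : stp ω j0 j1 s * stp ω j0 j1 s' =
      io (a * stp (sh ω) j0 j1 s * a, stp (sh ω) j0 j1 s', false) := by
  rw [stp_io h0 h1, stp_io h0 h1, io_mul_true]
  have e1 : a * stp (sh ω) j0 j1 s * a = gen (sh ω) j1 * (if s then gen (sh ω) j0 else 1) * a := by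
    unfold stp
    rw [← mul_assoc, ← mul_assoc, a_sq, one_mul]
  have e2 : stp (sh ω) j0 j1 s' = a * (gen (sh ω) j1 * (if s' then gen (sh ω) j0 else 1)) := by
    unfold stp
    rw [mul_assoc]
  rw [e1, e2]
  rfl

/-- the product of the steps -/
def pst (ω : ℕ → Fin 3) (j0 j1 : Fin 3) (S : List Bool) : Pm := (S.map (stp ω j0 j1)).prod

/-- interleaving -/
def ilv : List Bool → List Bool → List Bool
  | s :: S, s' :: S' => s :: s' :: ilv S S'
  | _, _ => []

theorem ilv_length : ∀ (k : ℕ) (S S' : List Bool), S.length = k → S'.length = k →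
    (ilv S S').length = 2 * k := by
  intro k
  induction k with
  | zero =>
    intro S S' h h'
    rw [List.length_eq_zero_iff] at h
    rw [h]
    rfl
  | succ k ih =>
    intro S S' h h'
    rcases S with _ | ⟨s, S⟩
    · simp at h
    rcases S' with _ | ⟨s', S'⟩
    · simp at h'
    simp only [List.length_cons, Nat.add_right_cancel_iff] at h h'
    simp only [ilv, List.length_cons, ih S S' h h']
    ring

theorem pst_ilv {ω : ℕ → Fin 3} {j0 j1 : Fin 3} (h0 : bz j0 (ω 0) = 1) (h1 : bz j1 (ω 0) = a) :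
    ∀ (k : ℕ) (S S' : List Bool), S.length = k → S'.length = k → pst ω j0 j1 (ilv S S') =
      io (a * pst (sh ω) j0 j1 S * a, pst (sh ω) j0 j1 S', false) := by
  intro k
  induction k with
  | zero =>
    intro S S' h h'
    rw [List.length_eq_zero_iff] at h h'
    subst h
    subst h'
    show (1 : Pm) = io (a * 1 * a, 1, false)
    rw [mul_one, a_sq, io_one]
  | succ k ih =>
    intro S S' h h'
    rcases S with _ | ⟨s, S⟩
    · simp at h
    rcases S' with _ | ⟨s', S'⟩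
    · simp at h'
    simp only [List.length_cons, Nat.add_right_cancel_iff] at h h'
    have h2 := ih S S' h h'
    have e1 : pst ω j0 j1 (ilv (s :: S) (s' :: S')) =
        stp ω j0 j1 s * stp ω j0 j1 s' * pst ω j0 j1 (ilv S S') := by
      unfold pst
      simp [ilv, mul_assoc]
    have e2 : ∀ (x : Bool) (X : List Bool), pst (sh ω) j0 j1 (x :: X) =
        stp (sh ω) j0 j1 x * pst (sh ω) j0 j1 X := by
      intro x X
      unfold pst
      simp
    rw [e1, h2, stp_two h0 h1, io_mul_false, e2, e2]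
    have e3 : a * stp (sh ω) j0 j1 s * a * (a * pst (sh ω) j0 j1 S * a) =
        a * (stp (sh ω) j0 j1 s * pst (sh ω) j0 j1 S) * a := by
      calc a * stp (sh ω) j0 j1 s * a * (a * pst (sh ω) j0 j1 S * a)
          = a * stp (sh ω) j0 j1 s * (a * a) * pst (sh ω) j0 j1 S * a := by group
        _ = _ := by rw [a_sq, mul_one]; group
    rw [e3]

theorem pst_ball (ω : ℕ → Fin 3) (j0 j1 : Fin 3) (S : List Bool) :
    pst ω j0 j1 S ∈ Bn ω (3 * S.length) := by
  induction S with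
  | nil => exact Bn_one ω 0
  | cons s S ih =>
    have h1 : stp ω j0 j1 s ∈ Bn ω 3 := by
      unfold stp
      have ha : a ∈ Bn ω 1 := Bn_gen (Or.inl rfl)
      have hg : ∀ j, gen ω j ∈ Bn ω 1 := by
        intro j
        refine Bn_gen ?_
        fin_cases j
        · exact Or.inr (Or.inl rfl)
        · exact Or.inr (Or.inr (Or.inl rfl))
        · exact Or.inr (Or.inr (Or.inr rfl))
      have h2 := Bn_mul ha (hg j1)
      cases s
      · exact Bn_mono ω (by norm_num) (Bn_mul h2 (Bn_one ω 1))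
      · exact Bn_mul h2 (hg j0)
    have h2 : pst ω j0 j1 (s :: S) = stp ω j0 j1 s * pst ω j0 j1 S := by
      unfold pst
      simp
    rw [h2]
    exact Bn_mono ω (by rw [List.length_cons]; ring_nf; omega) (Bn_mul h1 ih)

/-- many elements -/
theorem exists_many {j0 j1 : Fin 3} (r : ℕ) : ∀ ω : ℕ → Fin 3,
    (∀ m, m < r → bz j0 (ω m) = 1 ∧ bz j1 (ω m) = a) → gen (shk r ω) j0 ≠ 1 →
    ∃ Y : Finset Pm, Y.card = 2 ^ 2 ^ r ∧
      ∀ g ∈ Y, ∃ S : List Bool, S.length = 2 ^ r ∧ g = pst ω j0 j1 S := by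
  classical
  induction r with
  | zero =>
    intro ω _ hne
    have h1 : shk 0 ω = ω := by
      funext n
      exact congrArg ω (zero_add n)
    rw [h1] at hne
    refine ⟨{pst ω j0 j1 [false], pst ω j0 j1 [true]}, ?_, ?_⟩
    · rw [Finset.card_pair]
      · rfl
      · intro h
        apply hne
        simp only [pst, stp, List.map_cons, List.map_nil, List.prod_cons, List.prod_nil, mul_one,
          if_true, Bool.false_eq_true, if_false] at h
        exact (mul_eq_left.1 h.symm)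
    · intro g hg
      rw [Finset.mem_insert, Finset.mem_singleton] at hg
      rcases hg with h | h
      · exact ⟨[false], rfl, h⟩
      · exact ⟨[true], rfl, h⟩
  | succ r ih =>
    intro ω h hne
    have h1 : shk (r + 1) ω = shk r (sh ω) := by
      funext n
      exact congrArg ω (by omega)
    rw [h1] at hne
    obtain ⟨Y, hY, hS⟩ := ih (sh ω) (fun m hm => h (m + 1) (by omega)) hne
    obtain ⟨h0, h0'⟩ := h 0 (by omega)
    refine ⟨(Y ×ˢ Y).image fun p => io (a * p.1 * a, p.2, false), ?_, ?_⟩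
    · rw [Finset.card_image_of_injective, Finset.card_product, hY, ← pow_add]
      · congr 1
        rw [pow_succ]
        ring
      · rintro ⟨x, y⟩ ⟨x', y'⟩ hxy
        have h2 := io_inj hxy
        simp only [Prod.mk.injEq] at h2
        obtain ⟨h3, h4, _⟩ := h2
        have h5 : x = x' := mul_left_cancel (mul_right_cancel h3)
        rw [h5, h4]
    · intro g hg
      obtain ⟨⟨x, y⟩, hxy, rfl⟩ := Finset.mem_image.1 hg
      rw [Finset.mem_product] at hxy
      obtain ⟨S, hS1, hS2⟩ := hS x hxy.1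
      obtain ⟨S', hS1', hS2'⟩ := hS y hxy.2
      refine ⟨ilv S S', ?_, ?_⟩
      · rw [ilv_length _ S S' hS1 hS1', pow_succ]
        ring
      · rw [pst_ilv h0 h0' _ S S' hS1 hS1']
        simp only
        rw [hS2, hS2']

theorem gr_run {j0 j1 : Fin 3} (r : ℕ) (ω : ℕ → Fin 3)
    (h : ∀ m, m < r → bz j0 (ω m) = 1 ∧ bz j1 (ω m) = a) (hne : gen (shk r ω) j0 ≠ 1) :
    2 ^ 2 ^ r ≤ gr ω (3 * 2 ^ r) := by
  obtain ⟨Y, hY, hS⟩ := exists_many r ω h hne
  rw [← hY, ← Set.ncard_coe_finset]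
  refine Set.ncard_le_ncard ?_ (Bn_fin ω _)
  intro g hg
  obtain ⟨S, hS1, hS2⟩ := hS g hg
  rw [hS2, ← hS1]
  exact pst_ball ω j0 j1 S

theorem lift_one (ω : ℕ → Fin 3) (n : ℕ) (g : Pm) (hg : g ∈ Bn (sh ω) n) :
    ∃ h0, io (h0, g, false) ∈ Bn ω (3 * n) := by
  obtain ⟨l, hl, hs, rfl⟩ := hg
  induction l generalizing n with
  | nil => exact ⟨1, by rw [List.prod_nil, io_one]; exact Bn_one _ _⟩
  | cons y l ih =>
    simp only [List.length_cons] at hl
    obtain ⟨h0, hh⟩ := ih (n - 1) (by omega) fun s h => hs s (by simp [h])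
    have ha : a ∈ Bn ω 1 := Bn_gen (Or.inl rfl)
    have hgj : ∀ j, gen ω j ∈ Bn ω 1 := by
      intro j
      refine Bn_gen ?_
      fin_cases j
      · exact Or.inr (Or.inl rfl)
      · exact Or.inr (Or.inr (Or.inl rfl))
      · exact Or.inr (Or.inr (Or.inr rfl))
    have h2 : ∃ k0, io (k0, y, false) ∈ Bn ω 3 := by
      rcases gens_cases (hs y (by simp)) with rfl | ⟨j, rfl⟩
      · obtain ⟨j, hj⟩ := exists_active (ω 0)
        refine ⟨gen (sh ω) j, ?_⟩
        have h3 := Bn_mul (Bn_mul ha (hgj j)) ha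
        rwa [gen_eq_io ω j, a_conj, hj] at h3
      · refine ⟨bz j (ω 0), ?_⟩
        rw [← gen_eq_io]
        exact Bn_mono ω (by norm_num) (hgj j)
    obtain ⟨k0, hk⟩ := h2
    refine ⟨k0 * h0, ?_⟩
    have h3 := Bn_mul hk hh
    rw [io_mul_false] at h3
    rw [List.prod_cons]
    exact Bn_mono ω (by omega) h3

theorem gr_sh (ω : ℕ → Fin 3) (n : ℕ) : gr (sh ω) n ≤ gr ω (3 * n) := by
  choose! f hf using lift_one ω n
  refine Set.ncard_le_ncard_of_injOn (fun g => io (f g, g, false)) (fun g hg => hf g hg) ?_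
    (Bn_fin ω _)
  intro x _ y _ hxy
  have h := io_inj hxy
  simp only [Prod.mk.injEq] at h
  exact h.2.1

theorem gr_shk (k n : ℕ) : ∀ ω : ℕ → Fin 3, gr (shk k ω) n ≤ gr ω (3 ^ k * n) := by
  induction k generalizing n with
  | zero =>
    intro ω
    have h1 : shk 0 ω = ω := by
      funext n
      exact congrArg ω (zero_add n)
    rw [h1, pow_zero, one_mul]
  | succ k ih =>
    intro ω
    have h1 : shk (k + 1) ω = shk k (sh ω) := by
      funext n
      exact congrArg ω (by omega)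
    rw [h1, pow_succ]
    refine (ih n (sh ω)).trans ((gr_sh ω _).trans (le_of_eq ?_))
    congr 1
    ring

end Pool.Agent.H361.FU
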