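import Pool.Agent.H361.FU.Gr1
import Pool.Graph.R_seed8.Results.MP_fbbd83_al.SlowGaps

/-!
# Growth of the groups `G_ω`: tails, runs and blocks
-/

set_option autoImplicit false

namespace Pool.Agent.H361.FU

open Pool.Agent.Results.MP_0b0f5a_al.LowerBounds Filter Topology

theorem gr_transfer (ω ω' : ℕ → Fin 3) (h : Cf (G ω') (G ω)) :
    ∃ Q M : ℕ, ∀ n, gr ω n ≤ Q * gr ω' (M * n) := by
  classical
  set H : Subgroup (G ω) := (G ω').subgroupOf (G ω) with hH
  have hfq : Finite (G ω ⧸ H) := finite_quot h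
  let _ : Fintype (G ω ⧸ H) := Fintype.ofFinite _
  have hh : ∀ (o : Option (Fin 3)) (q : G ω ⧸ H), (gq ω o • q).out⁻¹ * (gq ω o * q.out) ∈ H := by
    intro o q
    rw [← QuotientGroup.eq, QuotientGroup.out_eq']
    conv_lhs => rw [← QuotientGroup.out_eq' q]
    rfl
  choose m hm using fun p : Option (Fin 3) × (G ω ⧸ H) =>
    exists_Bn ω' (((gq ω p.1 • p.2).out⁻¹ * (gq ω p.1 * p.2.out) : G ω) : Pm) (hh p.1 p.2)
  set M : ℕ := ∑ p, m p with hM
  have hmM : ∀ p, m p ≤ M := fun p =>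
    Finset.single_le_sum (f := m) (fun _ _ => Nat.zero_le _) (Finset.mem_univ p)
  have key : ∀ l : List Pm, (∀ s ∈ l, s ∈ gens ω) → ∀ q : G ω ⧸ H, ∃ g : G ω, (g : Pm) = l.prod ∧
      (((g • q).out⁻¹ * (g * q.out) : G ω) : Pm) ∈ Bn ω' (M * l.length) := by
    intro l
    induction l with
    | nil =>
      intro _ q
      refine ⟨1, rfl, ?_⟩
      rw [one_smul, one_mul, inv_mul_cancel]
      exact Bn_one _ _
    | cons s l ih =>
      intro hs q
      obtain ⟨g, hg, hg2⟩ := ih (fun s h => hs s (by simp [h])) q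
      obtain ⟨o, ho⟩ := gq_surj ω ⟨s, Subgroup.subset_closure (hs s (by simp))⟩ (hs s (by simp))
      refine ⟨gq ω o * g, ?_, ?_⟩
      · rw [List.prod_cons, ← hg, ← ho]
        rfl
      · have h1 := Bn_mono ω' (hmM (o, g • q)) (hm (o, g • q))
        have h2 := Bn_mul h1 hg2
        have h3 : (((gq ω o * g) • q).out⁻¹ * (gq ω o * g * q.out) : G ω) =
            (gq ω o • (g • q)).out⁻¹ * (gq ω o * (g • q).out) * ((g • q).out⁻¹ * (g * q.out)) := by
          rw [mul_smul]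
          group
        rw [h3]
        refine Bn_mono ω' ?_ h2
        rw [List.length_cons]
        ring_nf
        omega
  refine ⟨Fintype.card (G ω ⧸ H), M, fun n => ?_⟩
  set q0 : G ω ⧸ H := ((1 : G ω) : G ω ⧸ H) with hq0
  have hsub : Bn ω n ⊆ (fun p : (G ω ⧸ H) × Pm => (p.1.out : Pm) * p.2 * ((q0.out : G ω) : Pm)⁻¹) ''
      ((Set.univ : Set (G ω ⧸ H)) ×ˢ Bn ω' (M * n)) := by
    rintro _ ⟨l, hl, hs, rfl⟩
    obtain ⟨g, hg, hg2⟩ := key l hs q0
    refine ⟨(g • q0, (((g • q0).out⁻¹ * (g * q0.out) : G ω) : Pm)),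
      ⟨trivial, Bn_mono ω' (Nat.mul_le_mul_left M hl) hg2⟩, ?_⟩
    rw [← hg]
    show ((g • q0).out : Pm) * (((g • q0).out : Pm)⁻¹ * ((g : Pm) * (q0.out : Pm))) *
      (q0.out : Pm)⁻¹ = (g : Pm)
    group
  have hfin : ((Set.univ : Set (G ω ⧸ H)) ×ˢ Bn ω' (M * n)).Finite :=
    Set.finite_univ.prod (Bn_fin ω' _)
  refine (Set.ncard_le_ncard hsub (hfin.image _)).trans ((Set.ncard_image_le hfin).trans ?_)
  rw [Set.ncard_prod, Set.ncard_univ, Nat.card_eq_fintype_card]
  exact le_rfl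

theorem Xi_infinite {ω : ℕ → Fin 3} (h : Xi ω) : (G ω : Set Pm).Infinite := by
  intro hfin
  have hf : Finite (G ω) := hfin
  obtain ⟨n, hn, h1⟩ := (result ω h).1 ((Set.univ : Set (G ω)).ncard : ℝ)
  have h2 := h1 Set.univ Set.finite_univ Set.univ_nonempty (by
    intro s _
    have h3 : (fun x : G ω => s * x) '' Set.univ = Set.univ := by
      rw [Set.image_univ]
      exact Set.range_eq_univ.2 (mul_left_surjective s)
    rw [h3, symmDiff_self]
    have h4 : (0 : ℝ) < n := by exact_mod_cast hn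
    simp only [Set.bot_eq_empty, Set.ncard_empty, Nat.cast_zero, zero_div]
    positivity)
  have h3 : (1 : ℝ) ≤ Real.exp (((Set.univ : Set (G ω)).ncard : ℝ) * n) := by
    apply Real.one_le_exp
    positivity
  have h4 : (0 : ℝ) ≤ ((Set.univ : Set (G ω)).ncard : ℝ) := Nat.cast_nonneg _
  nlinarith

theorem gr_double {ω : ℕ → Fin 3} (hinf : (G ω : Set Pm).Infinite) (N : ℕ) :
    2 * gr ω N ≤ gr ω (3 * N + 1) := by
  obtain ⟨g, hg, hg'⟩ : ∃ g ∈ Bn ω (2 * N + 1), g ∉ Bn ω (2 * N) := by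
    by_contra hc
    push Not at hc
    have h1 : ∀ (k : ℕ) (l : List Pm), l.length ≤ k → (∀ s ∈ l, s ∈ gens ω) →
        l.prod ∈ Bn ω (2 * N) := by
      intro k
      induction k with
      | zero =>
        intro l hl _
        have h1 : l = [] := List.length_eq_zero_iff.1 (Nat.le_zero.1 hl)
        rw [h1]
        exact Bn_one ω _
      | succ k ih =>
        intro l hl hs
        rcases l with _ | ⟨s, l⟩
        · exact Bn_one ω _
        · rw [List.prod_cons]
          have h2 := ih l (by simp only [List.length_cons] at hl; omega) fun s h => hs s (by simp [h])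
          have h3 := Bn_mul (Bn_gen (hs s (by simp))) h2
          exact hc _ (Bn_mono ω (by omega) h3)
    refine hinf ((Bn_fin ω (2 * N)).subset fun x hx => ?_)
    obtain ⟨n, l, hl, hs, rfl⟩ := exists_Bn ω x hx
    exact h1 n l hl hs
  have hdis : Disjoint ((fun x => g * x) '' Bn ω N) (Bn ω N) := by
    rw [Set.disjoint_left]
    rintro _ ⟨x, hx, rfl⟩ hgx
    apply hg'
    have h1 := Bn_mul hgx (Bn_inv hx)
    have h2 : g * x * x⁻¹ = g := mul_inv_cancel_right g x
    show g ∈ Bn ω (2 * N)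
    rw [← h2, two_mul]
    exact h1
  have hsub : ((fun x => g * x) '' Bn ω N) ∪ Bn ω N ⊆ Bn ω (3 * N + 1) := by
    rintro x (⟨y, hy, rfl⟩ | hx)
    · exact Bn_mono ω (by omega) (Bn_mul hg hy)
    · exact Bn_mono ω (by omega) hx
  have h1 := Set.ncard_le_ncard hsub (Bn_fin ω _)
  rw [Set.ncard_union_eq hdis ((Bn_fin ω N).image _) (Bn_fin ω N),
    Set.ncard_image_of_injective _ (mul_right_injective g)] at h1
  unfold gr
  omega

/-- `f ≼ f'` for growth functions -/
def GLe (f f' : ℕ → ℕ) : Prop := ∃ C : ℕ, ∀ n, f n ≤ f' (C * n)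

theorem gr_pow {ω : ℕ → Fin 3} (hinf : (G ω : Set Pm).Infinite) (e N : ℕ) (hN : 1 ≤ N) :
    2 ^ e * gr ω N ≤ gr ω (4 ^ e * N) := by
  induction e with
  | zero => rw [pow_zero, pow_zero, one_mul, one_mul]
  | succ e ih =>
    have h1 := gr_double hinf (4 ^ e * N)
    have h2 : 1 ≤ 4 ^ e * N := Nat.mul_pos (by positivity) hN
    calc 2 ^ (e + 1) * gr ω N = 2 * (2 ^ e * gr ω N) := by rw [pow_succ]; ring
      _ ≤ 2 * gr ω (4 ^ e * N) := Nat.mul_le_mul_left 2 ih
      _ ≤ gr ω (3 * (4 ^ e * N) + 1) := h1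
      _ ≤ gr ω (4 ^ (e + 1) * N) := gr_mono ω (by
          rw [pow_succ, mul_comm (4 ^ e) 4, mul_assoc]
          omega)

theorem gr_zero (ω : ℕ → Fin 3) : gr ω 0 = 1 := by
  have h1 : Bn ω 0 = {1} := by
    ext x
    constructor
    · rintro ⟨l, hl, _, rfl⟩
      have h1 : l = [] := List.length_eq_zero_iff.1 (Nat.le_zero.1 hl)
      rw [h1]
      rfl
    · intro hx
      rw [Set.mem_singleton_iff] at hx
      rw [hx]
      exact Bn_one ω 0
  rw [gr, h1, Set.ncard_singleton]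

theorem gr_tail {ω ω' : ℕ → Fin 3} (h : Xi ω) (K : ℕ) (hK : ∀ n, K ≤ n → ω n = ω' n) :
    GLe (gr ω') (gr ω) := by
  obtain ⟨Q, M, hQ⟩ := gr_transfer ω' ω (cf_tail K ω ω' (Xi_nc h) hK)
  refine ⟨4 ^ Q * (M + 1), fun n => ?_⟩
  rcases Nat.eq_zero_or_pos n with h0 | h0
  · rw [h0, mul_zero, gr_zero, gr_zero]
  · calc gr ω' n ≤ Q * gr ω (M * n) := hQ n
      _ ≤ 2 ^ Q * gr ω ((M + 1) * n) :=
          Nat.mul_le_mul Nat.lt_two_pow_self.le (gr_mono ω (Nat.mul_le_mul_right n (by omega)))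
      _ ≤ gr ω (4 ^ Q * ((M + 1) * n)) := gr_pow (Xi_infinite h) Q _ (Nat.mul_pos (by omega) h0)
      _ = gr ω (4 ^ Q * (M + 1) * n) := by rw [mul_assoc]

/-! ### The library's ball function -/

open Pool.Agent.H776R2.Om in
theorem xx_gen (ω : ℕ → Fin 3) : xx ω .b = gen ω 0 ∧ xx ω .c = gen ω 1 ∧ xx ω .d = gen ω 2 := by
  have haf : ∀ v, Pool.Agent.Results.MP_03d093_al.SphereBall.aFun v = aMap v := by
    rintro (_ | ⟨x, v⟩) <;> rfl
  refine ⟨?_, ?_, ?_⟩
  · ext1 v
    change xFun .b ω v = bcd 0 v ω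
    induction v generalizing ω with
    | nil => rfl
    | cons x v ih =>
      cases x
      · change false :: (if col (ω 0) .b = true then _ else v) = false :: bzd 0 (ω 0) v
        rw [haf]
        generalize ω 0 = i
        fin_cases i <;> rfl
      · change true :: xFun .b (fun n => ω (n + 1)) v = true :: bcd 0 v _
        rw [ih]
  · ext1 v
    change xFun .c ω v = bcd 1 v ω
    induction v generalizing ω with
    | nil => rfl
    | cons x v ih =>
      cases x
      · change false :: (if col (ω 0) .c = true then _ else v) = false :: bzd 1 (ω 0) v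
        rw [haf]
        generalize ω 0 = i
        fin_cases i <;> rfl
      · change true :: xFun .c (fun n => ω (n + 1)) v = true :: bcd 1 v _
        rw [ih]
  · ext1 v
    change xFun .d ω v = bcd 2 v ω
    induction v generalizing ω with
    | nil => rfl
    | cons x v ih =>
      cases x
      · change false :: (if col (ω 0) .d = true then _ else v) = false :: bzd 2 (ω 0) v
        rw [haf]
        generalize ω 0 = i
        fin_cases i <;> rfl
      · change true :: xFun .d (fun n => ω (n + 1)) v = true :: bcd 2 v _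
        rw [ih]

theorem aa_eq : Pool.Agent.Results.MP_03d093_al.SphereBall.a = a := by
  ext1 v
  rcases v with _ | ⟨x, v⟩ <;> rfl

open Pool.Agent.H776R2.Om in
theorem ballO_eq (ω : ℕ → Fin 3) (n : ℕ) : ballO ω n = gr ω n := by
  obtain ⟨e0, e1, e2⟩ := xx_gen ω
  have hmem : ∀ s : Pm, (s = Pool.Agent.Results.MP_03d093_al.SphereBall.a ∨ s = xx ω .b ∨
      s = xx ω .c ∨ s = xx ω .d) ↔ s ∈ gens ω := by
    intro s
    rw [aa_eq, e0, e1, e2]
    rfl
  have hG : Gom ω = G ω := by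
    unfold Gom G gens
    rw [aa_eq, e0, e1, e2]
  have hlen : ∀ g : Gom ω, lenO ω g ≤ n ↔ (g : Pm) ∈ Bn ω n := by
    intro g
    constructor
    · intro h
      have hne : {n : ℕ | ∃ l : List Pm, l.length = n ∧
          (∀ s ∈ l, s = Pool.Agent.Results.MP_03d093_al.SphereBall.a ∨ s = xx ω .b ∨
            s = xx ω .c ∨ s = xx ω .d) ∧ l.prod = (g : Pm)}.Nonempty := by
        obtain ⟨m, l, hl, hs, hp⟩ := exists_Bn ω g (by rw [← hG]; exact g.2)
        exact ⟨l.length, l, rfl, fun s h => (hmem s).2 (hs s h), hp⟩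
      obtain ⟨l, hl, hs, hp⟩ := Nat.sInf_mem hne
      exact ⟨l, hl.le.trans h, fun s h => (hmem s).1 (hs s h), hp⟩
    · rintro ⟨l, hl, hs, hp⟩
      refine le_trans (Nat.sInf_le ?_) hl
      exact ⟨l, rfl, fun s h => (hmem s).2 (hs s h), hp⟩
  unfold ballO gr
  rw [← Nat.card_coe_set_eq]
  refine Nat.card_congr (Equiv.ofBijective (fun g : {g : Gom ω // lenO ω g ≤ n} =>
    (⟨((g : Gom ω) : Pm), (hlen g.1).1 g.2⟩ : Bn ω n)) ⟨?_, ?_⟩)
  · intro x y hxy
    have h1 : ((x.1 : Gom ω) : Pm) = ((y.1 : Gom ω) : Pm) :=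
      congrArg (fun z : Bn ω n => (z : Pm)) hxy
    exact Subtype.ext (Subtype.ext h1)
  · rintro ⟨x, hx⟩
    have hxG : x ∈ Gom ω := by
      rw [hG]
      exact Bn_sub ω n hx
    exact ⟨⟨⟨x, hxG⟩, (hlen ⟨x, hxG⟩).2 hx⟩, rfl⟩

/-! ### Blocks -/

open Pool.Agent.H776R2.Om Pool.Agent.Results.MP_03d093_al.SphereBall in
theorem nn_le (ω : ℕ → Fin 3) (k : ℕ) : ∀ x, nn ω k x ≤ 3 ^ k := by
  induction k with
  | zero => exact fun x => le_rfl
  | succ k ih =>
    intro x
    have h1 := ih .b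
    have h2 := ih .c
    have h3 := ih .d
    have h4 := ih x
    simp only [nn]
    rw [pow_succ]
    split_ifs <;> omega

/-- the letters `0, 1, 2` periodically at the places `k`, …, `k + 3 j - 1` -/
def Blk (ω : ℕ → Fin 3) (k j : ℕ) : Prop :=
  ∀ i, i < j → ω (k + 3 * i) = 0 ∧ ω (k + 3 * i + 1) = 1 ∧ ω (k + 3 * i + 2) = 2

open Pool.Agent.H776R2.Om Pool.Agent.Results.MP_03d093_al.SphereBall in
theorem nn_blk (ω : ℕ → Fin 3) (k j : ℕ) (h : Blk ω k j) :
    12 ^ j ≤ nn ω (k + 3 * j) .b ∧ 12 ^ j ≤ nn ω (k + 3 * j) .c ∧ 12 ^ j ≤ nn ω (k + 3 * j) .d := by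
  induction j with
  | zero =>
    have h1 : ∀ k x, 1 ≤ nn ω k x := by
      intro k
      induction k with
      | zero => exact fun x => le_rfl
      | succ k ih =>
        intro x
        have h1 := ih .b
        have h4 := ih x
        simp only [nn]
        split_ifs <;> omega
    exact ⟨h1 _ _, h1 _ _, h1 _ _⟩
  | succ j ih =>
    obtain ⟨hb, hc, hd⟩ := ih fun i hi => h i (by omega)
    obtain ⟨e0, e1, e2⟩ := h j (by omega)
    rw [show k + 3 * (j + 1) = k + 3 * j + 1 + 1 + 1 from by ring, pow_succ]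
    have s0 : ∀ x, nn ω (k + 3 * j + 1) x = if x = .d then nn ω (k + 3 * j) .b +
        nn ω (k + 3 * j) .c + nn ω (k + 3 * j) .d else 2 * nn ω (k + 3 * j) x := by
      intro x
      simp only [nn]
      rw [e0]
      rfl
    have s1 : ∀ x, nn ω (k + 3 * j + 1 + 1) x = if x = .c then nn ω (k + 3 * j + 1) .b +
        nn ω (k + 3 * j + 1) .c + nn ω (k + 3 * j + 1) .d else 2 * nn ω (k + 3 * j + 1) x := by
      intro x
      rw [nn, e1]
      rfl
    have s2 : ∀ x, nn ω (k + 3 * j + 1 + 1 + 1) x = if x = .b then nn ω (k + 3 * j + 1 + 1) .b +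
        nn ω (k + 3 * j + 1 + 1) .c + nn ω (k + 3 * j + 1 + 1) .d
        else 2 * nn ω (k + 3 * j + 1 + 1) x := by
      intro x
      rw [nn, show k + 3 * j + 1 + 1 = k + 3 * j + 2 from rfl, e2]
      rfl
    have b0 := s0 .b
    have c0 := s0 .c
    have d0 := s0 .d
    have b1 := s1 .b
    have c1 := s1 .c
    have d1 := s1 .d
    have b2 := s2 .b
    have c2 := s2 .c
    have d2 := s2 .d
    simp only [reduceCtorEq, if_false, if_true] at b0 c0 d0 b1 c1 d1 b2 c2 d2
    omega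

end Pool.Agent.H361.FU
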