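import Pool.Agent.H361.FU.Gr2

/-!
# Growth of the groups `G_ω`: generic pairs and invariants
-/

set_option autoImplicit false

namespace Pool.Agent.H361.FU

open Pool.Agent.Results.MP_0b0f5a_al.LowerBounds Filter Topology

/-- the upper bound for a block -/
theorem gr_blk : ∃ C : ℝ, 0 < C ∧ ∀ (ω : ℕ → Fin 3) (K j n : ℕ), Blk ω K j →
    (gr ω n : ℝ) ≤ Real.exp (C * 2 ^ K * (2 / 3) ^ j * (n + 3 ^ (K + 3 * j))) := by
  obtain ⟨C, hC, h⟩ := Pool.Agent.Results.MP_fbbd83_al.SlowGaps.upper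
  refine ⟨C, hC, fun ω K j n hb => ?_⟩
  have h1 := (h ω).1 (K + 3 * j) n
  rw [ballO_eq] at h1
  refine h1.trans (Real.exp_le_exp.2 ?_)
  obtain ⟨nb, nc, nd⟩ := nn_blk ω K j hb
  have hmin : 12 ^ j ≤ min (Pool.Agent.H776R2.Om.nn ω (K + 3 * j) .b)
      (min (Pool.Agent.H776R2.Om.nn ω (K + 3 * j) .c) (Pool.Agent.H776R2.Om.nn ω (K + 3 * j) .d)) :=
    le_min nb (le_min nc nd)
  have hell : Pool.Agent.H776R2.Om.ell ω (K + 3 * j) ≤ 3 ^ (K + 3 * j) :=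
    max_le (nn_le ω _ _) (max_le (nn_le ω _ _) (nn_le ω _ _))
  have hmin' : (12 : ℝ) ^ j ≤ ((min (Pool.Agent.H776R2.Om.nn ω (K + 3 * j) .b)
      (min (Pool.Agent.H776R2.Om.nn ω (K + 3 * j) .c)
        (Pool.Agent.H776R2.Om.nn ω (K + 3 * j) .d)) : ℕ) : ℝ) := by exact_mod_cast hmin
  have hell' : ((n + Pool.Agent.H776R2.Om.ell ω (K + 3 * j) : ℕ) : ℝ) ≤ n + 3 ^ (K + 3 * j) := by
    push_cast
    have : (Pool.Agent.H776R2.Om.ell ω (K + 3 * j) : ℝ) ≤ 3 ^ (K + 3 * j) := by exact_mod_cast hell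
    linarith
  calc C * 2 ^ (K + 3 * j) * (((n + Pool.Agent.H776R2.Om.ell ω (K + 3 * j) : ℕ) : ℝ) /
        ((min (Pool.Agent.H776R2.Om.nn ω (K + 3 * j) .b)
          (min (Pool.Agent.H776R2.Om.nn ω (K + 3 * j) .c)
            (Pool.Agent.H776R2.Om.nn ω (K + 3 * j) .d)) : ℕ) : ℝ))
      ≤ C * 2 ^ (K + 3 * j) * ((n + 3 ^ (K + 3 * j)) / 12 ^ j) := by
        apply mul_le_mul_of_nonneg_left _ (by positivity)
        exact div_le_div₀ (by positivity) hell' (by positivity) hmin'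
    _ = C * 2 ^ K * (2 / 3) ^ j * (n + 3 ^ (K + 3 * j)) := by
        have h2 : (2 : ℝ) ^ (K + 3 * j) = 2 ^ K * 8 ^ j := by
          rw [pow_add, pow_mul]
          norm_num
        have h3 : (8 : ℝ) ^ j / 12 ^ j = (2 / 3) ^ j := by
          rw [← div_pow]
          norm_num
        rw [h2, ← h3]
        ring

theorem exists_j (D : ℝ) : ∃ j : ℕ, (2 / 3 : ℝ) ^ j * D < Real.log 2 := by
  have h1 : Tendsto (fun j : ℕ => (2 / 3 : ℝ) ^ j * D) atTop (𝓝 (0 * D)) :=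
    (tendsto_pow_atTop_nhds_zero_of_lt_one (by norm_num) (by norm_num)).mul_const D
  rw [zero_mul] at h1
  exact (h1.eventually_lt_const (Real.log_pos (by norm_num))).exists

/-- comparison of a run with a block -/
theorem gr_gap (K C : ℕ) : ∃ j r : ℕ, ∀ ω ω' : ℕ → Fin 3, (∀ m, m < r → ω (K + m) = 0) →
    ω (K + r) = 1 → Blk ω' K j → ∃ n, gr ω' (C * n) < gr ω n := by
  obtain ⟨C1, hC1, hblk⟩ := gr_blk
  obtain ⟨j, hj⟩ := exists_j (C1 * 2 ^ K * (C + 1) * 3 ^ (K + 1))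
  refine ⟨j, 6 * j, fun ω ω' hrun hlast hb => ⟨3 ^ K * (3 * 2 ^ (6 * j)), ?_⟩⟩
  have hb2 : bz 2 0 = 1 := by
    ext1 v
    rfl
  have hb0 : bz 0 0 = a := by
    ext1 v
    rfl
  have hne : gen (shk (6 * j) (shk K ω)) 2 ≠ 1 := by
    intro h
    have h1 : (gen (shk (6 * j) (shk K ω)) 2) [false, false] = [false, true] := by
      change bcd 2 [false, false] _ = _
      change false :: bzd 2 (ω (K + (6 * j + 0))) [false] = _
      rw [add_zero, hlast]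
      rfl
    rw [h] at h1
    simp at h1
  have h1 : 2 ^ 2 ^ (6 * j) ≤ gr (shk K ω) (3 * 2 ^ (6 * j)) := by
    refine gr_run (j0 := 2) (j1 := 0) (6 * j) (shk K ω) (fun m hm => ?_) hne
    have h2 : shk K ω m = 0 := hrun m hm
    rw [h2]
    exact ⟨hb2, hb0⟩
  have h2 := h1.trans (gr_shk K _ ω)
  have h3 := hblk ω' K j (C * (3 ^ K * (3 * 2 ^ (6 * j)))) hb
  have h4 : (3 : ℝ) ^ (K + 3 * j) ≤ 3 ^ K * (3 * 2 ^ (6 * j)) := by
    rw [pow_add, pow_mul, pow_mul]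
    have h5 : ((3 : ℝ) ^ 3) ^ j ≤ (2 ^ 6) ^ j := by
      apply pow_le_pow_left₀ (by norm_num)
      norm_num
    have h6 : (0 : ℝ) < (2 ^ 6) ^ j := by positivity
    have h7 : (0 : ℝ) < 3 ^ K := by positivity
    nlinarith
  have h5 : (gr ω' (C * (3 ^ K * (3 * 2 ^ (6 * j)))) : ℝ) < 2 ^ 2 ^ (6 * j) := by
    refine lt_of_le_of_lt h3 ?_
    have h6 : (2 : ℝ) ^ 2 ^ (6 * j) = Real.exp (2 ^ (6 * j) * Real.log 2) := by
      have h7 : ((2 ^ (6 * j) : ℕ) : ℝ) = 2 ^ (6 * j) := by push_cast; rfl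
      rw [← h7, Real.exp_nat_mul, Real.exp_log (by norm_num)]
    rw [h6]
    apply Real.exp_lt_exp.2
    push_cast
    calc C1 * 2 ^ K * (2 / 3) ^ j * (C * (3 ^ K * (3 * 2 ^ (6 * j))) + 3 ^ (K + 3 * j))
        ≤ C1 * 2 ^ K * (2 / 3) ^ j * (C * (3 ^ K * (3 * 2 ^ (6 * j))) + 3 ^ K * (3 * 2 ^ (6 * j))) := by
          gcongr
      _ = 2 ^ (6 * j) * ((2 / 3) ^ j * (C1 * 2 ^ K * (C + 1) * 3 ^ (K + 1))) := by
          rw [pow_succ 3 K]
          ring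
      _ < 2 ^ (6 * j) * Real.log 2 := by
          apply mul_lt_mul_of_pos_left hj (by positivity)
  have h6 : (gr ω' (C * (3 ^ K * (3 * 2 ^ (6 * j)))) : ℝ) < gr ω (3 ^ K * (3 * 2 ^ (6 * j))) := by
    refine lt_of_lt_of_le h5 ?_
    exact_mod_cast h2
  exact_mod_cast h6

theorem cyl_gen (U : Set (ℕ → Fin 3)) (hU : IsOpen U) (hne : U.Nonempty) :
    ∃ κ0 : ℕ, ∀ κ, κ0 ≤ κ → ∀ (e : ℕ → Fin 3) (r : ℕ), ∃ V ⊆ U, IsOpen V ∧ V.Nonempty ∧
      ∀ ω ∈ V, ∀ m, m < r → ω (κ + m) = e m := by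
  obtain ⟨y, n, hy⟩ := exists_cyl U hU hne
  refine ⟨n, fun κ hκ e r => ?_⟩
  refine ⟨PiNat.cylinder (fun m => if m < κ then y m else e (m - κ)) (κ + r), ?_,
    PiNat.isOpen_cylinder _ _ _, ⟨_, PiNat.self_mem_cylinder _ _⟩, ?_⟩
  · intro z hz
    refine hy z fun i hi => ?_
    have h1 := hz i (by omega)
    rw [h1]
    exact if_pos (by omega)
  · intro ω hω m hm
    have h3 := hω (κ + m) (by omega)
    rw [h3]
    refine (if_neg (by omega)).trans ?_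
    rw [Nat.add_sub_cancel_left]

theorem gr_pair : ∀ᶠ p in residual ((ℕ → Fin 3) × (ℕ → Fin 3)), ¬ GLe (gr p.1) (gr p.2) := by
  have h1 : ∀ᶠ p in residual ((ℕ → Fin 3) × (ℕ → Fin 3)), ∀ C : ℕ, ∃ n,
      gr p.2 (C * n) < gr p.1 n := by
    rw [eventually_countable_forall]
    refine fun C => resid _ fun U hU ⟨⟨x, y⟩, hxy⟩ => ?_
    obtain ⟨u, v, hu, hv, hxu, hyv, huv⟩ := isOpen_prod_iff.1 hU x y hxy
    obtain ⟨κ1, h1⟩ := cyl_gen u hu ⟨x, hxu⟩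
    obtain ⟨κ2, h2⟩ := cyl_gen v hv ⟨y, hyv⟩
    obtain ⟨j, r, hr⟩ := gr_gap (max κ1 κ2) C
    obtain ⟨V, hV1, hV2, hV3, hV4⟩ := h1 (max κ1 κ2) (le_max_left _ _)
      (fun m => if m < r then 0 else 1) (r + 1)
    obtain ⟨W, hW1, hW2, hW3, hW4⟩ := h2 (max κ1 κ2) (le_max_right _ _)
      (fun m => if m % 3 = 0 then 0 else if m % 3 = 1 then 1 else 2) (3 * j)
    refine ⟨V ×ˢ W, (Set.prod_mono hV1 hW1).trans huv, hV2.prod hW2, hV3.prod hW3, ?_⟩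
    rintro ⟨ω, ω'⟩ ⟨hω, hω'⟩
    refine hr ω ω' (fun m hm => ?_) ?_ ?_
    · rw [hV4 ω hω m (by omega), if_pos hm]
    · rw [hV4 ω hω r (by omega), if_neg (lt_irrefl r)]
    · intro i hi
      refine ⟨?_, ?_, ?_⟩
      · rw [hW4 ω' hω' (3 * i) (by omega), if_pos (by omega)]
      · rw [add_assoc, hW4 ω' hω' (3 * i + 1) (by omega), if_neg (by omega), if_pos (by omega)]
      · rw [add_assoc, hW4 ω' hω' (3 * i + 2) (by omega), if_neg (by omega), if_neg (by omega)]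
  filter_upwards [h1] with p hp
  rintro ⟨C, hC⟩
  obtain ⟨n, hn⟩ := hp C
  exact absurd (hC n) (not_le.2 hn)

theorem gr_pairs : ∀ᶠ p in residual ((ℕ → Fin 3) × (ℕ → Fin 3)),
    ¬ GLe (gr p.1) (gr p.2) ∧ ¬ GLe (gr p.2) (gr p.1) := by
  have h1 := (Homeomorph.prodComm (ℕ → Fin 3) (ℕ → Fin 3)).residual_map_eq
  have h2 : Tendsto (Homeomorph.prodComm (ℕ → Fin 3) (ℕ → Fin 3))
      (residual ((ℕ → Fin 3) × (ℕ → Fin 3))) (residual ((ℕ → Fin 3) × (ℕ → Fin 3))) := h1.le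
  filter_upwards [gr_pair, h2.eventually gr_pair] with p hp1 hp2
  exact ⟨hp1, hp2⟩

/-- generic ergodicity for tail invariants -/
theorem tail_erg {Y : Type*} [TopologicalSpace Y] [SecondCountableTopology Y] [T0Space Y]
    (Θ : (ℕ → Fin 3) → Y) (hΘ : ∀ U : Set Y, IsOpen U → BaireMeasurableSet (Θ ⁻¹' U))
    (hinv : ∀ ω ω' : ℕ → Fin 3, Xi ω → (∃ K, ∀ n, K ≤ n → ω n = ω' n) → Θ ω = Θ ω') :
    ∃ y, ∀ᶠ ω in residual (ℕ → Fin 3), Θ ω = y := by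
  have h1 : ∀ U : TopologicalSpace.countableBasis Y,
      (∀ᶠ ω in residual (ℕ → Fin 3), ω ∈ Θ ⁻¹' (U : Set Y)) ∨
        ∀ᶠ ω in residual (ℕ → Fin 3), ω ∉ Θ ⁻¹' (U : Set Y) := by
    intro U
    refine zero_one _ (hΘ _ ((TopologicalSpace.isBasis_countableBasis Y).isOpen U.2)) ?_
    rintro ω ω' hω hK
    have h2 := hinv ω ω' hω hK
    show Θ ω ∈ (U : Set Y) ↔ Θ ω' ∈ (U : Set Y)
    rw [h2]
  have h2 : ∀ᶠ ω in residual (ℕ → Fin 3), ∀ U : TopologicalSpace.countableBasis Y,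
      (Θ ω ∈ (U : Set Y) ↔ ∀ᶠ ω' in residual (ℕ → Fin 3), Θ ω' ∈ (U : Set Y)) := by
    rw [eventually_countable_forall]
    intro U
    rcases h1 U with h3 | h3
    · filter_upwards [h3] with ω hω
      exact ⟨fun _ => h3, fun _ => hω⟩
    · filter_upwards [h3] with ω hω
      refine ⟨fun h4 => absurd h4 hω, fun h4 => ?_⟩
      have h5 : ∀ᶠ ω in residual (ℕ → Fin 3), False := by
        filter_upwards [h3, h4] with z hz1 hz2
        exact hz1 hz2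
      have h6 : Dense {z : ℕ → Fin 3 | False} := dense_of_mem_residual h5
      obtain ⟨z, hz⟩ := h6.nonempty
      exact hz.elim
  have h6 : Dense {ω : ℕ → Fin 3 | ∀ U : TopologicalSpace.countableBasis Y,
      (Θ ω ∈ (U : Set Y) ↔ ∀ᶠ ω' in residual (ℕ → Fin 3), Θ ω' ∈ (U : Set Y))} :=
    dense_of_mem_residual h2
  obtain ⟨ω0, h0⟩ := h6.nonempty
  refine ⟨Θ ω0, ?_⟩
  filter_upwards [h2] with ω hω
  apply Inseparable.eq
  rw [inseparable_iff_forall_isOpen]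
  have key : ∀ x y : Y, (∀ U : TopologicalSpace.countableBasis Y, x ∈ (U : Set Y) ↔ y ∈ (U : Set Y)) →
      ∀ s : Set Y, IsOpen s → x ∈ s → y ∈ s := by
    intro x y hxy s hs hx
    obtain ⟨v, hv, hxv, hvs⟩ :=
      (TopologicalSpace.isBasis_countableBasis Y).exists_subset_of_mem_open hx hs
    exact hvs ((hxy ⟨v, hv⟩).1 hxv)
  intro s hs
  exact ⟨key _ _ (fun U => (hω U).trans (h0 U).symm) s hs,
    key _ _ (fun U => (h0 U).trans (hω U).symm) s hs⟩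

theorem nc_Xi {ω : ℕ → Fin 3} (h : Nc ω) : Xi ω := by
  by_cases h0 : ∃ i : Fin 3, ∀ N : ℕ, ∃ n ≥ N, ω n = i
  · obtain ⟨i, hi⟩ := h0
    by_contra hc
    have h1 : ∀ j : Fin 3, j ≠ i → ∃ N : ℕ, ∀ n ≥ N, ω n ≠ j := by
      intro j hj
      by_contra h2
      push Not at h2
      exact hc ⟨i, j, hj.symm, hi, h2⟩
    choose! N hN using h1
    obtain ⟨n, hn, hni⟩ := h i (N 0 + N 1 + N 2)
    have h2 : ∀ j : Fin 3, j ≠ i → ω n ≠ j := by
      intro j hj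
      refine hN j hj n ?_
      fin_cases j
      · show N 0 ≤ n
        omega
      · show N 1 ≤ n
        omega
      · show N 2 ≤ n
        omega
    exact h2 (ω n) hni rfl
  · push Not at h0
    choose N hN using h0
    exact absurd rfl (hN (ω (N 0 + N 1 + N 2)) (N 0 + N 1 + N 2) (by
      generalize ω (N 0 + N 1 + N 2) = i
      fin_cases i
      · show N 0 ≤ _
        omega
      · show N 1 ≤ _
        omega
      · show N 2 ≤ _
        omega))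

end Pool.Agent.H361.FU
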