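import Mathlib
import Pool.Graph.R_seed8.Results.MP_0b0f5a_al.LowerBounds

/-!
# Almost invariant functions for the groups `G_ω`: the recursion
-/

set_option autoImplicit false

namespace Pool.Agent.H361.FU

open Pool.Agent.Results.MP_0b0f5a_al.LowerBounds

/-- permutations of the binary words -/
abbrev Pm : Type := Equiv.Perm (List Bool)

/-- the shifted sequence -/
def sh (ω : ℕ → Fin 3) : ℕ → Fin 3 := fun n => ω (n + 1)

/-- the action of the permutation with the sections `g0`, `g1` -/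
def ioFun (g0 g1 : List Bool → List Bool) (s : Bool) : List Bool → List Bool
  | [] => []
  | x :: v => xor x s :: cond x (g1 v) (g0 v)

/-- the inverse -/
def ioInv (g0 g1 : List Bool → List Bool) (s : Bool) : List Bool → List Bool
  | [] => []
  | y :: v => xor y s :: cond (xor y s) (g1 v) (g0 v)

/-- the permutation with the sections `g0`, `g1` -/
def io (p : Pm × Pm × Bool) : Pm where
  toFun := ioFun p.1 p.2.1 p.2.2
  invFun := ioInv p.1.symm p.2.1.symm p.2.2
  left_inv := by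
    obtain ⟨g0, g1, s⟩ := p
    rintro (_ | ⟨x, v⟩)
    · rfl
    · cases x <;> cases s <;> simp [ioFun, ioInv]
  right_inv := by
    obtain ⟨g0, g1, s⟩ := p
    rintro (_ | ⟨x, v⟩)
    · rfl
    · cases x <;> cases s <;> simp [ioFun, ioInv]

theorem io_inj : Function.Injective io := by
  rintro ⟨g0, g1, s⟩ ⟨h0, h1, t⟩ h
  have h2 : ∀ v, ioFun g0 g1 s v = ioFun h0 h1 t v := fun v => congrArg (fun e : Pm => e v) h
  have hs : s = t := by
    have := h2 [false]
    simp only [ioFun, List.cons.injEq] at this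
    simpa using this.1
  subst hs
  have h3 : g0 = h0 := by
    ext1 v
    have := h2 (false :: v)
    simp only [ioFun, List.cons.injEq] at this
    exact this.2
  have h4 : g1 = h1 := by
    ext1 v
    have := h2 (true :: v)
    simp only [ioFun, List.cons.injEq] at this
    exact this.2
  rw [h3, h4]

theorem a_io (g0 g1 : Pm) (s : Bool) : a * io (g0, g1, s) = io (g0, g1, !s) := by
  ext1 v
  change aMap (ioFun g0 g1 s v) = ioFun g0 g1 (!s) v
  rcases v with _ | ⟨x, v⟩
  · rfl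
  · cases x <;> cases s <;> simp [ioFun, aMap]

/-- `a` or `1` -/
def bz (j i : Fin 3) : Pm := (bzd_invol j i).toPerm

theorem bz_cases (j i : Fin 3) : bz j i = a ∨ bz j i = 1 := by
  fin_cases i <;> fin_cases j <;> first | (left; ext1 v; rfl) | (right; ext1 v; rfl)

theorem gen_io (ω : ℕ → Fin 3) (j : Fin 3) (g0 g1 : Pm) : gen ω j * io (g0, g1, false) =
    io (bz j (ω 0) * g0, gen (sh ω) j * g1, false) := by
  ext1 v
  change bcd j (ioFun g0 g1 false v) ω = ioFun _ _ false v
  rcases v with _ | ⟨x, v⟩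
  · rfl
  · cases x
    · rfl
    · rfl

theorem gen_io' (ω : ℕ → Fin 3) (j : Fin 3) (g0 g1 : Pm) : gen ω j * io (g0, g1, true) =
    io (gen (sh ω) j * g0, bz j (ω 0) * g1, true) := by
  ext1 v
  change bcd j (ioFun g0 g1 true v) ω = ioFun _ _ true v
  rcases v with _ | ⟨x, v⟩
  · rfl
  · cases x
    · rfl
    · rfl

theorem a_sq : a * a = 1 := by
  ext1 v
  exact aMap_invol v

theorem gen_sq (ω : ℕ → Fin 3) (j : Fin 3) : gen ω j * gen ω j = 1 := by
  ext1 v
  exact bcd_invol j ω v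

/-- almost invariant functions: `u` is invariant under `b`, `c`, `d`, and `w` under `a` -/
structure Dat (ω : ℕ → Fin 3) (η : ℝ) (M : ℕ) (T : Finset Pm) (u w : Pm → ℝ) (R : ℝ) : Prop where
  pos : 0 < R
  su : ∀ g, g ∉ T → u g = 0
  sw : ∀ g, g ∉ T → w g = 0
  iu : ∀ j g, u (gen ω j * g) = u g
  iw : ∀ g, w (a * g) = w g
  nu : ∑ g ∈ T, u g * u g = R
  nw : ∑ g ∈ T, w g * w g = R
  c0 : 0 ≤ ∑ g ∈ T, u g * w g
  cc : (1 - η) * R ≤ ∑ g ∈ T, u g * w g
  sz : 2 * T.card ≤ 10 ^ M

theorem ext_inv {F : Pm × Pm × Bool → ℝ} (s : Pm) (hs : s * s = 1) (f : Pm × Pm × Bool → Pm × Pm × Bool)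
    (h1 : ∀ t, s * io t = io (f t)) (h2 : ∀ t, F (f t) = F t) (g : Pm) :
    Function.extend io F 0 (s * g) = Function.extend io F 0 g := by
  by_cases hg : ∃ t, io t = g
  · obtain ⟨t, rfl⟩ := hg
    rw [h1, io_inj.extend_apply, io_inj.extend_apply, h2]
  · have hg' : ¬ ∃ t, io t = s * g := by
      rintro ⟨t, ht⟩
      exact hg ⟨f t, by rw [← h1, ht, ← mul_assoc, hs, one_mul]⟩
    rw [Function.extend_apply' _ _ _ hg, Function.extend_apply' _ _ _ hg']
    rfl

theorem sum_prod (T : Finset Pm) (f h : Pm → ℝ) :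
    ∑ p ∈ T ×ˢ T, f p.1 * h p.2 = (∑ g ∈ T, f g) * ∑ g ∈ T, h g := by
  rw [Finset.sum_product, Finset.sum_mul_sum]

/-- the product set -/
noncomputable def TT (T : Finset Pm) : Finset Pm :=
  ((T ×ˢ T ×ˢ (Finset.univ : Finset Bool)).map ⟨io, io_inj⟩)

theorem sum_TT (T : Finset Pm) (F : Pm → ℝ) :
    ∑ g ∈ TT T, F g = ∑ g0 ∈ T, ∑ g1 ∈ T, (F (io (g0, g1, true)) + F (io (g0, g1, false))) := by
  rw [TT, Finset.sum_map, Finset.sum_product]
  refine Finset.sum_congr rfl fun g0 _ => ?_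
  rw [Finset.sum_product]
  refine Finset.sum_congr rfl fun g1 _ => ?_
  rw [Fintype.sum_bool]
  rfl

theorem sum_two (T : Finset Pm) (f h f' h' : Pm → ℝ) :
    ∑ g0 ∈ T, ∑ g1 ∈ T, (f g0 * h g1 + f' g0 * h' g1) =
      (∑ g ∈ T, f g) * (∑ g ∈ T, h g) + (∑ g ∈ T, f' g) * ∑ g ∈ T, h' g := by
  rw [Finset.sum_mul_sum, Finset.sum_mul_sum, ← Finset.sum_add_distrib]
  refine Finset.sum_congr rfl fun g0 _ => ?_
  rw [← Finset.sum_add_distrib]

theorem Dat.step {ω : ℕ → Fin 3} {η : ℝ} {M : ℕ} {T : Finset Pm} {u w : Pm → ℝ} {R : ℝ}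
    (D : Dat (sh ω) η M T u w R) : ∃ (T' : Finset Pm) (u' w' : Pm → ℝ) (R' : ℝ),
      Dat ω (η / 2) (2 * M) T' u' w' R' := by
  set c := ∑ g ∈ T, u g * w g with hc
  set κ : ℝ := R / (2 * (R + c)) with hκ
  have hR := D.pos
  have hc0 : 0 ≤ c := D.c0
  let U : Pm × Pm × Bool → ℝ := fun p => cond p.2.2 (u p.1 * w p.2.1) (w p.1 * u p.2.1)
  let W : Pm × Pm × Bool → ℝ := fun p => κ * ((u p.1 + w p.1) * (u p.2.1 + w p.2.1))
  have hz : ∑ g ∈ T, (u g + w g) * (u g + w g) = 2 * (R + c) := by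
    have h1 : ∀ g ∈ T, (u g + w g) * (u g + w g) = u g * u g + w g * w g + 2 * (u g * w g) :=
      fun g _ => by ring
    rw [Finset.sum_congr rfl h1, Finset.sum_add_distrib, Finset.sum_add_distrib, ← Finset.mul_sum,
      D.nu, D.nw]
    ring
  have huz : ∑ g ∈ T, u g * (u g + w g) = R + c := by
    have h1 : ∀ g ∈ T, u g * (u g + w g) = u g * u g + u g * w g := fun g _ => by ring
    rw [Finset.sum_congr rfl h1, Finset.sum_add_distrib, D.nu]
  have hwz : ∑ g ∈ T, w g * (u g + w g) = R + c := by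
    have h1 : ∀ g ∈ T, w g * (u g + w g) = w g * w g + u g * w g := fun g _ => by ring
    rw [Finset.sum_congr rfl h1, Finset.sum_add_distrib, D.nw]
  have hU : ∀ t, Function.extend io U 0 (io t) = U t := fun t => io_inj.extend_apply _ _ _
  have hW : ∀ t, Function.extend io W 0 (io t) = W t := fun t => io_inj.extend_apply _ _ _
  have hRc : R + c ≠ 0 := by positivity
  have hmem : ∀ (g : Pm) (F : Pm × Pm × Bool → ℝ), (∀ p : Pm × Pm × Bool, F p ≠ 0 → p.1 ∈ T ∧ p.2.1 ∈ T) →
      g ∉ TT T → Function.extend io F 0 g = 0 := by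
    intro g F hF hg
    by_cases h : ∃ t, io t = g
    · obtain ⟨t, rfl⟩ := h
      rw [io_inj.extend_apply]
      by_contra h3
      obtain ⟨h4, h5⟩ := hF t h3
      apply hg
      rw [TT, Finset.mem_map]
      exact ⟨t, by simp [h4, h5], rfl⟩
    · rw [Function.extend_apply' _ _ _ h]
      rfl
  have hcross : ∑ g ∈ TT T, Function.extend io U 0 g * Function.extend io W 0 g = R * (R + c) := by
    rw [sum_TT]
    simp only [hU, hW]
    have h1 : ∀ g0 g1 : Pm, U (g0, g1, true) * W (g0, g1, true) + U (g0, g1, false) * W (g0, g1, false) =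
        (κ * (u g0 * (u g0 + w g0))) * (w g1 * (u g1 + w g1)) +
        (κ * (w g0 * (u g0 + w g0))) * (u g1 * (u g1 + w g1)) := by
      intro g0 g1
      simp only [U, W, cond_true, cond_false]
      ring
    simp only [h1]
    rw [sum_two, ← Finset.mul_sum, ← Finset.mul_sum, huz, hwz, hκ]
    field_simp
    ring
  refine ⟨TT T, Function.extend io U 0, Function.extend io W 0, 2 * R ^ 2, ?_⟩
  constructor
  · positivity
  · intro g hg
    refine hmem g U (fun p hp => ?_) hg
    obtain ⟨g0, g1, s⟩ := p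
    cases s
    · have h1 : w g0 * u g1 ≠ 0 := hp
      exact ⟨by_contra fun h => h1 (by rw [D.sw _ h, zero_mul]),
        by_contra fun h => h1 (by rw [D.su _ h, mul_zero])⟩
    · have h1 : u g0 * w g1 ≠ 0 := hp
      exact ⟨by_contra fun h => h1 (by rw [D.su _ h, zero_mul]),
        by_contra fun h => h1 (by rw [D.sw _ h, mul_zero])⟩
  · intro g hg
    refine hmem g W (fun p hp => ?_) hg
    obtain ⟨g0, g1, s⟩ := p
    have h1 : κ * ((u g0 + w g0) * (u g1 + w g1)) ≠ 0 := hp
    exact ⟨by_contra fun h => h1 (by rw [D.su _ h, D.sw _ h]; ring),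
      by_contra fun h => h1 (by rw [D.su _ h, D.sw _ h]; ring)⟩
  · intro j g
    have hb : ∀ g, w (bz j (ω 0) * g) = w g := by
      intro g
      rcases bz_cases j (ω 0) with h | h
      · rw [h, D.iw]
      · rw [h, one_mul]
    refine ext_inv (gen ω j) (gen_sq ω j) (fun p => cond p.2.2
      (gen (sh ω) j * p.1, bz j (ω 0) * p.2.1, true) (bz j (ω 0) * p.1, gen (sh ω) j * p.2.1, false))
      ?_ ?_ g
    · rintro ⟨g0, g1, s⟩
      cases s
      · exact gen_io ω j g0 g1
      · exact gen_io' ω j g0 g1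
    · rintro ⟨g0, g1, s⟩
      cases s
      · change w (bz j (ω 0) * g0) * u (gen (sh ω) j * g1) = w g0 * u g1
        rw [hb, D.iu]
      · change u (gen (sh ω) j * g0) * w (bz j (ω 0) * g1) = u g0 * w g1
        rw [hb, D.iu]
  · intro g
    refine ext_inv a a_sq (fun p => (p.1, p.2.1, !p.2.2)) ?_ ?_ g
    · rintro ⟨g0, g1, s⟩
      exact a_io g0 g1 s
    · rintro ⟨g0, g1, s⟩
      rfl
  · rw [sum_TT]
    simp only [hU]
    have h1 : ∀ g0 g1 : Pm, U (g0, g1, true) * U (g0, g1, true) + U (g0, g1, false) * U (g0, g1, false) =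
        (u g0 * u g0) * (w g1 * w g1) + (w g0 * w g0) * (u g1 * u g1) := by
      intro g0 g1
      simp only [U, cond_true, cond_false]
      ring
    simp only [h1]
    rw [sum_two, D.nu, D.nw]
    ring
  · rw [sum_TT]
    simp only [hW]
    have h1 : ∀ g0 g1 : Pm, W (g0, g1, true) * W (g0, g1, true) + W (g0, g1, false) * W (g0, g1, false) =
        (κ * ((u g0 + w g0) * (u g0 + w g0))) * (κ * ((u g1 + w g1) * (u g1 + w g1))) +
        (κ * ((u g0 + w g0) * (u g0 + w g0))) * (κ * ((u g1 + w g1) * (u g1 + w g1))) := by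
      intro g0 g1
      simp only [W]
      ring
    simp only [h1]
    rw [sum_two, ← Finset.mul_sum, hz, hκ]
    field_simp
    ring
  · rw [hcross]
    positivity
  · rw [hcross]
    have h1 := D.cc
    rw [← hc] at h1
    have h2 : (1 - η / 2) * (2 * R ^ 2) = R * (R + (1 - η) * R) := by
      ring
    rw [h2]
    gcongr
  · rw [TT, Finset.card_map, Finset.card_product, Finset.card_product, Finset.card_univ, Fintype.card_bool]
    have h1 := D.sz
    calc 2 * (T.card * (T.card * 2)) = (2 * T.card) * (2 * T.card) := by ring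
      _ ≤ 10 ^ M * 10 ^ M := Nat.mul_le_mul h1 h1
      _ = 10 ^ (2 * M) := by rw [← pow_add, ← two_mul]

end Pool.Agent.H361.FU
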