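import Pool.Agent.H361.FU.Set

/-!
# Runs of equal letters: conveyors
-/

set_option autoImplicit false

namespace Pool.Agent.H361.FU

open Pool.Agent.Results.MP_0b0f5a_al.LowerBounds

/-- multiplication by `s` maps `A` onto `B` -/
def Mp (s : Pm) (A B : Finset Pm) : Prop := ∀ g, s * g ∈ B ↔ g ∈ A

theorem Mp.symm {s : Pm} {A B : Finset Pm} (hs : s * s = 1) (h : Mp s A B) : Mp s B A := by
  intro g
  have h1 := h (s * g)
  rw [← mul_assoc, hs, one_mul] at h1
  exact h1.symm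

theorem Mp.one (A : Finset Pm) : Mp 1 A A := by
  intro g
  rw [one_mul]

/-- the product set -/
noncomputable def pr (A B : Finset Pm) (s : Bool) : Finset Pm :=
  ((A ×ˢ B ×ˢ ({s} : Finset Bool)).map ⟨io, io_inj⟩)

theorem mem_pr {A B : Finset Pm} {s : Bool} {g : Pm} :
    g ∈ pr A B s ↔ ∃ g0 ∈ A, ∃ g1 ∈ B, io (g0, g1, s) = g := by
  rw [pr, Finset.mem_map]
  constructor
  · rintro ⟨⟨g0, g1, s'⟩, h, rfl⟩
    rw [Finset.mem_product, Finset.mem_product, Finset.mem_singleton] at h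
    obtain ⟨h1, h2, h3⟩ := h
    have h4 : s' = s := h3
    subst h4
    exact ⟨g0, h1, g1, h2, rfl⟩
  · rintro ⟨g0, h0, g1, h1, rfl⟩
    exact ⟨(g0, g1, s), by simp [h0, h1], rfl⟩

theorem card_pr (A B : Finset Pm) (s : Bool) : (pr A B s).card = A.card * B.card := by
  rw [pr, Finset.card_map, Finset.card_product, Finset.card_product, Finset.card_singleton, mul_one]

theorem Mp.of {s : Pm} {A B : Finset Pm} (hs : s * s = 1) (h1 : ∀ g ∈ A, s * g ∈ B)
    (h2 : ∀ g ∈ B, s * g ∈ A) : Mp s A B := by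
  intro g
  refine ⟨fun h => ?_, h1 g⟩
  have h3 := h2 _ h
  rwa [← mul_assoc, hs, one_mul] at h3

theorem Mp.fl (A B : Finset Pm) (s : Bool) : Mp a (pr A B s) (pr A B (!s)) := by
  refine Mp.of a_sq ?_ ?_
  · intro g hg
    obtain ⟨g0, h0, g1, h1, rfl⟩ := mem_pr.1 hg
    rw [a_io]
    exact mem_pr.2 ⟨g0, h0, g1, h1, rfl⟩
  · intro g hg
    obtain ⟨g0, h0, g1, h1, rfl⟩ := mem_pr.1 hg
    rw [a_io, Bool.not_not]
    exact mem_pr.2 ⟨g0, h0, g1, h1, rfl⟩

theorem bz_sq (j i : Fin 3) : bz j i * bz j i = 1 := by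
  rcases bz_cases j i with h | h
  · rw [h, a_sq]
  · rw [h, one_mul]

theorem Mp.gf {ω : ℕ → Fin 3} {j : Fin 3} {A A' B B' : Finset Pm} (h0 : Mp (bz j (ω 0)) A A')
    (h1 : Mp (gen (sh ω) j) B B') : Mp (gen ω j) (pr A B false) (pr A' B' false) := by
  refine Mp.of (gen_sq ω j) ?_ ?_
  · intro g hg
    obtain ⟨g0, h2, g1, h3, rfl⟩ := mem_pr.1 hg
    rw [gen_io]
    exact mem_pr.2 ⟨_, (h0 g0).2 h2, _, (h1 g1).2 h3, rfl⟩
  · intro g hg
    obtain ⟨g0, h2, g1, h3, rfl⟩ := mem_pr.1 hg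
    rw [gen_io]
    exact mem_pr.2 ⟨_, (h0.symm (bz_sq _ _) g0).2 h2, _, (h1.symm (gen_sq _ _) g1).2 h3, rfl⟩

theorem Mp.gt {ω : ℕ → Fin 3} {j : Fin 3} {A A' B B' : Finset Pm} (h0 : Mp (gen (sh ω) j) A A')
    (h1 : Mp (bz j (ω 0)) B B') : Mp (gen ω j) (pr A B true) (pr A' B' true) := by
  refine Mp.of (gen_sq ω j) ?_ ?_
  · intro g hg
    obtain ⟨g0, h2, g1, h3, rfl⟩ := mem_pr.1 hg
    rw [gen_io']
    exact mem_pr.2 ⟨_, (h0 g0).2 h2, _, (h1 g1).2 h3, rfl⟩
  · intro g hg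
    obtain ⟨g0, h2, g1, h3, rfl⟩ := mem_pr.1 hg
    rw [gen_io']
    exact mem_pr.2 ⟨_, (h0.symm (gen_sq _ _) g0).2 h2, _, (h1.symm (bz_sq _ _) g1).2 h3, rfl⟩

/-- the elements of `{b, c, d}` which act like `a` at the letter `i` map `A` onto `B`, the other one
preserves `A` and `B` -/
def Vm (ω : ℕ → Fin 3) (i : Fin 3) (A B : Finset Pm) : Prop :=
  ∀ j, (bz j i = a ∧ Mp (gen ω j) A B) ∨ (bz j i = 1 ∧ Mp (gen ω j) A A ∧ Mp (gen ω j) B B)

theorem Vm.f {ω : ℕ → Fin 3} {i : Fin 3} (hi : ω 0 = i) {A A' B B' : Finset Pm}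
    (h0 : Mp a A A') (h1 : Vm (sh ω) i B B') : Vm ω i (pr A B false) (pr A' B' false) := by
  intro j
  rcases h1 j with ⟨h2, h3⟩ | ⟨h2, h3, h4⟩
  · refine Or.inl ⟨h2, Mp.gf ?_ h3⟩
    rw [hi, h2]
    exact h0
  · refine Or.inr ⟨h2, Mp.gf ?_ h3, Mp.gf ?_ h4⟩
    · rw [hi, h2]
      exact Mp.one _
    · rw [hi, h2]
      exact Mp.one _

theorem Vm.t {ω : ℕ → Fin 3} {i : Fin 3} (hi : ω 0 = i) {A A' B B' : Finset Pm}
    (h0 : Vm (sh ω) i A A') (h1 : Mp a B B') : Vm ω i (pr A B true) (pr A' B' true) := by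
  intro j
  rcases h0 j with ⟨h2, h3⟩ | ⟨h2, h3, h4⟩
  · refine Or.inl ⟨h2, Mp.gt h3 ?_⟩
    rw [hi, h2]
    exact h1
  · refine Or.inr ⟨h2, Mp.gt h3 ?_, Mp.gt h4 ?_⟩
    · rw [hi, h2]
      exact Mp.one _
    · rw [hi, h2]
      exact Mp.one _

/-- the conveyors -/
structure Cv (ω : ℕ → Fin 3) (i : Fin 3) (r : ℕ) (P N : ℕ → Finset Pm) (p q : ℕ) : Prop where
  Pa : ∀ k, 2 * k + 1 ≤ 2 ^ r → Mp a (P (2 * k)) (P (2 * k + 1))
  Pv : ∀ k, 2 * k + 2 ≤ 2 ^ r → Vm ω i (P (2 * k + 1)) (P (2 * k + 2))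
  Nv : ∀ k, 2 * k + 1 ≤ 2 ^ r → Vm ω i (N (2 * k)) (N (2 * k + 1))
  Na : ∀ k, 2 * k + 2 ≤ 2 ^ r → Mp a (N (2 * k + 1)) (N (2 * k + 2))
  dis : ∀ s t, s ≤ 2 ^ r → t ≤ 2 ^ r → ∀ g, g ∈ P s → g ∈ P t → s = t
  cp : ∀ t, t ≤ 2 ^ r → (P t).card = p
  cq : ∀ t, t ≤ 2 ^ r → (N t).card = q
  pp : 0 < p
  qp : 0 < q
  pq : p * q ≤ 4 ^ 2 ^ r

theorem Cv.base (ω : ℕ → Fin 3) (i : Fin 3) : ∃ (P N : ℕ → Finset Pm) (p q : ℕ), Cv ω i 0 P N p q := by
  classical
  have hV : ∀ j, Mp (gen ω j) (Vs ω) (Vs ω) := by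
    intro j
    exact Mp.of (gen_sq ω j) (fun g hg => Vs_mul ω j g hg) (fun g hg => Vs_mul ω j g hg)
  refine ⟨fun t => if t = 0 then {1} else {a}, fun _ => Vs ω, 1, (Vs ω).card, ?_⟩
  constructor
  · intro k hk
    have hk0 : k = 0 := by rw [pow_zero] at hk; omega
    subst hk0
    simp only [mul_zero, zero_add, if_true, if_neg (one_ne_zero)]
    refine Mp.of a_sq ?_ ?_
    · intro g hg
      rw [Finset.mem_singleton] at hg ⊢
      rw [hg, mul_one]
    · intro g hg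
      rw [Finset.mem_singleton] at hg ⊢
      rw [hg, a_sq]
  · intro k hk
    rw [pow_zero] at hk
    omega
  · intro k _ j
    rcases bz_cases j i with h | h
    · exact Or.inl ⟨h, hV j⟩
    · exact Or.inr ⟨h, hV j, hV j⟩
  · intro k hk
    rw [pow_zero] at hk
    omega
  · intro s t hs ht g h1 h2
    have ha : (a : Pm) ≠ 1 := by
      intro h
      have := congrArg (fun e : Pm => e [true]) h
      simp [a, aMap] at this
    rw [pow_zero] at hs ht
    have hs' : s = 0 ∨ s = 1 := by omega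
    have ht' : t = 0 ∨ t = 1 := by omega
    rcases hs' with rfl | rfl <;> rcases ht' with rfl | rfl
    · rfl
    · simp only [if_true, if_neg (one_ne_zero), Finset.mem_singleton] at h1 h2
      exact absurd (h2.symm.trans h1) ha
    · simp only [if_true, if_neg (one_ne_zero), Finset.mem_singleton] at h1 h2
      exact absurd (h1.symm.trans h2) ha
    · rfl
  · intro t _
    show (if t = 0 then ({1} : Finset Pm) else {a}).card = 1
    split_ifs <;> exact Finset.card_singleton _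
  · intro t _
    rfl
  · exact one_pos
  · exact Finset.card_pos.2 ⟨1, (mem_Vs ω 1).2 (Or.inl rfl)⟩
  · rw [one_mul, pow_zero, pow_one, Vs]
    exact Finset.card_le_four

theorem Cv.step {ω : ℕ → Fin 3} {i : Fin 3} (hi : ω 0 = i) {r : ℕ} {P N : ℕ → Finset Pm} {p q : ℕ}
    (C : Cv (sh ω) i r P N p q) : ∃ (P' N' : ℕ → Finset Pm) (p' q' : ℕ), Cv ω i (r + 1) P' N' p' q' := by
  have hpow : 2 ^ (r + 1) = 2 * 2 ^ r := by rw [pow_succ, mul_comm]
  refine ⟨fun t => pr (N (t / 2)) (P (t / 2)) (decide ((t + 1) / 2 % 2 = 1)),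
    fun t => pr (P ((t + 1) / 2)) (N ((t + 1) / 2)) (decide (t / 2 % 2 = 1)), q * p, p * q, ?_⟩
  constructor
  · intro k hk
    have h1 : 2 * k / 2 = k := by omega
    have h2 : (2 * k + 1) / 2 = k := by omega
    have h3 : (2 * k + 1 + 1) / 2 = k + 1 := by omega
    simp only [h1, h2, h3]
    have h4 : decide ((k + 1) % 2 = 1) = !decide (k % 2 = 1) := by
      rcases Nat.mod_two_eq_zero_or_one k with h | h
      · have h5 : (k + 1) % 2 = 1 := by omega
        simp [h, h5]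
      · have h5 : (k + 1) % 2 = 0 := by omega
        simp [h, h5]
    rw [h4]
    exact Mp.fl _ _ _
  · intro k hk
    have h1 : (2 * k + 1) / 2 = k := by omega
    have h2 : (2 * k + 2) / 2 = k + 1 := by omega
    have h3 : (2 * k + 1 + 1) / 2 = k + 1 := by omega
    have h4 : (2 * k + 2 + 1) / 2 = k + 1 := by omega
    simp only [h1, h2, h3, h4]
    have hk' : k + 1 ≤ 2 ^ r := by omega
    rcases Nat.even_or_odd' k with ⟨l, rfl | rfl⟩
    · have h5 : decide ((2 * l + 1) % 2 = 1) = true := by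
        rw [decide_eq_true_eq]
        omega
      rw [h5]
      exact Vm.t hi (C.Nv l (by omega)) (C.Pa l (by omega))
    · have h5 : decide ((2 * l + 1 + 1) % 2 = 1) = false := by
        rw [decide_eq_false_iff_not]
        omega
      rw [h5]
      exact Vm.f hi (C.Na l (by omega)) (C.Pv l (by omega))
  · intro k hk
    have h1 : 2 * k / 2 = k := by omega
    have h2 : (2 * k + 1) / 2 = k := by omega
    have h3 : (2 * k + 1 + 1) / 2 = k + 1 := by omega
    simp only [h1, h2, h3]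
    have hk' : k + 1 ≤ 2 ^ r := by
      rw [hpow] at hk
      omega
    rcases Nat.even_or_odd' k with ⟨l, rfl | rfl⟩
    · have h5 : decide ((2 * l) % 2 = 1) = false := by
        rw [decide_eq_false_iff_not]
        omega
      rw [h5]
      exact Vm.f hi (C.Pa l (by omega)) (C.Nv l (by omega))
    · have h5 : decide ((2 * l + 1) % 2 = 1) = true := by
        rw [decide_eq_true_eq]
        omega
      rw [h5]
      exact Vm.t hi (C.Pv l (by omega)) (C.Na l (by omega))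
  · intro k hk
    have h1 : (2 * k + 1) / 2 = k := by omega
    have h2 : (2 * k + 2) / 2 = k + 1 := by omega
    have h3 : (2 * k + 1 + 1) / 2 = k + 1 := by omega
    have h4 : (2 * k + 2 + 1) / 2 = k + 1 := by omega
    simp only [h1, h2, h3, h4]
    have h5 : decide ((k + 1) % 2 = 1) = !decide (k % 2 = 1) := by
      rcases Nat.mod_two_eq_zero_or_one k with h | h
      · have h5 : (k + 1) % 2 = 1 := by omega
        simp [h, h5]
      · have h5 : (k + 1) % 2 = 0 := by omega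
        simp [h, h5]
    rw [h5]
    exact Mp.fl _ _ _
  · intro s t hs ht g h1 h2
    obtain ⟨g0, _, g1, h3, rfl⟩ := mem_pr.1 h1
    obtain ⟨g0', _, g1', h4, h5⟩ := mem_pr.1 h2
    have h6 := io_inj h5
    simp only [Prod.mk.injEq] at h6
    obtain ⟨_, h7, h8⟩ := h6
    subst h7
    have h9 := C.dis (s / 2) (t / 2) (by omega) (by omega) _ h3 h4
    rw [decide_eq_decide] at h8
    omega
  · intro t ht
    rw [card_pr, C.cp _ (by omega), C.cq _ (by omega)]
  · intro t ht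
    rw [card_pr, C.cp _ (by omega), C.cq _ (by omega)]
  · exact Nat.mul_pos C.qp C.pp
  · exact Nat.mul_pos C.pp C.qp
  · calc q * p * (p * q) = (p * q) * (p * q) := by ring
      _ ≤ 4 ^ 2 ^ r * 4 ^ 2 ^ r := Nat.mul_le_mul C.pq C.pq
      _ = 4 ^ 2 ^ (r + 1) := by rw [← pow_add, hpow, two_mul]

theorem exists_cv (i : Fin 3) (r : ℕ) : ∀ ω : ℕ → Fin 3, (∀ m, m < r → ω m = i) →
    ∃ (P N : ℕ → Finset Pm) (p q : ℕ), Cv ω i r P N p q := by
  induction r with
  | zero => exact fun ω _ => Cv.base ω i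
  | succ r ih =>
    intro ω h
    obtain ⟨P, N, p, q, C⟩ := ih (sh ω) fun m hm => h (m + 1) (by omega)
    exact C.step (h 0 (by omega))

end Pool.Agent.H361.FU
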