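import Pool.Agent.H361.FU.Bd

/-!
# Sequences with long runs of equal letters and long alternating parts
-/

set_option autoImplicit false

namespace Pool.Agent.H361.FU

open Pool.Agent.Results.MP_0b0f5a_al.LowerBounds

/-- the first places of the blocks -/
def pl (g : ℕ → ℕ → ℕ) : ℕ → ℕ
  | 0 => 0
  | j + 1 => pl g j + 2 * (g j (pl g j) + 1)

theorem pl_succ (g : ℕ → ℕ → ℕ) (j : ℕ) : pl g (j + 1) = pl g j + 2 * (g j (pl g j) + 1) := rfl

theorem pl_even (g : ℕ → ℕ → ℕ) (j : ℕ) : ∃ κ, pl g j = 2 * κ := by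
  induction j with
  | zero => exact ⟨0, rfl⟩
  | succ j ih =>
    obtain ⟨κ, h⟩ := ih
    refine ⟨κ + (g j (pl g j) + 1), ?_⟩
    rw [pl_succ]
    omega

theorem pl_lt (g : ℕ → ℕ → ℕ) (j : ℕ) : pl g j < pl g (j + 1) := by
  rw [pl_succ]
  omega

theorem pl_mono (g : ℕ → ℕ → ℕ) : StrictMono (pl g) := strictMono_nat_of_lt_succ (pl_lt g)

theorem le_pl (g : ℕ → ℕ → ℕ) (j : ℕ) : j ≤ pl g j := (pl_mono g).le_apply

theorem ex_idx (g : ℕ → ℕ → ℕ) (m : ℕ) : ∃ j, m < pl g (j + 1) :=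
  ⟨m, lt_of_lt_of_le (Nat.lt_succ_self m) (le_pl g (m + 1))⟩

/-- the block of the place `m` -/
def idx (g : ℕ → ℕ → ℕ) (m : ℕ) : ℕ := Nat.find (ex_idx g m)

theorem idx_eq {g : ℕ → ℕ → ℕ} {j m : ℕ} (h1 : pl g j ≤ m) (h2 : m < pl g (j + 1)) : idx g m = j := by
  apply le_antisymm
  · exact Nat.find_min' _ h2
  · by_contra h
    push Not at h
    have h3 : m < pl g (idx g m + 1) := Nat.find_spec (ex_idx g m)
    have h4 := (pl_mono g).monotone (show idx g m + 1 ≤ j by omega)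
    omega

open Classical in
/-- equal letters in the blocks in `A`, alternating letters in the others -/
noncomputable def sq (g : ℕ → ℕ → ℕ) (A : Set ℕ) (m : ℕ) : Fin 3 :=
  if idx g m ∈ A then (if Even (idx g m) then 0 else 1) else (if Even m then 0 else 1)

theorem sq_in {g : ℕ → ℕ → ℕ} {A : Set ℕ} {j m : ℕ} (hj : j ∈ A) (h1 : pl g j ≤ m)
    (h2 : m < pl g (j + 1)) : sq g A m = if Even j then 0 else 1 := by
  rw [sq, idx_eq h1 h2, if_pos hj]

theorem sq_out {g : ℕ → ℕ → ℕ} {A : Set ℕ} {j m : ℕ} (hj : j ∉ A) (h1 : pl g j ≤ m)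
    (h2 : m < pl g (j + 1)) : sq g A m = if Even m then 0 else 1 := by
  rw [sq, idx_eq h1 h2, if_neg hj]

theorem sq_Xi (g : ℕ → ℕ → ℕ) (A : Set ℕ) : Xi (sq g A) := by
  refine ⟨0, 1, by decide, fun N => ?_, fun N => ?_⟩
  · refine ⟨pl g (2 * N), by have := le_pl g (2 * N); omega, ?_⟩
    by_cases h : 2 * N ∈ A
    · rw [sq_in h le_rfl (pl_lt g _), if_pos (even_two_mul N)]
    · rw [sq_out h le_rfl (pl_lt g _)]
      obtain ⟨κ, hκ⟩ := pl_even g (2 * N)
      rw [hκ, if_pos (even_two_mul κ)]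
  · have h1 := le_pl g (2 * N + 1)
    by_cases h : 2 * N + 1 ∈ A
    · refine ⟨pl g (2 * N + 1), by omega, ?_⟩
      rw [sq_in h le_rfl (pl_lt g _), if_neg]
      rw [Nat.not_even_iff_odd]
      exact odd_two_mul_add_one N
    · refine ⟨pl g (2 * N + 1) + 1, by omega, ?_⟩
      rw [sq_out h (Nat.le_succ _) (by have := pl_succ g (2 * N + 1); omega)]
      obtain ⟨κ, hκ⟩ := pl_even g (2 * N + 1)
      rw [hκ, if_neg]
      rw [Nat.not_even_iff_odd]
      exact odd_two_mul_add_one κ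

/-- in an alternating part half of the letters are equal to a given one -/
theorem count_alt {ω : ℕ → Fin 3} {a b : ℕ} (h : ∀ m, a ≤ m → m < b → ω m = if Even m then 0 else 1)
    (e : Fin 3) (he : e = 0 ∨ e = 1) (d : ℕ) (hd : a + 2 * d ≤ b) :
    d ≤ Nat.count (fun i => ω i = e) (a + 2 * d) := by
  induction d with
  | zero => exact Nat.zero_le _
  | succ d ih =>
    have h1 := ih (by omega)
    have h2 := h (a + 2 * d) (by omega) (by omega)
    have h3 := h (a + 2 * d + 1) (by omega) (by omega)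
    rw [show a + 2 * (d + 1) = a + 2 * d + 1 + 1 from by ring, Nat.count_succ, Nat.count_succ]
    have h4 : ω (a + 2 * d) = e ∨ ω (a + 2 * d + 1) = e := by
      rw [h2, h3]
      by_cases h5 : Even (a + 2 * d)
      · have h6 : ¬ Even (a + 2 * d + 1) := by
          rw [Nat.not_even_iff_odd]
          exact h5.add_one
        rw [if_pos h5, if_neg h6]
        rcases he with he | he
        · exact Or.inl he.symm
        · exact Or.inr he.symm
      · have h6 : Even (a + 2 * d + 1) := (Nat.not_even_iff_odd.1 h5).add_one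
        rw [if_neg h5, if_pos h6]
        rcases he with he | he
        · exact Or.inr he.symm
        · exact Or.inl he.symm
    rcases h4 with h4 | h4
    · rw [if_pos h4]
      omega
    · rw [if_pos h4]
      omega

theorem count_le_cE (ω : ℕ → Fin 3) (e : Fin 3) (k : ℕ) :
    Nat.count (fun i => ω i = e) k ≤ Pool.Agent.W380.Fol.cE ω e k := by
  induction k with
  | zero => exact Nat.zero_le _
  | succ k ih =>
    rw [Nat.count_succ]
    by_cases h : ω k = e
    · rw [if_pos h]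
      have := Pool.Agent.W380.Fol.cE_succ ω e k h
      omega
    · rw [if_neg h]
      have := Pool.Agent.W380.Fol.cE_mono ω e (show k ≤ k + 1 by omega)
      omega

/-- the local lower bound -/
theorem lower_loc : ∃ q t : ℕ, ∀ (ω : ℕ → Fin 3) (k v n : ℕ), 1 ≤ k → ω k ≠ ω (k + 1) →
    2 * v + q ≤ Nat.count (fun i => ω i = ω (k + 1)) k → 2 ^ (k + t) ≤ n → ∀ E : Set (G ω),
      E.Finite → E.Nonempty → IsFolner ω n E → 2 ^ (v * 2 ^ (k - 1)) ≤ E.ncard := by
  classical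
  obtain ⟨C, hC0, hC⟩ := Pool.Agent.W380.Fol.exists_bound
  have hmb := fun ω e k n h0 h1 hr hn F hF hf => Pool.Agent.W380.Fol.main_bound C hC ω e k n h0 h1 hr hn F hF hf
  clear hC
  generalize Pool.Agent.W380.Fol.mm = M at hmb
  obtain ⟨q, hq⟩ : ∃ q : ℕ, 256 * M ≤ 2 ^ q := ⟨256 * M, Nat.lt_two_pow_self.le⟩
  obtain ⟨t, ht⟩ : ∃ t : ℕ, 4 * (128 * M ^ 2 * C) ≤ 2 ^ t := ⟨_, Nat.lt_two_pow_self.le⟩
  refine ⟨q, t, fun ω k v n hk hch hv hn E hE hne hf => ?_⟩
  have hn1 : 1 ≤ n := le_trans Nat.one_le_two_pow hn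
  obtain ⟨F, hF, hcard, hk'⟩ := key ω n hn1 E hE hne hf
  have h1 : 64 * (2 ^ (v + 1)) ^ 2 * M ≤ 2 ^ Pool.Agent.W380.Fol.cE ω (ω (k + 1)) k := by
    calc 64 * (2 ^ (v + 1)) ^ 2 * M = 2 ^ (2 * v) * (256 * M) := by
          rw [← pow_mul, show (v + 1) * 2 = 2 * v + 2 from by ring, pow_add]
          ring
      _ ≤ 2 ^ (2 * v) * 2 ^ q := Nat.mul_le_mul_left _ hq
      _ = 2 ^ (2 * v + q) := (pow_add _ _ _).symm
      _ ≤ _ := Nat.pow_le_pow_right (by norm_num) (hv.trans (count_le_cE ω _ k))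
  have h2 : 4 * (128 * M ^ 2 * C * 2 ^ k) ≤ n := by
    calc 4 * (128 * M ^ 2 * C * 2 ^ k) = 4 * (128 * M ^ 2 * C) * 2 ^ k := by ring
      _ ≤ 2 ^ t * 2 ^ k := Nat.mul_le_mul_right _ ht
      _ = 2 ^ (k + t) := by rw [← pow_add, add_comm]
      _ ≤ n := hn
  have h3 := hmb ω (ω (k + 1)) k (2 ^ (v + 1)) hch rfl h1 Nat.one_le_two_pow F hF (hk' _ h2)
  rw [hcard] at h3
  have hpos : 0 < E.ncard := (Set.ncard_pos hE).2 hne
  have h4 : Real.log ((2 : ℝ) ^ (v * 2 ^ (k - 1))) ≤ Real.log E.ncard := by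
    refine le_trans ?_ h3
    rw [Real.log_pow]
    have h5 : (v : ℝ) * Real.log 2 ≤ Real.log (((2 ^ (v + 1) + 1 : ℕ) : ℝ) / 2) := by
      rw [← Real.log_pow]
      apply Real.log_le_log (by positivity)
      rw [le_div_iff₀ (by norm_num), ← pow_succ]
      push_cast
      linarith
    have h6 : (2 : ℝ) ^ k = 2 * 2 ^ (k - 1) := by
      rw [← pow_succ', Nat.sub_add_cancel hk]
    have h7 : 0 ≤ (v : ℝ) * Real.log 2 := by positivity
    have h8 : (0 : ℝ) < 2 ^ (k - 1) := by positivity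
    push_cast
    rw [h6]
    calc (v : ℝ) * 2 ^ (k - 1) * Real.log 2 = 2 ^ (k - 1) * (v * Real.log 2) := by ring
      _ ≤ 3 / 4 * (2 * 2 ^ (k - 1)) * (v * Real.log 2) := by
          apply mul_le_mul_of_nonneg_right _ h7
          linarith
      _ ≤ _ := by
          apply mul_le_mul_of_nonneg_left _ (by positivity)
          push_cast at h5
          exact h5
  have h9 := (Real.log_le_log_iff (by positivity) (by exact_mod_cast hpos)).1 h4
  exact_mod_cast h9

end Pool.Agent.H361.FU
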