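import Pool.Agent.H361.FU.Fin

/-!
# From almost invariant functions to Folner sets, second part
-/

set_option autoImplicit false

namespace Pool.Agent.H361.FU

open Pool.Agent.Results.MP_0b0f5a_al.LowerBounds

theorem sum_shift (T : Finset Pm) (f : Pm → ℝ) (h0 : ∀ g, 0 ≤ f g) (hT : ∀ g, g ∉ T → f g = 0) (s : Pm) :
    ∑ g ∈ T, f (s * g) ≤ ∑ g ∈ T, f g := by
  classical
  have h1 : ∑ g ∈ T, f (s * g) = ∑ g ∈ T.image (fun g => s * g), f g := by
    rw [Finset.sum_image]
    intro x _ y _ h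
    exact mul_left_cancel h
  have h2 : ∑ g ∈ T.image (fun g => s * g), f g = ∑ g ∈ (T.image (fun g => s * g)).filter (· ∈ T), f g := by
    symm
    refine Finset.sum_subset (Finset.filter_subset _ _) fun x hx hx' => hT x fun h => hx' ?_
    exact Finset.mem_filter.2 ⟨hx, h⟩
  rw [h1, h2]
  refine Finset.sum_le_sum_of_subset_of_nonneg (fun x hx => (Finset.mem_filter.1 hx).2) fun x _ _ => h0 x

theorem Dat.disp {ω : ℕ → Fin 3} {η : ℝ} {M : ℕ} {T : Finset Pm} {u w : Pm → ℝ} {R : ℝ}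
    (D : Dat ω η M T u w R) (hη : 0 ≤ η) :
    ∑ g ∈ T, max (u g ^ 2 - u (a * g) ^ 2) 0 ≤ Real.sqrt (32 * η) * ∑ g ∈ T, u g ^ 2 := by
  have hR := D.pos
  have hu2 : ∑ g ∈ T, u g ^ 2 = R := by
    rw [← D.nu]
    exact Finset.sum_congr rfl fun g _ => pow_two _
  have hw2 : ∑ g ∈ T, w g ^ 2 = R := by
    rw [← D.nw]
    exact Finset.sum_congr rfl fun g _ => pow_two _
  have hd : ∑ g ∈ T, (u g - w g) ^ 2 ≤ 2 * η * R := by
    have h1 : ∀ g ∈ T, (u g - w g) ^ 2 = u g ^ 2 + w g ^ 2 - 2 * (u g * w g) := fun g _ => by ring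
    rw [Finset.sum_congr rfl h1, Finset.sum_sub_distrib, Finset.sum_add_distrib, ← Finset.mul_sum, hu2, hw2]
    have := D.cc
    nlinarith
  have hd' : ∑ g ∈ T, (u (a * g) - w (a * g)) ^ 2 ≤ 2 * η * R := by
    refine (sum_shift T (fun g => (u g - w g) ^ 2) (fun g => by positivity) ?_ a).trans hd
    intro g hg
    show (u g - w g) ^ 2 = 0
    rw [D.su g hg, D.sw g hg]
    ring
  have hx : ∑ g ∈ T, |u g - u (a * g)| ^ 2 ≤ 8 * η * R := by
    calc ∑ g ∈ T, |u g - u (a * g)| ^ 2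
        ≤ ∑ g ∈ T, (2 * (u g - w g) ^ 2 + 2 * (u (a * g) - w (a * g)) ^ 2) := by
          refine Finset.sum_le_sum fun g _ => ?_
          rw [sq_abs, D.iw]
          nlinarith [sq_nonneg (u g - w g + (u (a * g) - w g))]
      _ ≤ 8 * η * R := by
          rw [Finset.sum_add_distrib, ← Finset.mul_sum, ← Finset.mul_sum]
          linarith
  have hy : ∑ g ∈ T, |u g + u (a * g)| ^ 2 ≤ 4 * R := by
    have h2 : ∑ g ∈ T, u (a * g) ^ 2 ≤ R := by
      rw [← hu2]
      refine sum_shift T (fun g => u g ^ 2) (fun g => by positivity) ?_ a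
      intro g hg
      show u g ^ 2 = 0
      rw [D.su g hg]
      ring
    calc ∑ g ∈ T, |u g + u (a * g)| ^ 2 ≤ ∑ g ∈ T, (2 * u g ^ 2 + 2 * u (a * g) ^ 2) := by
          refine Finset.sum_le_sum fun g _ => ?_
          rw [sq_abs]
          nlinarith [sq_nonneg (u g - u (a * g))]
      _ ≤ 4 * R := by
          rw [Finset.sum_add_distrib, ← Finset.mul_sum, ← Finset.mul_sum]
          linarith
  have hxy : (∑ g ∈ T, |u g - u (a * g)| * |u g + u (a * g)|) ^ 2 ≤ (8 * η * R) * (4 * R) := by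
    refine (Finset.sum_mul_sq_le_sq_mul_sq T _ _).trans ?_
    exact mul_le_mul hx hy (Finset.sum_nonneg fun g _ => by positivity) (by positivity)
  have h3 : ∑ g ∈ T, max (u g ^ 2 - u (a * g) ^ 2) 0 ≤
      ∑ g ∈ T, |u g - u (a * g)| * |u g + u (a * g)| := by
    refine Finset.sum_le_sum fun g _ => ?_
    rw [← abs_mul]
    refine max_le ?_ (abs_nonneg _)
    calc u g ^ 2 - u (a * g) ^ 2 = (u g - u (a * g)) * (u g + u (a * g)) := by ring
      _ ≤ _ := le_abs_self _
  refine h3.trans ?_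
  rw [hu2]
  refine abs_le_of_sq_le_sq' ?_ (by positivity) |>.2
  rw [mul_pow, Real.sq_sqrt (by positivity)]
  nlinarith

theorem symm_ncard {H : Type} [Group H] (s : H) (hs : s * s = 1) (E : Set H) (hE : E.Finite) :
    (symmDiff ((fun x => s * x) '' E) E).ncard ≤ 2 * {h | h ∈ E ∧ s * h ∉ E}.ncard := by
  have hfin : {h | h ∈ E ∧ s * h ∉ E}.Finite := hE.subset fun h hh => hh.1
  have h1 : symmDiff ((fun x => s * x) '' E) E ⊆
      (fun x => s * x) '' {h | h ∈ E ∧ s * h ∉ E} ∪ {h | h ∈ E ∧ s * h ∉ E} := by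
    intro x hx
    rw [Set.mem_symmDiff] at hx
    rcases hx with ⟨⟨y, hy, rfl⟩, h2⟩ | ⟨h2, h3⟩
    · exact Or.inl ⟨y, ⟨hy, h2⟩, rfl⟩
    · refine Or.inr ⟨h2, fun h4 => h3 ⟨s * x, h4, ?_⟩⟩
      show s * (s * x) = x
      rw [← mul_assoc, hs, one_mul]
  refine (Set.ncard_le_ncard h1 ((hfin.image _).union hfin)).trans ?_
  refine (Set.ncard_union_le _ _).trans ?_
  have h2 : ((fun x => s * x) '' {h | h ∈ E ∧ s * h ∉ E}).ncard ≤ {h | h ∈ E ∧ s * h ∉ E}.ncard :=
    Set.ncard_image_le hfin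
  omega

theorem Dat.folner {ω : ℕ → Fin 3} {η : ℝ} {M : ℕ} {T : Finset Pm} {u w : Pm → ℝ} {R : ℝ}
    (D : Dat ω η M T u w R) (hη : 0 ≤ η) (n : ℕ) (hn : 1 ≤ n) (hnη : 128 * η * (n : ℝ) ^ 2 < 1) :
    ∃ E : Set (G ω), E.Finite ∧ E.Nonempty ∧ IsFolner ω n E ∧ E.ncard ≤ 10 ^ M := by
  classical
  have hsumpos : 0 < ∑ g ∈ T, u g ^ 2 := by
    have hu2 : ∑ g ∈ T, u g ^ 2 = R := by
      rw [← D.nu]
      exact Finset.sum_congr rfl fun g _ => pow_two _
    rw [hu2]
    exact D.pos
  have hu0 : ∀ g, g ∉ T → u g ^ 2 = 0 := fun g hg => by rw [D.su g hg]; ring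
  obtain ⟨t, ht, hne, hle⟩ := layer (fun g => a * g) T (Real.sqrt (32 * η)) _ (fun g => u g ^ 2)
    (fun g => by positivity) hu0 le_rfl hsumpos (D.disp hη)
  set δ := Real.sqrt (32 * η) with hδ
  set E : Finset Pm := T.filter fun g => t ≤ u g ^ 2 with hE
  have hmE : ∀ g, g ∈ E ↔ t ≤ u g ^ 2 := by
    intro g
    rw [hE, Finset.mem_filter]
    refine ⟨fun h => h.2, fun h => ⟨?_, h⟩⟩
    by_contra h2
    rw [hu0 g h2] at h
    linarith
  have hV : ∀ j g, gen ω j * g ∈ E ↔ g ∈ E := by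
    intro j g
    rw [hmE, hmE, D.iu]
  simp only [← hmE] at hle
  let π : Pm → Quotient (QuotientGroup.rightRel (G ω)) := fun g => Quotient.mk _ g
  have hπ : ∀ g h : Pm, π g = π h ↔ h * g⁻¹ ∈ G ω := by
    intro g h
    rw [show (π g = π h) ↔ (QuotientGroup.rightRel (G ω)) g h from Quotient.eq]
    exact QuotientGroup.rightRel_apply
  -- choose a coset
  have hex : ∃ q ∈ E.image π, (((E.filter fun g => a * g ∉ E).filter fun g => π g = q).card : ℝ) ≤
      δ * (E.filter fun g => π g = q).card := by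
    by_contra hcon
    push Not at hcon
    have h1 : (∑ q ∈ E.image π, δ * ((E.filter fun g => π g = q).card : ℝ)) <
        ∑ q ∈ E.image π, (((E.filter fun g => a * g ∉ E).filter fun g => π g = q).card : ℝ) :=
      Finset.sum_lt_sum_of_nonempty (hne.image π) hcon
    have h2 : (E.card : ℝ) = ∑ q ∈ E.image π, ((E.filter fun g => π g = q).card : ℝ) := by
      rw [Finset.card_eq_sum_card_image π E]
      push_cast
      rfl
    have h3 : ((E.filter fun g => a * g ∉ E).card : ℝ) =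
        ∑ q ∈ E.image π, (((E.filter fun g => a * g ∉ E).filter fun g => π g = q).card : ℝ) := by
      rw [Finset.card_eq_sum_card_fiberwise (f := π) (t := E.image π)
        (fun g hg => Finset.mem_image_of_mem π (Finset.mem_filter.1 hg).1)]
      push_cast
      rfl
    rw [← Finset.mul_sum, ← h2, ← h3] at h1
    exact absurd hle (not_le.2 h1)
  obtain ⟨q, hq, hqle⟩ := hex
  obtain ⟨x, hxE, rfl⟩ := Finset.mem_image.1 hq
  have hcnt : ∀ F : Finset Pm, {h : G ω | (h : Pm) * x ∈ F}.ncard = (F.filter fun g => π g = π x).card := by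
    intro F
    have h1 : (fun h : G ω => (h : Pm) * x) '' {h : G ω | (h : Pm) * x ∈ F} =
        ((F.filter fun g => π g = π x : Finset Pm) : Set Pm) := by
      ext g
      rw [Finset.mem_coe, Finset.mem_filter]
      constructor
      · rintro ⟨h, hh, rfl⟩
        refine ⟨hh, ?_⟩
        rw [eq_comm, hπ, mul_assoc, mul_inv_cancel, mul_one]
        exact h.2
      · rintro ⟨h2, h3⟩
        rw [eq_comm, hπ] at h3
        refine ⟨⟨g * x⁻¹, h3⟩, ?_, ?_⟩
        · show g * x⁻¹ * x ∈ F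
          rwa [inv_mul_cancel_right]
        · show g * x⁻¹ * x = g
          rw [inv_mul_cancel_right]
    have h2 : Function.Injective (fun h : G ω => (h : Pm) * x) := by
      intro h h' hh
      exact Subtype.ext (mul_right_cancel hh)
    rw [← Set.ncard_coe_finset, ← h1, Set.ncard_image_of_injective _ h2]
  refine ⟨{h : G ω | (h : Pm) * x ∈ E}, ?_, ⟨1, ?_⟩, ?_, ?_⟩
  · refine Set.Finite.of_finite_image (f := fun h : G ω => (h : Pm) * x)
      (E.finite_toSet.subset ?_) ?_
    · rintro _ ⟨h, hh, rfl⟩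
      exact hh
    · intro h _ h' _ hh
      exact Subtype.ext (mul_right_cancel hh)
  · show ((1 : G ω) : Pm) * x ∈ E
    rwa [Subgroup.coe_one, one_mul]
  · intro s hs
    have hnpos : (0 : ℝ) < n := by exact_mod_cast hn
    have hfin : {h : G ω | (h : Pm) * x ∈ E}.Finite := by
      refine Set.Finite.of_finite_image (f := fun h : G ω => (h : Pm) * x)
        (E.finite_toSet.subset ?_) ?_
      · rintro _ ⟨h, hh, rfl⟩
        exact hh
      · intro h _ h' _ hh
        exact Subtype.ext (mul_right_cancel hh)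
    have hone : 0 < {h : G ω | (h : Pm) * x ∈ E}.ncard := by
      refine (Set.ncard_pos hfin).2 ⟨1, ?_⟩
      show ((1 : G ω) : Pm) * x ∈ E
      rwa [Subgroup.coe_one, one_mul]
    have hone' : (0 : ℝ) < ({h : G ω | (h : Pm) * x ∈ E}.ncard : ℝ) := by exact_mod_cast hone
    rw [div_lt_iff₀ hone', one_div]
    have hgenj : ∀ j, (s : Pm) = gen ω j → ((symmDiff ((fun y => s * y) '' {h : G ω | (h : Pm) * x ∈ E})
        {h : G ω | (h : Pm) * x ∈ E}).ncard : ℝ) < (n : ℝ)⁻¹ * ({h : G ω | (h : Pm) * x ∈ E}.ncard : ℝ) := by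
      intro j hj
      have hss : s * s = 1 := by
        apply Subtype.ext
        rw [Subgroup.coe_mul, hj, gen_sq, Subgroup.coe_one]
      have h1 := symm_ncard s hss _ hfin
      have h2 : {h : G ω | h ∈ {h : G ω | (h : Pm) * x ∈ E} ∧ s * h ∉ {h : G ω | (h : Pm) * x ∈ E}} = ∅ := by
        rw [Set.eq_empty_iff_forall_notMem]
        rintro h ⟨h3, h4⟩
        apply h4
        show ((s * h : G ω) : Pm) * x ∈ E
        rw [Subgroup.coe_mul, hj, mul_assoc, hV]
        exact h3
      rw [h2, Set.ncard_empty, mul_zero, Nat.le_zero] at h1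
      rw [h1, Nat.cast_zero]
      positivity
    rcases hs with h | h | h | h
    · have hss : s * s = 1 := by
        apply Subtype.ext
        rw [Subgroup.coe_mul, h, a_sq, Subgroup.coe_one]
      have h1 := symm_ncard s hss _ hfin
      have h2 : {h : G ω | h ∈ {h : G ω | (h : Pm) * x ∈ E} ∧ s * h ∉ {h : G ω | (h : Pm) * x ∈ E}} =
          {h : G ω | (h : Pm) * x ∈ E.filter fun g => a * g ∉ E} := by
        ext k
        have h5 : ((s * k : G ω) : Pm) * x = a * ((k : Pm) * x) := by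
          rw [Subgroup.coe_mul, h, mul_assoc]
        constructor
        · rintro ⟨h3, h4⟩
          have h4' : ¬ ((s * k : G ω) : Pm) * x ∈ E := h4
          rw [h5] at h4'
          exact Finset.mem_filter.2 ⟨h3, h4'⟩
        · intro h3
          obtain ⟨h6, h7⟩ := Finset.mem_filter.1 h3
          refine ⟨h6, ?_⟩
          show ¬ ((s * k : G ω) : Pm) * x ∈ E
          rw [h5]
          exact h7
      rw [h2, hcnt] at h1
      have h3 : ((symmDiff ((fun y => s * y) '' {h : G ω | (h : Pm) * x ∈ E})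
          {h : G ω | (h : Pm) * x ∈ E}).ncard : ℝ) ≤
          2 * (((E.filter fun g => a * g ∉ E).filter fun g => π g = π x).card : ℝ) := by exact_mod_cast h1
      have h0 : 0 ≤ δ := Real.sqrt_nonneg _
      have h00 : δ ^ 2 = 32 * η := Real.sq_sqrt (by positivity)
      have h4 : 2 * δ * n < 1 := by
        refine lt_of_pow_lt_pow_left₀ 2 (by norm_num) ?_
        rw [mul_pow, mul_pow, h00]
        linarith
      have h5 : 2 * δ < (n : ℝ)⁻¹ := by
        rw [inv_eq_one_div, lt_div_iff₀ hnpos]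
        exact h4
      calc _ ≤ 2 * (((E.filter fun g => a * g ∉ E).filter fun g => π g = π x).card : ℝ) := h3
        _ ≤ 2 * (δ * (E.filter fun g => π g = π x).card) := by gcongr
        _ = 2 * δ * ({h : G ω | (h : Pm) * x ∈ E}.ncard : ℝ) := by
            rw [hcnt, mul_assoc]
        _ < (n : ℝ)⁻¹ * ({h : G ω | (h : Pm) * x ∈ E}.ncard : ℝ) := by gcongr
    · exact hgenj 0 h
    · exact hgenj 1 h
    · exact hgenj 2 h
  · rw [hcnt]
    have h1 := D.sz
    have h2 : (E.filter fun g => π g = π x).card ≤ T.card :=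
      Finset.card_le_card ((Finset.filter_subset _ _).trans (Finset.filter_subset _ _))
    omega

end Pool.Agent.H361.FU
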