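import Pool.Agent.H361.FU.Wr
import Pool.Agent.H361.FU.Gen2

/-!
# Folner functions of commensurable groups
-/

set_option autoImplicit false

namespace Pool.Agent.H361.FU

open Pool.Agent.Results.MP_0b0f5a_al.LowerBounds Pool.Agent.W551.FolQ

open Classical in
theorem leave_G (ω : ℕ → Fin 3) (t : Pm) (ht : t ∈ G ω) : ∃ K : ℕ, ∀ F : Finset Pm,
    (F.filter fun z => z * t ∉ F).card ≤ K * (F.filter fun z => ∃ s ∈ gens ω, z * s ∉ F).card := by
  induction ht using Subgroup.closure_induction with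
  | mem x hx =>
    refine ⟨1, fun F => ?_⟩
    rw [one_mul]
    refine Finset.card_le_card fun z hz => ?_
    rw [Finset.mem_filter] at hz ⊢
    exact ⟨hz.1, x, hx, hz.2⟩
  | one => exact ⟨0, fun F => by simp⟩
  | mul x y _ _ hx hy =>
    obtain ⟨K, hK⟩ := hx
    obtain ⟨K', hK'⟩ := hy
    refine ⟨K + K', fun F => ?_⟩
    rw [add_mul]
    exact (leave_mul F x y).trans (add_le_add (hK F) (hK' F))
  | inv x _ hx =>
    obtain ⟨K, hK⟩ := hx
    exact ⟨K, fun F => (leave_inv F x).trans (hK F)⟩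

open Classical in
theorem to_sub (A : Subgroup Pm) {J : Type} [Fintype J] (t : J → A) (F : Finset Pm)
    (hF : F.Nonempty) (N : ℕ)
    (hN : N * ∑ j, (F.filter fun z => z * (t j : Pm) ∉ F).card ≤ F.card) :
    ∃ L : Finset A, L.Nonempty ∧ L.card ≤ F.card ∧
      N * ∑ j, (L.filter fun q => q * t j ∉ L).card ≤ L.card := by
  have hmem : ∀ g : Pm, ((g : Pm ⧸ A).out)⁻¹ * g ∈ A := by
    intro g
    rw [← QuotientGroup.eq, QuotientGroup.out_eq']
  have hmk : ∀ (g : Pm) (x : A), ((g * (x : Pm) : Pm) : Pm ⧸ A) = (g : Pm ⧸ A) := by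
    intro g x
    rw [QuotientGroup.eq, mul_inv_rev, inv_mul_cancel_right]
    exact A.inv_mem x.2
  have hφ : ∀ (j : J) (x : Pm), (fun g : Pm => ((g : Pm ⧸ A),
      (⟨((g : Pm ⧸ A).out)⁻¹ * g, hmem g⟩ : A))) (x * (t j : Pm)) =
      (((fun g : Pm => ((g : Pm ⧸ A), (⟨((g : Pm ⧸ A).out)⁻¹ * g, hmem g⟩ : A))) x).1,
        ((fun g : Pm => ((g : Pm ⧸ A), (⟨((g : Pm ⧸ A).out)⁻¹ * g, hmem g⟩ : A))) x).2 * t j) := by
    intro j x
    have h1 := hmk x (t j)
    refine Prod.ext h1 ?_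
    apply Subtype.ext
    change ((x * (t j : Pm) : Pm) : Pm ⧸ A).out⁻¹ * (x * (t j : Pm)) =
      ((x : Pm ⧸ A).out)⁻¹ * x * (t j : Pm)
    rw [h1, mul_assoc]
  obtain ⟨L, h1, h2, h3⟩ := level F hF (fun g => ((g : Pm ⧸ A),
    (⟨((g : Pm ⧸ A).out)⁻¹ * g, hmem g⟩ : A)))
    (fun j x => x * (t j : Pm)) t (fun j x y hxy => mul_right_cancel hxy) hφ N hN
  refine ⟨L, h1, h2, le_trans (le_of_eq ?_) h3⟩
  refine congrArg (fun x => N * x) (Finset.sum_congr rfl fun j _ => congrArg Finset.card ?_)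
  ext x
  simp only [Finset.mem_filter]

theorem finite_quot {H K : Subgroup Pm} (h : Cf H K) : Finite (K ⧸ (H.subgroupOf K)) := by
  obtain ⟨F, hF, hc⟩ := h
  choose f hf e he hk using hc
  have : Finite F := hF
  refine Finite.of_injective (fun q : K ⧸ (H.subgroupOf K) =>
    (⟨f (q.out : K) q.out.2, hf _ _⟩ : F)) ?_
  intro q q' hqq
  have h1 : f (q.out : K) q.out.2 = f (q'.out : K) q'.out.2 := congrArg Subtype.val hqq
  have h2 := hk (q.out : K) q.out.2
  have h3 := hk (q'.out : K) q'.out.2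
  rw [← QuotientGroup.out_eq' q, ← QuotientGroup.out_eq' q', QuotientGroup.eq,
    Subgroup.mem_subgroupOf]
  show (q.out : Pm)⁻¹ * (q'.out : Pm) ∈ H
  rw [h2, h3, h1, mul_inv_rev, mul_assoc, inv_mul_cancel_left]
  exact H.mul_mem (H.inv_mem (he _ _)) (he _ _)

/-- the generators in the group -/
def gq (ω : ℕ → Fin 3) : Option (Fin 3) → G ω
  | none => ⟨a, a_mem ω⟩
  | some j => ⟨gen ω j, gen_mem ω j⟩

theorem gq_sq (ω : ℕ → Fin 3) (o : Option (Fin 3)) : gq ω o * gq ω o = 1 := by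
  cases o with
  | none => exact Subtype.ext a_sq
  | some j => exact Subtype.ext (gen_sq ω j)

theorem gq_surj (ω : ℕ → Fin 3) (s : G ω) (hs : (s : Pm) ∈ gens ω) : ∃ o, s = gq ω o := by
  rcases gens_cases hs with h | ⟨j, h⟩
  · exact ⟨none, Subtype.ext h⟩
  · exact ⟨some j, Subtype.ext h⟩

open Classical in
theorem fol_transfer (ω ω' : ℕ → Fin 3) (h : Cf (G ω') (G ω)) : Le (fol ω) (fol ω') := by
  set A : Subgroup Pm := G ω ⊓ G ω' with hA
  set H : Subgroup (G ω) := (G ω').subgroupOf (G ω) with hH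
  have hfq : Finite (G ω ⧸ H) := finite_quot h
  let _ : Fintype (G ω ⧸ H) := Fintype.ofFinite _
  have hh : ∀ (o : Option (Fin 3)) (q : G ω ⧸ H), (gq ω o • q).out⁻¹ * (gq ω o * q.out) ∈ H := by
    intro o q
    rw [← QuotientGroup.eq, QuotientGroup.out_eq']
    conv_lhs => rw [← QuotientGroup.out_eq' q]
    rfl
  let t : Option (Fin 3) × (G ω ⧸ H) → A := fun p =>
    ⟨(((gq ω p.1 • p.2).out⁻¹ * (gq ω p.1 * p.2.out))⁻¹ : G ω),
      ⟨(((gq ω p.1 • p.2).out⁻¹ * (gq ω p.1 * p.2.out))⁻¹ : G ω).2, H.inv_mem (hh p.1 p.2)⟩⟩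
  let e : A → G ω := fun l => ⟨l, l.2.1⟩
  have he : ∀ l, e l ∈ H := fun l => l.2.2
  choose K hK using fun p : Option (Fin 3) × (G ω ⧸ H) => leave_G ω' (t p : Pm) (t p).2.2
  set C0 : ℕ := ∑ p, K p with hC0
  refine ⟨12 * C0 + Fintype.card (G ω ⧸ H) + 1, fun n hn => ?_⟩
  set C := 12 * C0 + Fintype.card (G ω ⧸ H) + 1 with hC
  have hCn : 1 ≤ C * n := Nat.mul_pos (by omega) hn
  obtain ⟨E', h1, h2, h3, h4⟩ := fol_spec ω' (C * n) hCn
  obtain ⟨F, hF, hcard, hk⟩ := key ω' (C * n) hCn E' h1 h2 h3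
  have hk1 := hk ((2 * n + 1) * C0) (by
    have : C0 * n + C0 * n + C0 ≤ 3 * (C0 * n) := by nlinarith
    rw [hC]
    nlinarith)
  rw [← gens_eq] at hk1
  have hk2 : (2 * n + 1) * ∑ p, (F.filter fun z => z * (t p : Pm) ∉ F).card ≤ F.card := by
    refine le_trans ?_ hk1
    rw [mul_assoc]
    refine Nat.mul_le_mul_left _ ?_
    rw [hC0, Finset.sum_mul]
    exact Finset.sum_le_sum fun p _ => hK p F
  obtain ⟨L, hL, hLF, hLb⟩ := to_sub A t F hF (2 * n + 1) hk2
  -- the set `E`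
  let Ψ : (G ω ⧸ H) × A → G ω := fun p => p.1.out * (e p.2)⁻¹
  have hmk : ∀ p, ((Ψ p : G ω) : G ω ⧸ H) = p.1 := by
    intro p
    conv_rhs => rw [← QuotientGroup.out_eq' p.1]
    rw [QuotientGroup.eq]
    show (p.1.out * (e p.2)⁻¹)⁻¹ * p.1.out ∈ H
    rw [mul_inv_rev, inv_inv, mul_assoc, inv_mul_cancel, mul_one]
    exact he p.2
  have hΨ : Function.Injective Ψ := by
    rintro ⟨q, l⟩ ⟨q', l'⟩ hp
    have h5 : q = q' := by
      have h6 := congrArg (fun x : G ω => (x : G ω ⧸ H)) hp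
      simp only [hmk] at h6
      exact h6
    subst h5
    have h6 : e l = e l' := inv_injective (mul_left_cancel hp)
    have h7 : ((e l : G ω) : Pm) = (e l' : G ω) := congrArg Subtype.val h6
    have h8 : l = l' := Subtype.ext h7
    rw [h8]
  set E : Finset (G ω) := (Finset.univ ×ˢ L).image Ψ with hE
  have hEcard : E.card = Fintype.card (G ω ⧸ H) * L.card := by
    rw [hE, Finset.card_image_of_injective _ hΨ, Finset.card_product, Finset.card_univ]
  have hq1 : 1 ≤ Fintype.card (G ω ⧸ H) := Fintype.card_pos_iff.2 ⟨((1 : G ω) : G ω ⧸ H)⟩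
  have hLE : L.card ≤ E.card := by
    rw [hEcard]
    exact Nat.le_mul_of_pos_left _ hq1
  have hLpos : 0 < L.card := hL.card_pos
  have hbd : ∀ o : Option (Fin 3), (2 * n + 1) * (E.filter fun x => gq ω o * x ∉ E).card ≤ L.card := by
    intro o
    refine le_trans (Nat.mul_le_mul_left _ ?_) hLb
    have hsub : (E.filter fun x => gq ω o * x ∉ E) ⊆
        (Finset.univ : Finset (G ω ⧸ H)).biUnion fun q =>
          (L.filter fun l => l * t (o, q) ∉ L).image fun l => Ψ (q, l) := by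
      intro x hx
      rw [Finset.mem_filter, hE, Finset.mem_image] at hx
      obtain ⟨⟨⟨q, l⟩, hql, rfl⟩, hx2⟩ := hx
      rw [Finset.mem_product] at hql
      refine Finset.mem_biUnion.2 ⟨q, Finset.mem_univ _, Finset.mem_image.2 ⟨l, ?_, rfl⟩⟩
      refine Finset.mem_filter.2 ⟨hql.2, fun hlt => hx2 ?_⟩
      refine Finset.mem_image.2 ⟨(gq ω o • q, l * t (o, q)), Finset.mem_product.2
        ⟨Finset.mem_univ _, hlt⟩, ?_⟩
      show (gq ω o • q).out * (e (l * t (o, q)))⁻¹ = gq ω o * (q.out * (e l)⁻¹)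
      have h5 : e (l * t (o, q)) = e l * ((gq ω o • q).out⁻¹ * (gq ω o * q.out))⁻¹ := rfl
      rw [h5, mul_inv_rev, inv_inv]
      group
    refine (Finset.card_le_card hsub).trans (Finset.card_biUnion_le.trans ?_)
    have h6 : ∑ q : G ω ⧸ H, ((L.filter fun l => l * t (o, q) ∉ L).image fun l => Ψ (q, l)).card ≤
        ∑ q : G ω ⧸ H, (L.filter fun l => l * t (o, q) ∉ L).card :=
      Finset.sum_le_sum fun q _ => Finset.card_image_le
    refine h6.trans ?_
    rw [Fintype.sum_prod_type]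
    exact Finset.single_le_sum (f := fun o : Option (Fin 3) =>
      ∑ q : G ω ⧸ H, (L.filter fun l => l * t (o, q) ∉ L).card) (fun _ _ => Nat.zero_le _)
      (Finset.mem_univ o)
  have hfol : IsFolner ω n (E : Set (G ω)) := by
    intro s hs
    obtain ⟨o, rfl⟩ := gq_surj ω s hs
    have h5 := symm_ncard (gq ω o) (gq_sq ω o) (E : Set (G ω)) E.finite_toSet
    have h6 : {h | h ∈ (E : Set (G ω)) ∧ gq ω o * h ∉ (E : Set (G ω))}.ncard =
        (E.filter fun x => gq ω o * x ∉ E).card := by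
      rw [← Set.ncard_coe_finset]
      congr 1
      ext x
      simp
    rw [h6] at h5
    rw [Set.ncard_coe_finset]
    have h7 := hbd o
    have h8 : (0 : ℝ) < E.card := by exact_mod_cast lt_of_lt_of_le hLpos hLE
    have h9 : (0 : ℝ) < n := by exact_mod_cast hn
    rw [div_lt_div_iff₀ h8 h9, one_mul]
    have h10 : (symmDiff ((fun x => gq ω o * x) '' (E : Set (G ω))) (E : Set (G ω))).ncard * n <
        E.card := by
      have h11 : (symmDiff ((fun x => gq ω o * x) '' (E : Set (G ω))) (E : Set (G ω))).ncard * n ≤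
          2 * (E.filter fun x => gq ω o * x ∉ E).card * n := Nat.mul_le_mul_right _ h5
      rcases Nat.eq_zero_or_pos (E.filter fun x => gq ω o * x ∉ E).card with h12 | h12
      · rw [h12] at h11
        omega
      · nlinarith
    exact_mod_cast h10
  have hne : (E : Set (G ω)).Nonempty := by
    rw [Finset.coe_nonempty, ← Finset.card_pos]
    omega
  calc fol ω n ≤ E.card := fol_le ⟨E, E.finite_toSet, hne, hfol, (Set.ncard_coe_finset E).le⟩
    _ = Fintype.card (G ω ⧸ H) * L.card := hEcard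
    _ ≤ C * fol ω' (C * n) := by
        refine Nat.mul_le_mul (by omega) ?_
        rw [← h4, ← hcard]
        exact hLF

/-- the class of the Folner function depends only on the tail -/
theorem fol_tail (K : ℕ) (ω ω' : ℕ → Fin 3) (hω : Nc ω) (h : ∀ n, K ≤ n → ω n = ω' n) :
    Le (fol ω') (fol ω) :=
  fol_transfer ω' ω (cf_tail K ω ω' hω h)

end Pool.Agent.H361.FU
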