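import Pool.Agent.H361.FU.Fin

/-!
# The groups `G_ω` for sequences with the same tail are commensurable
-/

set_option autoImplicit false

namespace Pool.Agent.H361.FU

open Pool.Agent.Results.MP_0b0f5a_al.LowerBounds

/-- finitely many left cosets of `H` cover `K` -/
def Cf (H K : Subgroup Pm) : Prop :=
  ∃ F : Set Pm, F.Finite ∧ ∀ k ∈ K, ∃ f ∈ F, ∃ h ∈ H, k = f * h

theorem Cf.of_le {H K : Subgroup Pm} (h : K ≤ H) : Cf H K :=
  ⟨{1}, Set.finite_singleton 1, fun k hk => ⟨1, rfl, k, h hk, (one_mul k).symm⟩⟩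

theorem Cf.trans {H K L : Subgroup Pm} (h1 : Cf H K) (h2 : Cf K L) : Cf H L := by
  obtain ⟨F, hF, h1⟩ := h1
  obtain ⟨F', hF', h2⟩ := h2
  refine ⟨Set.image2 (fun x y => x * y) F' F, hF'.image2 _ hF, fun l hl => ?_⟩
  obtain ⟨f', hf', k, hk, rfl⟩ := h2 l hl
  obtain ⟨f, hf, h, hh, rfl⟩ := h1 k hk
  exact ⟨f' * f, Set.mem_image2_of_mem hf' hf, h, hh, (mul_assoc _ _ _).symm⟩

theorem io_mul_false (g0 g1 h0 h1 : Pm) (s : Bool) :
    io (g0, g1, s) * io (h0, h1, false) = io (g0 * h0, g1 * h1, s) := by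
  ext1 v
  change ioFun g0 g1 s (ioFun h0 h1 false v) = ioFun (g0 * h0 : Pm) (g1 * h1 : Pm) s v
  rcases v with _ | ⟨x, v⟩
  · rfl
  · cases x <;> cases s <;> simp [ioFun]

theorem io_mul_true (g0 g1 h0 h1 : Pm) (s : Bool) :
    io (g0, g1, s) * io (h0, h1, true) = io (g1 * h0, g0 * h1, !s) := by
  ext1 v
  change ioFun g0 g1 s (ioFun h0 h1 true v) = ioFun (g1 * h0 : Pm) (g0 * h1 : Pm) (!s) v
  rcases v with _ | ⟨x, v⟩
  · rfl
  · cases x <;> cases s <;> simp [ioFun]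

theorem io_one : io (1, 1, false) = 1 := by
  ext1 v
  change ioFun (1 : Pm) (1 : Pm) false v = v
  rcases v with _ | ⟨x, v⟩
  · rfl
  · cases x <;> simp [ioFun]

theorem io_inv (g0 g1 : Pm) : (io (g0, g1, false))⁻¹ = io (g0⁻¹, g1⁻¹, false) := by
  rw [inv_eq_iff_mul_eq_one, io_mul_false, mul_inv_cancel, mul_inv_cancel, io_one]

theorem io_pow (u v : Pm) (m : ℕ) : io (u, v, false) ^ m = io (u ^ m, v ^ m, false) := by
  induction m with
  | zero => simp [io_one]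
  | succ m ih => rw [pow_succ, ih, io_mul_false, pow_succ, pow_succ]

theorem a_eq_io : a = io (1, 1, true) := by
  have h := a_io 1 1 false
  rw [io_one, mul_one] at h
  exact h

theorem gen_eq_io (ω : ℕ → Fin 3) (j : Fin 3) :
    gen ω j = io (bz j (ω 0), gen (sh ω) j, false) := by
  have h := gen_io ω j 1 1
  rw [io_one, mul_one, mul_one, mul_one] at h
  exact h

theorem a_conj (z g : Pm) : a * io (z, g, false) * a = io (g, z, false) := by
  rw [a_io, a_eq_io, io_mul_true, mul_one, mul_one]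
  rfl

/-- the wreath product of `H` with the group of order two -/
def W (H : Subgroup Pm) : Subgroup Pm where
  carrier := {g | ∃ g0 ∈ H, ∃ g1 ∈ H, ∃ s, g = io (g0, g1, s)}
  one_mem' := ⟨1, H.one_mem, 1, H.one_mem, false, io_one.symm⟩
  mul_mem' := by
    rintro _ _ ⟨g0, h0, g1, h1, s, rfl⟩ ⟨k0, l0, k1, l1, t, rfl⟩
    cases t
    · exact ⟨_, H.mul_mem h0 l0, _, H.mul_mem h1 l1, s, io_mul_false _ _ _ _ _⟩
    · exact ⟨_, H.mul_mem h1 l0, _, H.mul_mem h0 l1, !s, io_mul_true _ _ _ _ _⟩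
  inv_mem' := by
    rintro _ ⟨g0, h0, g1, h1, s, rfl⟩
    cases s
    · exact ⟨g0⁻¹, H.inv_mem h0, g1⁻¹, H.inv_mem h1, false, io_inv _ _⟩
    · refine ⟨g1⁻¹, H.inv_mem h1, g0⁻¹, H.inv_mem h0, true, ?_⟩
      rw [inv_eq_iff_mul_eq_one, io_mul_true, mul_inv_cancel, mul_inv_cancel]
      exact io_one

theorem Cf.W {H K : Subgroup Pm} (h : Cf H K) : Cf (W H) (W K) := by
  obtain ⟨F, hF, h⟩ := h
  refine ⟨io '' (F ×ˢ F ×ˢ Set.univ), (hF.prod (hF.prod Set.finite_univ)).image _, ?_⟩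
  rintro _ ⟨k0, hk0, k1, hk1, s, rfl⟩
  obtain ⟨f0, hf0, h0, hh0, rfl⟩ := h k0 hk0
  obtain ⟨f1, hf1, h1, hh1, rfl⟩ := h k1 hk1
  exact ⟨_, ⟨(f0, f1, s), ⟨hf0, hf1, trivial⟩, rfl⟩, io (h0, h1, false),
    ⟨h0, hh0, h1, hh1, false, rfl⟩, (io_mul_false _ _ _ _ _).symm⟩

theorem a_mem (ω : ℕ → Fin 3) : a ∈ G ω := Subgroup.subset_closure (Or.inl rfl)

theorem gen_mem (ω : ℕ → Fin 3) (j : Fin 3) : gen ω j ∈ G ω := by
  refine Subgroup.subset_closure ?_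
  fin_cases j
  · exact Or.inr (Or.inl rfl)
  · exact Or.inr (Or.inr (Or.inl rfl))
  · exact Or.inr (Or.inr (Or.inr rfl))

theorem gens_cases {ω : ℕ → Fin 3} {s : Pm} (h : s ∈ gens ω) : s = a ∨ ∃ j, s = gen ω j := by
  rcases h with h | h | h | h
  · exact Or.inl h
  · exact Or.inr ⟨0, h⟩
  · exact Or.inr ⟨1, h⟩
  · exact Or.inr ⟨2, h⟩

theorem bz_mem (ω : ℕ → Fin 3) (j i : Fin 3) : bz j i ∈ G ω := by
  rcases bz_cases j i with h | h
  · rw [h]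
    exact a_mem ω
  · rw [h]
    exact (G ω).one_mem

theorem G_le_W (ω : ℕ → Fin 3) : G ω ≤ W (G (sh ω)) := by
  refine (Subgroup.closure_le _).2 ?_
  intro s hs
  rcases gens_cases hs with rfl | ⟨j, rfl⟩
  · exact ⟨1, (G _).one_mem, 1, (G _).one_mem, true, a_eq_io⟩
  · exact ⟨_, bz_mem _ _ _, _, gen_mem _ _, false, gen_eq_io ω j⟩

theorem bz_rev (i : Fin 3) : bz (Fin.rev i) i = 1 := by
  fin_cases i <;> (ext1 v; rfl)

theorem gen_third (ω : ℕ → Fin 3) {j0 j1 : Fin 3} (h : j0 ≠ j1) (j : Fin 3) :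
    gen ω j = gen ω j0 ∨ gen ω j = gen ω j1 ∨ gen ω j = gen ω j1 * gen ω j0 := by
  have h02 : gen ω 0 * gen ω 2 = gen ω 1 := by
    rw [← gen01, ← mul_assoc, gen_sq, one_mul]
  have h12 : gen ω 1 * gen ω 2 = gen ω 0 := by
    rw [← gen10, ← mul_assoc, gen_sq, one_mul]
  have h20 : gen ω 2 * gen ω 0 = gen ω 1 := by
    rw [← gen10, mul_assoc, gen_sq, mul_one]
  have h21 : gen ω 2 * gen ω 1 = gen ω 0 := by
    rw [← gen01, mul_assoc, gen_sq, mul_one]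
  have h01 := gen01 ω
  have h10 := gen10 ω
  fin_cases j0 <;> fin_cases j1 <;> fin_cases j <;>
    first
      | exact absurd rfl h
      | exact Or.inl rfl
      | exact Or.inr (Or.inl rfl)
      | exact Or.inr (Or.inr h01.symm)
      | exact Or.inr (Or.inr h10.symm)
      | exact Or.inr (Or.inr h02.symm)
      | exact Or.inr (Or.inr h20.symm)
      | exact Or.inr (Or.inr h12.symm)
      | exact Or.inr (Or.inr h21.symm)

theorem inv_a : a⁻¹ = a := inv_eq_of_mul_eq_one_right a_sq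

theorem inv_gen (ω : ℕ → Fin 3) (j : Fin 3) : (gen ω j)⁻¹ = gen ω j :=
  inv_eq_of_mul_eq_one_right (gen_sq ω j)

/-- `a b_ω` has finite order if some letter of `ω` is trivial for `b` -/
theorem ord (j : Fin 3) (k : ℕ) : ∀ ω : ℕ → Fin 3, bz j (ω k) = 1 →
    ∃ m, 1 ≤ m ∧ (a * gen ω j) ^ m = 1 := by
  have key : ∀ ω : ℕ → Fin 3, (a * gen ω j) ^ 2 =
      io (gen (sh ω) j * bz j (ω 0), bz j (ω 0) * gen (sh ω) j, false) := by
    intro ω
    rw [pow_two, gen_eq_io ω j, a_io]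
    exact io_mul_true (bz j (ω 0)) (gen (sh ω) j) (bz j (ω 0)) (gen (sh ω) j) true
  have one : ∀ ω : ℕ → Fin 3, bz j (ω 0) = 1 → (a * gen ω j) ^ 4 = 1 := by
    intro ω h
    rw [show 4 = 2 * 2 from rfl, pow_mul, key, h, mul_one, one_mul, pow_two, io_mul_false, gen_sq,
      io_one]
  induction k with
  | zero => exact fun ω h => ⟨4, by norm_num, one ω h⟩
  | succ k ih =>
    intro ω h
    rcases bz_cases j (ω 0) with h0 | h0
    · obtain ⟨m, hm, h1⟩ := ih (sh ω) h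
      refine ⟨2 * m, by omega, ?_⟩
      have h2 : gen (sh ω) j * a = (a * gen (sh ω) j)⁻¹ := by
        rw [mul_inv_rev, inv_a, inv_gen]
      rw [pow_mul, key, h0, io_pow, h1, h2, inv_pow, h1, inv_one, io_one]
    · exact ⟨4, by norm_num, one ω h0⟩

/-- the elements `b` with `(1, b)` in `G_ω` -/
def Bs (ω : ℕ → Fin 3) : Subgroup Pm where
  carrier := {b | io (1, b, false) ∈ G ω}
  one_mem' := by
    show io (1, 1, false) ∈ G ω
    rw [io_one]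
    exact (G ω).one_mem
  mul_mem' := by
    intro x y hx hy
    show io (1, x * y, false) ∈ G ω
    have h := (G ω).mul_mem hx hy
    rwa [io_mul_false, one_mul] at h
  inv_mem' := by
    intro x hx
    show io (1, x⁻¹, false) ∈ G ω
    have h := (G ω).inv_mem hx
    rwa [io_inv, inv_one] at h

theorem Bs_left {ω : ℕ → Fin 3} {b : Pm} (h : b ∈ Bs ω) : io (b, 1, false) ∈ G ω := by
  have h1 := (G ω).mul_mem ((G ω).mul_mem (a_mem ω) h) (a_mem ω)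
  rwa [a_conj] at h1

theorem exists_active (i : Fin 3) : ∃ j, bz j i = a := by
  fin_cases i
  · exact ⟨0, by ext1 v; rfl⟩
  · exact ⟨0, by ext1 v; rfl⟩
  · exact ⟨1, by ext1 v; rfl⟩

theorem proj_onto (ω : ℕ → Fin 3) (g : Pm) (hg : g ∈ G (sh ω)) : ∃ h0, io (h0, g, false) ∈ G ω := by
  induction hg using Subgroup.closure_induction with
  | mem x hx =>
    rcases gens_cases hx with rfl | ⟨j, rfl⟩
    · obtain ⟨j, hj⟩ := exists_active (ω 0)
      refine ⟨gen (sh ω) j, ?_⟩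
      have h1 := (G ω).mul_mem ((G ω).mul_mem (a_mem ω) (gen_mem ω j)) (a_mem ω)
      rwa [gen_eq_io ω j, a_conj, hj] at h1
    · refine ⟨bz j (ω 0), ?_⟩
      rw [← gen_eq_io]
      exact gen_mem ω j
  | one => exact ⟨1, by rw [io_one]; exact (G ω).one_mem⟩
  | mul x y _ _ hx hy =>
    obtain ⟨x0, hx⟩ := hx
    obtain ⟨y0, hy⟩ := hy
    refine ⟨x0 * y0, ?_⟩
    rw [← io_mul_false]
    exact (G ω).mul_mem hx hy
  | inv x _ hx =>
    obtain ⟨x0, hx⟩ := hx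
    refine ⟨x0⁻¹, ?_⟩
    rw [← io_inv]
    exact (G ω).inv_mem hx

theorem Bs_conj {ω : ℕ → Fin 3} {g b : Pm} (hg : g ∈ G (sh ω)) (hb : b ∈ Bs ω) :
    g * b * g⁻¹ ∈ Bs ω := by
  obtain ⟨h0, h⟩ := proj_onto ω g hg
  have h1 := (G ω).mul_mem ((G ω).mul_mem h hb) ((G ω).inv_mem h)
  rw [io_inv, io_mul_false, io_mul_false, mul_one, mul_inv_cancel] at h1
  exact h1

theorem cf_Bs (ω : ℕ → Fin 3) {j0 j1 : Fin 3} (hne : j0 ≠ j1) (h0 : bz j0 (ω 0) = 1) {m : ℕ}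
    (hm1 : 1 ≤ m) (hm : (a * gen (sh ω) j1) ^ m = 1) : Cf (Bs ω) (G (sh ω)) := by
  set c : Pm := a * gen (sh ω) j1 with hc
  have hcG : c ∈ G (sh ω) := (G _).mul_mem (a_mem _) (gen_mem _ _)
  have hfin : (Subgroup.zpowers c : Set Pm).Finite := by
    have h1 : IsOfFinOrder c := isOfFinOrder_iff_pow_eq_one.2 ⟨m, hm1, hm⟩
    exact h1.finite_zpowers
  have hx0 : gen (sh ω) j0 ∈ Bs ω := by
    show io (1, gen (sh ω) j0, false) ∈ G ω
    have h1 := gen_mem ω j0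
    rwa [gen_eq_io ω j0, h0] at h1
  set D : Set Pm := (Subgroup.zpowers c : Set Pm) ∪ (fun x => x * a) '' (Subgroup.zpowers c : Set Pm)
    with hD
  have hDG : ∀ d ∈ D, d ∈ G (sh ω) := by
    have h1 : ∀ d ∈ (Subgroup.zpowers c : Set Pm), d ∈ G (sh ω) := by
      rintro _ ⟨i, rfl⟩
      exact (G _).zpow_mem hcG i
    rintro d (hd | ⟨d', hd', rfl⟩)
    · exact h1 d hd
    · exact (G _).mul_mem (h1 d' hd') (a_mem _)
  have haca : ∀ i : ℤ, a * c ^ i = c ^ (-i) * a := by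
    intro i
    have h1 : a * c * a⁻¹ = c⁻¹ := by
      rw [hc, inv_a, mul_inv_rev, inv_a, inv_gen, ← mul_assoc, a_sq, one_mul]
    have h2 : a * c ^ i * a⁻¹ = c ^ (-i) := by
      rw [← conj_zpow, h1, inv_zpow, zpow_neg]
    rw [← h2, inv_mul_cancel_right]
  have hDa : ∀ d ∈ D, a * d ∈ D := by
    rintro d (⟨i, rfl⟩ | ⟨d', ⟨i, rfl⟩, rfl⟩)
    · refine Or.inr ⟨c ^ (-i), ⟨-i, rfl⟩, ?_⟩
      exact (haca i).symm
    · refine Or.inl ⟨-i, ?_⟩
      show c ^ (-i) = a * (c ^ i * a)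
      rw [← mul_assoc, haca, mul_assoc, a_sq, mul_one]
  have hDc : ∀ d ∈ D, c * d ∈ D := by
    rintro d (⟨i, rfl⟩ | ⟨d', ⟨i, rfl⟩, rfl⟩)
    · refine Or.inl ⟨1 + i, ?_⟩
      show c ^ (1 + i) = c * c ^ i
      rw [zpow_one_add]
    · refine Or.inr ⟨c ^ (1 + i), ⟨1 + i, rfl⟩, ?_⟩
      show c ^ (1 + i) * a = c * (c ^ i * a)
      rw [zpow_one_add, mul_assoc]
  have hDg : ∀ d ∈ D, gen (sh ω) j1 * d ∈ D := by
    intro d hd
    have h1 : gen (sh ω) j1 = a * c := by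
      rw [hc, ← mul_assoc, a_sq, one_mul]
    rw [h1, mul_assoc]
    exact hDa _ (hDc _ hd)
  have h1D : (1 : Pm) ∈ D := Or.inl ⟨0, zpow_zero c⟩
  let Q : Pm → Prop := fun g => ∃ d ∈ D, ∃ b ∈ Bs ω, g = d * b
  have Qa : ∀ g, Q g → Q (a * g) := by
    rintro _ ⟨d, hd, b, hb, rfl⟩
    exact ⟨a * d, hDa d hd, b, hb, (mul_assoc _ _ _).symm⟩
  have Q1 : ∀ g, Q g → Q (gen (sh ω) j1 * g) := by
    rintro _ ⟨d, hd, b, hb, rfl⟩
    exact ⟨_, hDg d hd, b, hb, (mul_assoc _ _ _).symm⟩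
  have Q0 : ∀ g, Q g → Q (gen (sh ω) j0 * g) := by
    rintro _ ⟨d, hd, b, hb, rfl⟩
    refine ⟨d, hd, d⁻¹ * gen (sh ω) j0 * (d⁻¹)⁻¹ * b,
      (Bs ω).mul_mem (Bs_conj ((G _).inv_mem (hDG d hd)) hx0) hb, ?_⟩
    group
  have Qs : ∀ s ∈ gens (sh ω), ∀ g, Q g → Q (s * g) := by
    intro s hs g hg
    rcases gens_cases hs with rfl | ⟨j, rfl⟩
    · exact Qa g hg
    · rcases gen_third (sh ω) hne j with h | h | h
      · rw [h]
        exact Q0 g hg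
      · rw [h]
        exact Q1 g hg
      · rw [h, mul_assoc]
        exact Q1 _ (Q0 g hg)
  have hinv : ∀ s ∈ gens (sh ω), s⁻¹ = s := by
    intro s hs
    rcases gens_cases hs with rfl | ⟨j, rfl⟩
    · exact inv_a
    · exact inv_gen _ _
  refine ⟨D, hfin.union (hfin.image _), fun g hg => ?_⟩
  show Q g
  induction hg using Subgroup.closure_induction_left with
  | one => exact ⟨1, h1D, 1, (Bs ω).one_mem, (one_mul _).symm⟩
  | mul_left x hx y hy ih => exact Qs x hx y ih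
  | inv_mul_cancel x hx y hy ih =>
    rw [hinv x hx]
    exact Qs x hx y ih

theorem cf_G (ω : ℕ → Fin 3) (h : ∃ k, ω (k + 1) ≠ ω 0) : Cf (G ω) (W (G (sh ω))) := by
  obtain ⟨k, hk⟩ := h
  have hne : Fin.rev (ω 0) ≠ Fin.rev (ω (k + 1)) := fun h => hk (Fin.rev_injective h).symm
  obtain ⟨m, hm1, hm⟩ := ord (Fin.rev (ω (k + 1))) k (sh ω) (bz_rev (ω (k + 1)))
  obtain ⟨F, hF, hcov⟩ := cf_Bs ω hne (bz_rev (ω 0)) hm1 hm
  refine ⟨io '' (F ×ˢ F ×ˢ Set.univ), (hF.prod (hF.prod Set.finite_univ)).image _, ?_⟩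
  rintro _ ⟨k0, hk0, k1, hk1, s, rfl⟩
  obtain ⟨f0, hf0, b0, hb0, rfl⟩ := hcov k0 hk0
  obtain ⟨f1, hf1, b1, hb1, rfl⟩ := hcov k1 hk1
  refine ⟨_, ⟨(f0, f1, s), ⟨hf0, hf1, trivial⟩, rfl⟩, io (b0, b1, false), ?_,
    (io_mul_false _ _ _ _ _).symm⟩
  have h1 := (G ω).mul_mem (Bs_left hb0) hb1
  rwa [io_mul_false, mul_one, one_mul] at h1

/-- the sequence is not eventually constant -/
def Nc (ω : ℕ → Fin 3) : Prop := ∀ (i : Fin 3) (N : ℕ), ∃ n, N ≤ n ∧ ω n ≠ i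

theorem Nc.sh {ω : ℕ → Fin 3} (h : Nc ω) : Nc (sh ω) := by
  intro i N
  obtain ⟨n, hn, h1⟩ := h i (N + 1)
  refine ⟨n - 1, by omega, ?_⟩
  show ω (n - 1 + 1) ≠ i
  rwa [Nat.sub_add_cancel (by omega)]

/-- commensurability -/
theorem cf_tail (K : ℕ) : ∀ ω ω' : ℕ → Fin 3, Nc ω → (∀ n, K ≤ n → ω n = ω' n) →
    Cf (G ω) (G ω') := by
  induction K with
  | zero =>
    intro ω ω' _ h
    have h1 : ω = ω' := funext fun n => h n (Nat.zero_le n)
    rw [h1]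
    exact Cf.of_le le_rfl
  | succ K ih =>
    intro ω ω' hω h
    have h1 : Cf (G (FU.sh ω)) (G (FU.sh ω')) := ih _ _ hω.sh fun n hn => h (n + 1) (by omega)
    have h2 : Cf (G ω) (FU.W (G (FU.sh ω))) := by
      refine cf_G ω ?_
      obtain ⟨n, hn, h3⟩ := hω (ω 0) 1
      exact ⟨n - 1, by rwa [Nat.sub_add_cancel hn]⟩
    exact (h2.trans h1.W).trans (Cf.of_le (G_le_W ω'))

end Pool.Agent.H361.FU
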